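import Mathlib

set_option autoImplicit false

/-!
# A Farkas lemma for boxes and a capacitated transport theorem
-/

namespace Pool.Agent.MP_dc7d7b

open Finset

/-- Farkas' lemma for a box: there is `0 ≤ X ≤ κ` with finitely many linear inequalities iff every nonnegative
combination of the inequalities is satisfied by some point of the box. -/
theorem box_farkas {E α : Type*} [Fintype E] [Fintype α] (M : α → E → ℝ) (b : α → ℝ) (κ : E → ℝ)
    (hκ : ∀ e, 0 ≤ κ e)
    (h : ∀ ω : α → ℝ, (∀ a, 0 ≤ ω a) → ∑ e, κ e * min 0 (∑ a, ω a * M a e) ≤ ∑ a, ω a * b a) :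
    ∃ X : E → ℝ, (∀ e, 0 ≤ X e) ∧ (∀ e, X e ≤ κ e) ∧ ∀ a, ∑ e, M a e * X e ≤ b a := by
  classical
  by_contra hcon
  push Not at hcon
  let F : (E → ℝ) → (α → ℝ) := fun X a => ∑ e, M a e * X e - b a
  have hFc : Continuous F := by
    refine continuous_pi ?_
    intro a
    simp only [F]
    fun_prop
  let s : Set (α → ℝ) := F '' (Set.Icc 0 κ)
  let t : Set (α → ℝ) := Set.Iic 0
  have hs_compact : IsCompact s := (isCompact_Icc).image hFc
  have hs_convex : Convex ℝ s := by
    rintro _ ⟨X, hX, rfl⟩ _ ⟨Y, hY, rfl⟩ p q hp hq hpq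
    refine ⟨p • X + q • Y, (convex_Icc 0 κ) hX hY hp hq hpq, ?_⟩
    funext a
    simp only [F, Pi.add_apply, Pi.smul_apply, smul_eq_mul]
    have h1 : ∑ e, M a e * (p * X e + q * Y e) = p * ∑ e, M a e * X e + q * ∑ e, M a e * Y e := by
      rw [Finset.mul_sum, Finset.mul_sum, ← Finset.sum_add_distrib]
      refine Finset.sum_congr rfl ?_
      intro e _
      ring
    rw [h1]
    have h2 : b a = p * b a + q * b a := by rw [← add_mul, hpq, one_mul]
    nth_rewrite 1 [h2]
    ring
  have ht_closed : IsClosed t := isClosed_Iic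
  have ht_convex : Convex ℝ t := convex_Iic 0
  have hdisj : Disjoint s t := by
    rw [Set.disjoint_left]
    rintro _ ⟨X, hX, rfl⟩ hXt
    obtain ⟨a, ha⟩ := hcon X (fun e => hX.1 e) (fun e => hX.2 e)
    have : F X a ≤ 0 := hXt a
    simp only [F] at this
    linarith
  obtain ⟨f, u, v, hfs, huv, hft⟩ := geometric_hahn_banach_compact_closed hs_convex hs_compact ht_convex
    ht_closed hdisj
  -- `v < 0`
  have hv : v < 0 := by
    have := hft 0 (by simp [t])
    simpa using this
  have hf : ∀ w : α → ℝ, f w = ∑ a, w a * f (Pi.single a 1) := by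
    intro w
    conv_lhs => rw [show w = ∑ a, w a • Pi.single a (1 : ℝ) by
      funext a'
      simp [Finset.sum_apply, Pi.single_apply]]
    rw [map_sum]
    refine Finset.sum_congr rfl ?_
    intro a _
    rw [map_smul, smul_eq_mul]
  -- `f (single a 1) ≤ 0`
  have hneg : ∀ a, f (Pi.single a 1) ≤ 0 := by
    intro a
    by_contra hpos
    push Not at hpos
    -- the point `-(c) • single a 1` lies in `t`
    set c : ℝ := (-v) / f (Pi.single a 1) with hc
    have hc0 : 0 ≤ c := div_nonneg (by linarith) hpos.le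
    have h1 := hft (-(c • Pi.single a (1 : ℝ))) (by
      intro a'
      simp only [Pi.neg_apply, Pi.smul_apply, smul_eq_mul, Pi.zero_apply]
      have h2 : 0 ≤ (Pi.single a (1 : ℝ) : α → ℝ) a' := by
        rw [Pi.single_apply]
        split_ifs <;> norm_num
      nlinarith [mul_nonneg hc0 h2])
    rw [map_neg, map_smul, smul_eq_mul, hc] at h1
    rw [div_mul_cancel₀ _ hpos.ne'] at h1
    linarith
  let ω : α → ℝ := fun a => - f (Pi.single a 1)
  have hω : ∀ a, 0 ≤ ω a := fun a => by simp only [ω]; linarith [hneg a]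
  let X : E → ℝ := fun e => if ∑ a, ω a * M a e < 0 then κ e else 0
  have hXbox : X ∈ Set.Icc 0 κ := by
    constructor
    · intro e
      simp only [X, Pi.zero_apply]
      split_ifs
      · exact hκ e
      · exact le_rfl
    · intro e
      simp only [X]
      split_ifs
      · exact le_rfl
      · exact hκ e
  have h1 := hfs (F X) ⟨X, hXbox, rfl⟩
  rw [hf] at h1
  have h2 : ∑ a, F X a * f (Pi.single a 1) = - (∑ e, κ e * min 0 (∑ a, ω a * M a e) - ∑ a, ω a * b a) := by
    have h3 : ∀ e, κ e * min 0 (∑ a, ω a * M a e) = X e * ∑ a, ω a * M a e := by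
      intro e
      simp only [X]
      split_ifs with hlt
      · rw [min_eq_right hlt.le]
      · push Not at hlt
        rw [min_eq_left hlt]; simp
    simp only [h3, F]
    have h4 : ∑ e, X e * ∑ a, ω a * M a e = ∑ a, ω a * ∑ e, M a e * X e := by
      simp only [Finset.mul_sum]
      rw [Finset.sum_comm]
      refine Finset.sum_congr rfl ?_
      intro a _
      refine Finset.sum_congr rfl ?_
      intro e _
      ring
    rw [h4, ← Finset.sum_sub_distrib, ← Finset.sum_neg_distrib]
    refine Finset.sum_congr rfl ?_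
    intro a _
    simp only [ω]
    ring
  rw [h2] at h1
  have h5 := h ω hω
  linarith

/-! ### Layer cake -/

theorem integrable_step (a b L : ℝ) : IntervalIntegrable (fun t : ℝ => if a < t ∧ t < b then (1 : ℝ) else 0)
    MeasureTheory.volume (-L) L := by
  have h : (fun t : ℝ => if a < t ∧ t < b then (1 : ℝ) else 0) = Set.indicator (Set.Ioo a b) (fun _ => (1 : ℝ)) := by
    funext t
    simp [Set.indicator, Set.mem_Ioo]
  rw [h]
  constructor
  · exact (MeasureTheory.integrable_const (1 : ℝ)).indicator measurableSet_Ioo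
  · exact (MeasureTheory.integrable_const (1 : ℝ)).indicator measurableSet_Ioo

theorem integral_step (a b L : ℝ) (hL : 0 ≤ L) (ha : -L ≤ a) (hb : b ≤ L) :
    ∫ t in (-L)..L, (if a < t ∧ t < b then (1 : ℝ) else 0) = max 0 (b - a) := by
  have h : (fun t : ℝ => if a < t ∧ t < b then (1 : ℝ) else 0) = Set.indicator (Set.Ioo a b) (fun _ => (1 : ℝ)) := by
    funext t
    simp [Set.indicator, Set.mem_Ioo]
  rw [h, intervalIntegral.integral_of_le (by linarith), MeasureTheory.integral_indicator measurableSet_Ioo,
    MeasureTheory.Measure.restrict_restrict measurableSet_Ioo]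
  have h2 : Set.Ioo a b ∩ Set.Ioc (-L) L = Set.Ioo a b := by
    apply Set.inter_eq_left.mpr
    intro t ht
    exact ⟨lt_of_le_of_lt ha ht.1, (ht.2.le).trans hb⟩
  rw [h2, MeasureTheory.integral_const]
  simp only [MeasureTheory.measureReal_def, MeasureTheory.Measure.restrict_apply_univ, Real.volume_Ioo,
    ENNReal.toReal_ofReal', smul_eq_mul, mul_one]
  exact max_comm _ _

theorem integrable_lt (b L : ℝ) : IntervalIntegrable (fun t : ℝ => if t < b then (1 : ℝ) else 0)
    MeasureTheory.volume (-L) L := by
  have h : (fun t : ℝ => if t < b then (1 : ℝ) else 0) = Set.indicator (Set.Iio b) (fun _ => (1 : ℝ)) := by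
    funext t
    simp [Set.indicator, Set.mem_Iio]
  rw [h]
  constructor
  · exact (MeasureTheory.integrable_const (1 : ℝ)).indicator measurableSet_Iio
  · exact (MeasureTheory.integrable_const (1 : ℝ)).indicator measurableSet_Iio

theorem integral_lt (b L : ℝ) (hL : 0 ≤ L) (hb0 : -L ≤ b) (hb : b ≤ L) :
    ∫ t in (-L)..L, (if t < b then (1 : ℝ) else 0) = b + L := by
  have h : (fun t : ℝ => if t < b then (1 : ℝ) else 0) = Set.indicator (Set.Iio b) (fun _ => (1 : ℝ)) := by
    funext t
    simp [Set.indicator, Set.mem_Iio]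
  rw [h, intervalIntegral.integral_of_le (by linarith), MeasureTheory.integral_indicator measurableSet_Iio,
    MeasureTheory.Measure.restrict_restrict measurableSet_Iio]
  have h2 : Set.Iio b ∩ Set.Ioc (-L) L = Set.Ioo (-L) b := by
    ext t
    simp only [Set.mem_inter_iff, Set.mem_Iio, Set.mem_Ioc, Set.mem_Ioo]
    constructor
    · rintro ⟨h1, h2, h3⟩
      exact ⟨h2, h1⟩
    · rintro ⟨h1, h2⟩
      exact ⟨h2, h1, h2.le.trans hb⟩
  rw [h2, MeasureTheory.integral_const]
  simp only [MeasureTheory.measureReal_def, MeasureTheory.Measure.restrict_apply_univ, Real.volume_Ioo,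
    ENNReal.toReal_ofReal', smul_eq_mul, mul_one]
  rw [max_eq_left (by linarith)]
  ring

theorem integrable_gt (b L : ℝ) : IntervalIntegrable (fun t : ℝ => if b < t then (1 : ℝ) else 0)
    MeasureTheory.volume (-L) L := by
  have h : (fun t : ℝ => if b < t then (1 : ℝ) else 0) = Set.indicator (Set.Ioi b) (fun _ => (1 : ℝ)) := by
    funext t
    simp [Set.indicator, Set.mem_Ioi]
  rw [h]
  constructor
  · exact (MeasureTheory.integrable_const (1 : ℝ)).indicator measurableSet_Ioi
  · exact (MeasureTheory.integrable_const (1 : ℝ)).indicator measurableSet_Ioi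

theorem integral_gt (b L : ℝ) (hL : 0 ≤ L) (hb0 : -L ≤ b) (hb : b ≤ L) :
    ∫ t in (-L)..L, (if b < t then (1 : ℝ) else 0) = L - b := by
  have h : (fun t : ℝ => if b < t then (1 : ℝ) else 0) = Set.indicator (Set.Ioi b) (fun _ => (1 : ℝ)) := by
    funext t
    simp [Set.indicator, Set.mem_Ioi]
  rw [h, intervalIntegral.integral_of_le (by linarith), MeasureTheory.integral_indicator measurableSet_Ioi,
    MeasureTheory.Measure.restrict_restrict measurableSet_Ioi]
  have h2 : Set.Ioi b ∩ Set.Ioc (-L) L = Set.Ioc b L := by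
    ext t
    simp only [Set.mem_inter_iff, Set.mem_Ioi, Set.mem_Ioc]
    constructor
    · rintro ⟨h1, h2, h3⟩
      exact ⟨h1, h3⟩
    · rintro ⟨h1, h2⟩
      exact ⟨h1, lt_of_le_of_lt hb0 h1, h2⟩
  rw [h2, MeasureTheory.integral_const]
  simp only [MeasureTheory.measureReal_def, MeasureTheory.Measure.restrict_apply_univ, Real.volume_Ioc,
    ENNReal.toReal_ofReal', smul_eq_mul, mul_one]
  rw [max_eq_left (by linarith)]

theorem intervalIntegrable_sum' {ι : Type*} (s : Finset ι) (f : ι → ℝ → ℝ) (a b : ℝ)
    (h : ∀ i ∈ s, IntervalIntegrable (f i) MeasureTheory.volume a b) :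
    IntervalIntegrable (fun t => ∑ i ∈ s, f i t) MeasureTheory.volume a b := by
  have h1 := IntervalIntegrable.sum s h
  have e : (∑ i ∈ s, f i) = fun t => ∑ i ∈ s, f i t := by
    funext t
    simp [Finset.sum_apply]
  rwa [e] at h1

/-- The dual inequality of the transport theorem. -/
theorem transport_dual {ι : Type*} [Fintype ι] [DecidableEq ι] (A : Finset (ι × ι)) (κ : ℝ) (r s : ι → ℝ)
    (hrs : ∑ i, r i = ∑ i, s i)
    (h : ∀ R C : Finset ι, ∑ i ∈ R, r i - ∑ c ∈ Cᶜ, s c ≤ κ * (A ∩ (R ×ˢ C)).card) (a b : ι → ℝ) :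
    ∑ i, a i * r i + ∑ c, b c * s c ≤ κ * ∑ e ∈ A, max 0 (a e.1 + b e.2) := by
  classical
  obtain ⟨L, hL0, hLa, hLb⟩ : ∃ L : ℝ, 0 ≤ L ∧ (∀ i, |a i| ≤ L) ∧ (∀ i, |b i| ≤ L) := by
    refine ⟨∑ i, |a i| + ∑ i, |b i|, ?_, ?_, ?_⟩
    · positivity
    · intro i
      have h1 := Finset.single_le_sum (f := fun i => |a i|) (fun i _ => abs_nonneg (a i)) (Finset.mem_univ i)
      have h2 : 0 ≤ ∑ i, |b i| := by positivity
      linarith
    · intro i
      have h1 := Finset.single_le_sum (f := fun i => |b i|) (fun i _ => abs_nonneg (b i)) (Finset.mem_univ i)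
      have h2 : 0 ≤ ∑ i, |a i| := by positivity
      linarith
  have hla : ∀ i, -L ≤ a i ∧ a i ≤ L := fun i => abs_le.mp (hLa i)
  have hlb : ∀ i, -L ≤ - b i ∧ - b i ≤ L := fun i => by
    have := abs_le.mp (hLb i)
    constructor <;> linarith
  -- pointwise inequality
  have hpt : ∀ t : ℝ, ∑ i, r i * (if t < a i then (1 : ℝ) else 0) - ∑ c, s c * (1 - (if - b c < t then (1 : ℝ) else 0))
      ≤ κ * ∑ e ∈ A, (if - b e.2 < t ∧ t < a e.1 then (1 : ℝ) else 0) := by
    intro t
    have h1 := h (univ.filter (fun i => t < a i)) (univ.filter (fun c => - b c < t))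
    have e1 : ∑ i ∈ univ.filter (fun i => t < a i), r i = ∑ i, r i * (if t < a i then (1 : ℝ) else 0) := by
      rw [Finset.sum_filter]
      refine Finset.sum_congr rfl ?_
      intro i _
      split_ifs <;> simp
    have e2 : ∑ c ∈ (univ.filter (fun c => - b c < t))ᶜ, s c = ∑ c, s c * (1 - (if - b c < t then (1 : ℝ) else 0)) := by
      have : (univ.filter (fun c => - b c < t))ᶜ = univ.filter (fun c => ¬ (- b c < t)) := by
        ext c; simp
      rw [this, Finset.sum_filter]
      refine Finset.sum_congr rfl ?_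
      intro i _
      split_ifs <;> simp_all
    have e3 : ((A ∩ ((univ.filter (fun i => t < a i)) ×ˢ (univ.filter (fun c => - b c < t)))).card : ℝ) =
        ∑ e ∈ A, (if - b e.2 < t ∧ t < a e.1 then (1 : ℝ) else 0) := by
      rw [Finset.sum_boole]
      congr 2
      ext e
      simp only [Finset.mem_inter, Finset.mem_product, Finset.mem_filter, Finset.mem_univ, true_and]
      tauto
    rw [e1, e2, e3] at h1
    exact h1
  have hint := intervalIntegral.integral_mono_on (a := -L) (b := L) (μ := MeasureTheory.volume)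
    (f := fun t : ℝ => ∑ i, r i * (if t < a i then (1 : ℝ) else 0) - ∑ c, s c * (1 - (if - b c < t then (1 : ℝ) else 0)))
    (g := fun t : ℝ => κ * ∑ e ∈ A, (if - b e.2 < t ∧ t < a e.1 then (1 : ℝ) else 0))
    (by linarith)
    (by
      refine IntervalIntegrable.sub ?_ ?_
      · refine intervalIntegrable_sum' _ _ _ _ ?_
        intro i _
        exact (integrable_lt (a i) L).const_mul (r i)
      · refine intervalIntegrable_sum' _ _ _ _ ?_
        intro c _
        exact ((intervalIntegrable_const).sub (integrable_gt (- b c) L)).const_mul (s c))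
    (by
      refine IntervalIntegrable.const_mul ?_ κ
      refine intervalIntegrable_sum' _ _ _ _ ?_
      intro e _
      exact integrable_step (- b e.2) (a e.1) L)
    (fun t _ => hpt t)
  have hl : ∫ t in (-L)..L, (∑ i, r i * (if t < a i then (1 : ℝ) else 0) -
      ∑ c, s c * (1 - (if - b c < t then (1 : ℝ) else 0))) = ∑ i, a i * r i + ∑ c, b c * s c := by
    rw [intervalIntegral.integral_sub, intervalIntegral.integral_finsetSum, intervalIntegral.integral_finsetSum]
    · have e1 : ∀ i, ∫ t in (-L)..L, r i * (if t < a i then (1 : ℝ) else 0) = r i * (a i + L) := by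
        intro i
        rw [intervalIntegral.integral_const_mul, integral_lt (a i) L hL0 (hla i).1 (hla i).2]
      have e2 : ∀ c, ∫ t in (-L)..L, s c * (1 - (if - b c < t then (1 : ℝ) else 0)) = s c * (L - b c) := by
        intro c
        rw [intervalIntegral.integral_const_mul, intervalIntegral.integral_sub intervalIntegrable_const
          (integrable_gt (- b c) L), integral_gt (- b c) L hL0 (hlb c).1 (hlb c).2, intervalIntegral.integral_const,
          smul_eq_mul]
        ring
      simp only [e1, e2]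
      have e3 : ∑ i, r i * (a i + L) = ∑ i, a i * r i + L * ∑ i, r i := by
        rw [Finset.mul_sum, ← Finset.sum_add_distrib]
        refine Finset.sum_congr rfl ?_
        intro i _; ring
      have e4 : ∑ c, s c * (L - b c) = L * ∑ i, s i - ∑ c, b c * s c := by
        rw [Finset.mul_sum, ← Finset.sum_sub_distrib]
        refine Finset.sum_congr rfl ?_
        intro i _; ring
      rw [e3, e4, hrs]
      ring
    · intro c _
      exact ((intervalIntegrable_const).sub (integrable_gt (- b c) L)).const_mul (s c)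
    · intro i _
      exact (integrable_lt (a i) L).const_mul (r i)
    · refine intervalIntegrable_sum' _ _ _ _ ?_
      intro i _
      exact (integrable_lt (a i) L).const_mul (r i)
    · refine intervalIntegrable_sum' _ _ _ _ ?_
      intro c _
      exact ((intervalIntegrable_const).sub (integrable_gt (- b c) L)).const_mul (s c)
  have hr : ∫ t in (-L)..L, (κ * ∑ e ∈ A, (if - b e.2 < t ∧ t < a e.1 then (1 : ℝ) else 0)) =
      κ * ∑ e ∈ A, max 0 (a e.1 + b e.2) := by
    rw [intervalIntegral.integral_const_mul, intervalIntegral.integral_finsetSum]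
    · congr 1
      refine Finset.sum_congr rfl ?_
      intro e _
      rw [integral_step (- b e.2) (a e.1) L hL0 (hlb e.2).1 (hla e.1).2]
      congr 1
      ring
    · intro e _
      exact integrable_step (- b e.2) (a e.1) L
  rw [hl, hr] at hint
  exact hint

/-- The capacitated transport theorem: `0 ≤ Z ≤ κ` on `A`, `Z = 0` off `A`, with row sums `r` and column sums
`s`. -/
theorem transport {ι : Type*} [Fintype ι] [DecidableEq ι] (A : Finset (ι × ι)) (κ : ℝ) (hκ : 0 ≤ κ) (r s : ι → ℝ)
    (hrs : ∑ i, r i = ∑ i, s i)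
    (h : ∀ R C : Finset ι, ∑ i ∈ R, r i - ∑ c ∈ Cᶜ, s c ≤ κ * (A ∩ (R ×ˢ C)).card) :
    ∃ Z : ι × ι → ℝ, (∀ e, 0 ≤ Z e) ∧ (∀ e ∈ A, Z e ≤ κ) ∧ (∀ e ∉ A, Z e = 0) ∧
      (∀ i, ∑ c, Z (i, c) = r i) ∧ (∀ c, ∑ i, Z (i, c) = s c) := by
  classical
  -- the linear inequalities: `Sum.inl (i, true)` row sum `≤`, `Sum.inl (i, false)` row sum `≥`, etc.
  let M : (ι × Bool) ⊕ (ι × Bool) → ι × ι → ℝ := fun x e =>
    match x with
    | Sum.inl (i, true) => if e.1 = i then 1 else 0
    | Sum.inl (i, false) => if e.1 = i then -1 else 0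
    | Sum.inr (c, true) => if e.2 = c then 1 else 0
    | Sum.inr (c, false) => if e.2 = c then -1 else 0
  let b : (ι × Bool) ⊕ (ι × Bool) → ℝ := fun x =>
    match x with
    | Sum.inl (i, true) => r i
    | Sum.inl (i, false) => - r i
    | Sum.inr (c, true) => s c
    | Sum.inr (c, false) => - s c
  obtain ⟨Z, hZ0, hZκ, hZ⟩ := box_farkas M b (fun e => if e ∈ A then κ else 0)
    (fun e => by split_ifs <;> simp [hκ]) (by
      intro ω hω
      set a' : ι → ℝ := fun i => ω (Sum.inl (i, false)) - ω (Sum.inl (i, true)) with ha'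
      set b' : ι → ℝ := fun c => ω (Sum.inr (c, false)) - ω (Sum.inr (c, true)) with hb'
      have h1 : ∀ e : ι × ι, ∑ x, ω x * M x e = - (a' e.1 + b' e.2) := by
        intro e
        rw [Fintype.sum_sum_type, Fintype.sum_prod_type, Fintype.sum_prod_type]
        simp only [Fintype.sum_bool, M, mul_ite, mul_one, mul_neg, mul_zero]
        rw [Finset.sum_add_distrib, Finset.sum_add_distrib]
        simp only [Finset.sum_ite_eq, Finset.mem_univ, if_true, ha', hb']
        ring
      have h2 : ∑ x, ω x * b x = - (∑ i, a' i * r i + ∑ c, b' c * s c) := by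
        rw [Fintype.sum_sum_type, Fintype.sum_prod_type, Fintype.sum_prod_type]
        simp only [Fintype.sum_bool, b]
        rw [neg_add, ← Finset.sum_neg_distrib, ← Finset.sum_neg_distrib]
        congr 1
        · refine Finset.sum_congr rfl ?_
          intro i _
          simp only [ha']
          ring
        · refine Finset.sum_congr rfl ?_
          intro i _
          simp only [hb']
          ring
      have h3 := transport_dual A κ r s hrs h a' b'
      rw [h2]
      have h4 : ∑ e : ι × ι, (if e ∈ A then κ else 0) * min 0 (∑ x, ω x * M x e) =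
          - (κ * ∑ e ∈ A, max 0 (a' e.1 + b' e.2)) := by
        rw [Finset.mul_sum, ← Finset.sum_neg_distrib]
        rw [← Finset.sum_subset (Finset.subset_univ A)]
        · refine Finset.sum_congr rfl ?_
          intro e he
          rw [if_pos he, h1 e]
          have : min 0 (-(a' e.1 + b' e.2)) = - max 0 (a' e.1 + b' e.2) := by
            rw [← neg_zero, min_neg_neg, neg_zero]
          rw [this]
          ring
        · intro e _ he
          rw [if_neg he, zero_mul]
      rw [h4]
      linarith)
  have hrow : ∀ i, ∑ e : ι × ι, (if e.1 = i then (1 : ℝ) else 0) * Z e = ∑ c, Z (i, c) := by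
    intro i
    rw [Fintype.sum_prod_type]
    rw [Finset.sum_eq_single i]
    · simp
    · intro j _ hj
      simp [hj]
    · intro hi
      exact absurd (Finset.mem_univ _) hi
  have hcol : ∀ c, ∑ e : ι × ι, (if e.2 = c then (1 : ℝ) else 0) * Z e = ∑ i, Z (i, c) := by
    intro c
    rw [Fintype.sum_prod_type]
    refine Finset.sum_congr rfl ?_
    intro i _
    rw [Finset.sum_eq_single c]
    · simp
    · intro j _ hj
      simp [hj]
    · intro hi
      exact absurd (Finset.mem_univ _) hi
  refine ⟨Z, hZ0, ?_, ?_, ?_, ?_⟩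
  · intro e he
    have := hZκ e
    simpa [he] using this
  · intro e he
    have := hZκ e
    simp only [he, if_false] at this
    exact le_antisymm this (hZ0 e)
  · intro i
    have h1 := hZ (Sum.inl (i, true))
    have h2 := hZ (Sum.inl (i, false))
    simp only [M, b] at h1 h2
    rw [hrow] at h1
    have h3 : ∑ e : ι × ι, (if e.1 = i then (-1 : ℝ) else 0) * Z e = - ∑ c, Z (i, c) := by
      rw [← hrow, ← Finset.sum_neg_distrib]
      refine Finset.sum_congr rfl ?_
      intro e _
      split_ifs <;> simp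
    rw [h3] at h2
    linarith
  · intro c
    have h1 := hZ (Sum.inr (c, true))
    have h2 := hZ (Sum.inr (c, false))
    simp only [M, b] at h1 h2
    rw [hcol] at h1
    have h3 : ∑ e : ι × ι, (if e.2 = c then (-1 : ℝ) else 0) * Z e = - ∑ i, Z (i, c) := by
      rw [← hcol, ← Finset.sum_neg_distrib]
      refine Finset.sum_congr rfl ?_
      intro e _
      split_ifs <;> simp
    rw [h3] at h2
    linarith

end Pool.Agent.MP_dc7d7b
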