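import Pool.Agent.Lib.MP_dc7d7b_co.Greedy

set_option autoImplicit false

/-!
# The greedy procedure: the main induction
-/

namespace Pool.Agent.MP_dc7d7b

open Finset

/-- The moment bound in the form needed for the potentials. -/
theorem moment_budget {V : Type*} {k : ℕ} (hk : 0 < k) (c : V → ℕ) (q : ℕ → ℕ) (hqm : Monotone q)
    (M lam α ξ δ : ℝ) (e₁ : ℕ → ℝ) (hM : 0 < M) (hlam : 0 < lam) (hlam1 : lam ≤ 1) (hα : 0 < α)
    (hξ : k / (1 + α) + α * Real.exp 1 * M ≤ ξ * k)
    (X : Fin k → Fin k → ℝ) (h0 : ∀ i j, 0 ≤ X i j) (hr : ∀ i, ∑ j, X i j = 1) (hcol : ∀ j, ∑ i, X i j = 1)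
    (hXM : ∀ i j, X i j ≤ M / k) (u w : V) (hcuw : c w ≤ c u)
    (hXb : ∀ (a b : Fin k → Fin (q (c u))) (B : Finset (Fin (q (c u)) × Fin (q (c u)))),
      ∑ e ∈ blk a b B, X e.1 e.2 ≤ (blk a b B).card / k + δ * k)
    (he₁ : c w < c u → δ + lam + ξ / lam ≤ e₁ (c w)) (ρ : Equiv.Perm (Fin k)) (t : Ty k (q (c w + 1))) :
    ∑ σ : Equiv.Perm (Fin k), (∏ i, X i (σ i)) * Real.exp (lam * hit ρ σ (tyset t)) ≤
      (∑ σ : Equiv.Perm (Fin k), ∏ i, X i (σ i)) *
        Real.exp (lam * budget k c M (ξ / lam) e₁ u w (tyset t).card) := by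
  have hk' : (0 : ℝ) < k := by exact_mod_cast hk
  refine (moment_hit hk X h0 hr hcol M hM hXM α hα lam hlam.le hlam1 ρ (tyset t)).trans ?_
  refine mul_le_mul_of_nonneg_left ?_ (Finset.sum_nonneg (fun σ _ => Finset.prod_nonneg (fun i _ => h0 _ _)))
  rw [Real.exp_le_exp]
  have hexp : Real.exp lam - 1 ≤ lam + lam ^ 2 := exp_sub_one_le hlam.le hlam1
  have hXW0 : 0 ≤ ∑ e ∈ tyset t, X e.1 (ρ.symm e.2) := Finset.sum_nonneg (fun e _ => h0 _ _)
  unfold budget
  split_ifs with hcc
  · have h1 : ∑ e ∈ tyset t, X e.1 (ρ.symm e.2) ≤ (tyset t).card * (M / k) := by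
      calc ∑ e ∈ tyset t, X e.1 (ρ.symm e.2) ≤ ∑ _e ∈ tyset t, M / k := Finset.sum_le_sum (fun e _ => hXM _ _)
        _ = _ := by rw [Finset.sum_const, nsmul_eq_mul]
    have h2 : Real.exp lam - 1 ≤ 2 * lam := by nlinarith
    have h3 : (Real.exp lam - 1) * ∑ e ∈ tyset t, X e.1 (ρ.symm e.2) ≤ 2 * lam * ((tyset t).card * (M / k)) :=
      mul_le_mul h2 h1 hXW0 (by positivity)
    have h4 : lam * (2 * M * ((tyset t).card : ℝ) / k + ξ / lam * k) =
        2 * lam * ((tyset t).card * (M / k)) + ξ * k := by
      field_simp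
    rw [h4]
    linarith
  · have hlt : c w < c u := lt_of_le_of_ne hcuw (fun h => hcc h.symm)
    have h1 : ∑ e ∈ tyset t, X e.1 (ρ.symm e.2) =
        ∑ e ∈ blk t.1.1 (fun j => t.1.2 (ρ j)) t.2, X e.1 e.2 := by
      unfold tyset
      exact sum_blk_comp X _ _ _ ρ
    have hqq : q (c w + 1) ≤ q (c u) := hqm hlt
    obtain ⟨a', b', B', hB'⟩ := blk_mono hqq t.1.1 (fun j => t.1.2 (ρ j)) t.2
    have h2 : ∑ e ∈ tyset t, X e.1 (ρ.symm e.2) ≤ (tyset t).card / k + δ * k := by
      rw [h1, hB']
      refine (hXb a' b' B').trans (le_of_eq ?_)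
      rw [← hB', card_blk_comp]
      rfl
    have h3 : ∑ e ∈ tyset t, X e.1 (ρ.symm e.2) ≤ k := by
      rw [h1]
      exact sum_le_of_stoch X h0 hr _
    have h4 := he₁ hlt
    have h5 : (Real.exp lam - 1) * ∑ e ∈ tyset t, X e.1 (ρ.symm e.2) ≤
        (lam + lam ^ 2) * ∑ e ∈ tyset t, X e.1 (ρ.symm e.2) := mul_le_mul_of_nonneg_right hexp hXW0
    have h6 : (lam + lam ^ 2) * ∑ e ∈ tyset t, X e.1 (ρ.symm e.2) ≤
        lam * ((tyset t).card / k + δ * k) + lam ^ 2 * k := by
      have h7 := mul_le_mul_of_nonneg_left h2 hlam.le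
      have h8 := mul_le_mul_of_nonneg_left h3 (sq_nonneg lam)
      linarith
    have h7 : lam * ((tyset t).card / k + (δ + lam + ξ / lam) * k) =
        lam * ((tyset t).card / k + δ * k) + lam ^ 2 * k + ξ * k := by
      field_simp
      ring
    have h8 : lam * (((tyset t).card : ℝ) / k + (δ + lam + ξ / lam) * k) ≤
        lam * (((tyset t).card : ℝ) / k + e₁ (c w) * k) := by
      refine mul_le_mul_of_nonneg_left ?_ hlam.le
      have := mul_le_mul_of_nonneg_right h4 hk'.le
      linarith
    linarith

/-- The greedy procedure. -/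
theorem greedy {V : Type*} [Fintype V] [DecidableEq V] {k : ℕ} (hk : 0 < k) (G : SimpleGraph V) [DecidableRel G.Adj]
    (H : SimpleGraph (V × Fin k)) (hH : Cover G H) (m Δ : ℕ) (hm : 0 < m) (hΔ : 1 ≤ Δ)
    (q : ℕ → ℕ) (hq : ∀ n, 0 < q n) (hqm : Monotone q) (c : V → ℕ) (hc : ∀ v, c v < m)
    (hdeg : ∀ v, (univ.filter (fun w => G.Adj v w)).card ≤ Δ)
    (hsame : ∀ v, m * (univ.filter (fun w => G.Adj v w ∧ c w = c v)).card ≤ Δ)
    (M lam α ξ η ζ : ℝ) (dd δU e₁ : ℕ → ℝ) (hM : 0 < M) (hlam : 0 < lam) (hlam1 : lam ≤ 1) (hα : 0 < α)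
    (hξ0 : 0 ≤ ξ) (he₁0 : ∀ n, 0 ≤ e₁ n)
    (hξ : k / (1 + α) + α * Real.exp 1 * M ≤ ξ * k)
    (hstoch : ∀ n < m, ∀ A : Finset (Fin k × Fin k), GoodSet (q (n + 1)) η (dd n) A →
      (∀ i, ζ * k ≤ ((univ.filter (fun c => (i, c) ∈ A)).card : ℝ)) →
      (∀ c, ζ * k ≤ ((univ.filter (fun i => (i, c) ∈ A)).card : ℝ)) →
      ∃ X : Fin k → Fin k → ℝ, (∀ i c, 0 ≤ X i c) ∧ (∀ i, ∑ c, X i c = 1) ∧ (∀ c, ∑ i, X i c = 1) ∧
        (∀ i c, (i, c) ∉ A → X i c = 0) ∧ (∀ i c, X i c ≤ M / k) ∧
        ∀ (a b : Fin k → Fin (q n)) (B : Finset (Fin (q n) × Fin (q n))),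
          ∑ e ∈ blk a b B, X e.1 e.2 ≤ (blk a b B).card / k + δU n * k)
    (hζ : ζ * k + Δ ≤ k) (hη : η * k + (2 * M / m + 1) * Δ ≤ k)
    (he₁ : ∀ n n', n' < n → n < m → δU n + lam + ξ / lam ≤ e₁ n')
    (hdd : ∀ n < m, Δ * ((e₁ n + ξ / lam) * k) +
      Real.log ((Δ : ℝ) ^ Δ * Fintype.card (Ty k (q (n + 1)))) / lam ≤ dd n * (k : ℝ) ^ 2) :
    ∃ f : V → Equiv.Perm (Fin k), ∀ i u v, ¬ H.Adj (u, f u i) (v, f v i) := by
  have hk' : (0 : ℝ) < k := by exact_mod_cast hk
  have hm' : (0 : ℝ) < m := by exact_mod_cast hm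
  have hΔ' : (1 : ℝ) ≤ Δ := by exact_mod_cast hΔ
  -- matchings extended to permutations
  have hπ : ∀ u w : V, ∃ π : Equiv.Perm (Fin k), ∀ a b, H.Adj (u, a) (w, b) → π a = b := by
    intro u w
    exact exists_extend (fun a b => H.Adj (u, a) (w, b))
        (fun a b b' h h' => hH.mat _ _ _ _ _ h h')
        (fun a a' b h h' => hH.mat _ _ _ _ _ h.symm h'.symm)
  choose π hπ using hπ
  set bud : V → V → ℕ → ℝ := budget k c M (ξ / lam) e₁ with hbud
  set p : V → ℕ := fun w => q (c w + 1) with hp
  have key : ∀ n : ℕ, n ≤ Fintype.card V → ∃ (S : Finset V) (f : V → Equiv.Perm (Fin k)), S.card = n ∧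
      (∀ x ∈ S, ∀ y ∉ S, c y ≤ c x) ∧ (∀ i, ∀ x ∈ S, ∀ y ∈ S, ¬ H.Adj (x, f x i) (y, f y i)) ∧
      (∀ w ∉ S, pot G p π bud lam w S f ≤
        (Δ : ℝ) ^ ((S.filter (fun u => G.Adj w u)).card) * Fintype.card (Ty k (p w))) := by
    intro n
    induction n with
    | zero =>
      intro _
      refine ⟨∅, fun _ => 1, by simp, by simp, by simp, ?_⟩
      intro w _
      unfold pot
      simp
    | succ n ih =>
      intro hn
      obtain ⟨S, f, hSn, hord, hprop, hpot⟩ := ih (by omega)
      -- the next vertex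
      have hne : (Sᶜ).Nonempty := by
        rw [← Finset.card_pos, Finset.card_compl]
        omega
      obtain ⟨u, hu, humax⟩ := Finset.exists_max_image Sᶜ c hne
      rw [Finset.mem_compl] at hu
      have humax' : ∀ y, y ∉ S → c y ≤ c u := fun y hy => humax y (Finset.mem_compl.mpr hy)
      -- available cells
      set A : Finset (Fin k × Fin k) := univ.filter (fun e => ∀ x ∈ S, G.Adj u x → π x u (f x e.1) ≠ e.2) with hA
      set N := S.filter (fun x => G.Adj u x) with hN
      have hNΔ : N.card ≤ Δ := by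
        refine le_trans (Finset.card_le_card ?_) (hdeg u)
        intro x hx
        rw [hN, Finset.mem_filter] at hx
        exact Finset.mem_filter.mpr ⟨Finset.mem_univ _, hx.2⟩
      have hNΔ' : (N.card : ℝ) ≤ Δ := by exact_mod_cast hNΔ
      have hNsame : (m : ℝ) * (N.filter (fun x => c x = c u)).card ≤ Δ := by
        have h1 : m * (N.filter (fun x => c x = c u)).card ≤ Δ := by
          refine le_trans (Nat.mul_le_mul_left _ (Finset.card_le_card ?_)) (hsame u)
          intro x hx
          rw [Finset.mem_filter, hN, Finset.mem_filter] at hx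
          exact Finset.mem_filter.mpr ⟨Finset.mem_univ _, hx.1.2, hx.2⟩
        exact_mod_cast h1
      have hTypos : (0 : ℝ) < Fintype.card (Ty k (p u)) := by
        have : NeZero (p u) := ⟨(hq _).ne'⟩
        have : 0 < Fintype.card (Ty k (p u)) := Fintype.card_pos_iff.mpr ⟨((fun _ => 0, fun _ => 0), ∅)⟩
        exact_mod_cast this
      have hCpos : 0 < (Δ : ℝ) ^ Δ * Fintype.card (Ty k (p u)) := by positivity
      have hpotu : pot G p π bud lam u S f ≤ (Δ : ℝ) ^ Δ * Fintype.card (Ty k (p u)) := by
        refine (hpot u hu).trans ?_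
        refine mul_le_mul_of_nonneg_right ?_ hTypos.le
        exact pow_le_pow_right₀ hΔ' hNΔ
      have hgood : GoodSet (q (c u + 1)) η (dd (c u)) A := by
        intro a b B
        have h1 := avail_of_pot G p π bud lam u S f hlam _ hCpos hpotu A (by
          intro e he
          rw [hA, Finset.mem_filter]
          exact ⟨Finset.mem_univ _, he⟩) ((a, b), B)
        have h2 : tyset ((((a, b), B) : Ty k (p u))) = blk a b B := rfl
        rw [h2] at h1
        set W := (blk a b B).card with hW
        have h3 := budget_sum k c M (ξ / lam) e₁ u W N (by positivity) (he₁0 _)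
        have h4 := hdd (c u) (hc u)
        have hW0 : (0 : ℝ) ≤ W := by positivity
        have h5 : ((N.filter (fun x => c x = c u)).card : ℝ) * (2 * M * W / k) ≤ Δ / m * (2 * M * W / k) := by
          refine mul_le_mul_of_nonneg_right ?_ (by positivity)
          rw [le_div_iff₀ hm']
          linarith
        have h6 : (N.card : ℝ) * (W / k) ≤ Δ * (W / k) := mul_le_mul_of_nonneg_right hNΔ' (by positivity)
        have h7 : (N.card : ℝ) * ((e₁ (c u) + ξ / lam) * k) ≤ Δ * ((e₁ (c u) + ξ / lam) * k) := by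
          refine mul_le_mul_of_nonneg_right hNΔ' ?_
          have := he₁0 (c u)
          positivity
        have h8 : η * W ≤ W - (Δ / m * (2 * M * W / k) + Δ * (W / k)) := by
          have h9 : Δ / m * (2 * M * W / k) + Δ * (W / k) = ((2 * M / m + 1) * Δ) / k * W := by
            field_simp
          have h10 : ((2 * M / m + 1) * Δ) / k ≤ 1 - η := by
            rw [div_le_iff₀ hk']
            linarith
          rw [h9]
          have h11 := mul_le_mul_of_nonneg_right h10 hW0
          linarith
        have h9 : (∑ x ∈ S.filter (fun x => G.Adj u x), bud x u W) = ∑ x ∈ N, budget k c M (ξ / lam) e₁ x u W := rfl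
        rw [h9] at h1
        linarith
      have hrow : ∀ i, ζ * k ≤ ((univ.filter (fun c => (i, c) ∈ A)).card : ℝ) := by
        intro i
        have h1 : (univ : Finset (Fin k)) ⊆ univ.filter (fun c => (i, c) ∈ A) ∪ N.image (fun x => π x u (f x i)) := by
          intro j _
          rw [Finset.mem_union, Finset.mem_filter, Finset.mem_image]
          by_cases hj : (i, j) ∈ A
          · exact Or.inl ⟨Finset.mem_univ _, hj⟩
          · right
            rw [hA, Finset.mem_filter] at hj
            push Not at hj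
            obtain ⟨x, hx, hux, h⟩ := hj (Finset.mem_univ _)
            exact ⟨x, Finset.mem_filter.mpr ⟨hx, hux⟩, h⟩
        have h2 := (Finset.card_le_card h1).trans (Finset.card_union_le _ _)
        have h3 : (N.image (fun x => π x u (f x i))).card ≤ Δ := Finset.card_image_le.trans hNΔ
        rw [Finset.card_univ, Fintype.card_fin] at h2
        have h4 : (k : ℝ) ≤ (univ.filter (fun c => (i, c) ∈ A)).card + Δ := by
          exact_mod_cast h2.trans (Nat.add_le_add_left h3 _)
        linarith
      have hcolA : ∀ j, ζ * k ≤ ((univ.filter (fun i => (i, j) ∈ A)).card : ℝ) := by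
        intro j
        have h1 : (univ : Finset (Fin k)) ⊆ univ.filter (fun i => (i, j) ∈ A) ∪
            N.image (fun x => (f x).symm ((π x u).symm j)) := by
          intro i _
          rw [Finset.mem_union, Finset.mem_filter, Finset.mem_image]
          by_cases hj : (i, j) ∈ A
          · exact Or.inl ⟨Finset.mem_univ _, hj⟩
          · right
            rw [hA, Finset.mem_filter] at hj
            push Not at hj
            obtain ⟨x, hx, hux, h⟩ := hj (Finset.mem_univ _)
            refine ⟨x, Finset.mem_filter.mpr ⟨hx, hux⟩, ?_⟩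
            simp only at h
            rw [← h]
            simp
        have h2 := (Finset.card_le_card h1).trans (Finset.card_union_le _ _)
        have h3 : (N.image (fun x => (f x).symm ((π x u).symm j))).card ≤ Δ := Finset.card_image_le.trans hNΔ
        rw [Finset.card_univ, Fintype.card_fin] at h2
        have h4 : (k : ℝ) ≤ (univ.filter (fun i => (i, j) ∈ A)).card + Δ := by
          exact_mod_cast h2.trans (Nat.add_le_add_left h3 _)
        linarith
      obtain ⟨X, hX0, hXr, hXc, hXA, hXM, hXb⟩ := hstoch (c u) (hc u) A hgood hrow hcolA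
      -- the next permutation
      set P : Equiv.Perm (Fin k) → ℝ := fun σ => ∏ i, X i (σ i) with hP
      have hP0 : ∀ σ, 0 ≤ P σ := fun σ => Finset.prod_nonneg (fun i _ => hX0 _ _)
      have hZ : 0 < ∑ σ, P σ := lt_of_lt_of_le (Real.exp_pos _) (perm_lower X hX0 hXr hXc)
      set Nb : Finset V := univ.filter (fun w => w ∉ S ∧ G.Adj w u) with hNb
      have hNbΔ : Nb.card ≤ Δ := by
        refine le_trans (Finset.card_le_card ?_) (hdeg u)
        intro x hx
        rw [hNb, Finset.mem_filter] at hx
        exact Finset.mem_filter.mpr ⟨Finset.mem_univ _, hx.2.2.symm⟩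
      obtain ⟨σ, hσP, hσ⟩ := pick P hP0 hZ Nb
        (fun w σ => pot G p π bud lam w (insert u S) (Function.update f u σ) / pot G p π bud lam w S f)
        (fun w σ => div_nonneg (pot_nonneg G p π bud lam w _ _) (pot_nonneg G p π bud lam w _ _)) (by
          intro w hw
          rw [hNb, Finset.mem_filter] at hw
          have hpp := pot_pos G p π bud lam w (hq _) S f
          have h1 := pot_expect G p π bud lam hw.2.2 S hu f P (by
            intro t
            exact moment_budget hk c q hqm M lam α ξ (δU (c u)) e₁ hM hlam hlam1 hα hξ X hX0 hXr hXc hXM u w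
              (humax' w hw.2.1) hXb (fun h => he₁ _ _ h (hc u)) (π u w) t)
          have h2 : ∑ σ, P σ * (pot G p π bud lam w (insert u S) (Function.update f u σ) /
              pot G p π bud lam w S f) = (∑ σ, P σ * pot G p π bud lam w (insert u S) (Function.update f u σ)) /
              pot G p π bud lam w S f := by
            rw [Finset.sum_div]
            refine Finset.sum_congr rfl ?_
            intro σ _
            ring
          rw [h2, div_le_iff₀ hpp]
          exact h1)
      have hσA : ∀ i, (i, σ i) ∈ A := by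
        intro i
        by_contra h
        have h1 : P σ = 0 := Finset.prod_eq_zero (Finset.mem_univ i) (hXA _ _ h)
        linarith
      refine ⟨insert u S, Function.update f u σ, ?_, ?_, ?_, ?_⟩
      · rw [Finset.card_insert_of_notMem hu, hSn]
      · intro x hx y hy
        rw [Finset.mem_insert] at hx hy
        push Not at hy
        rcases hx with rfl | hx
        · exact humax' y hy.2
        · exact hord x hx y hy.2
      · -- proper
        have hnew : ∀ i, ∀ y ∈ S, ¬ H.Adj (y, f y i) (u, σ i) := by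
          intro i y hy hadj
          have h1 := hσA i
          rw [hA, Finset.mem_filter] at h1
          exact h1.2 y hy (hH.edge _ _ _ _ hadj).symm (hπ y u _ _ hadj)
        intro i x hx y hy hadj
        rw [Finset.mem_insert] at hx hy
        by_cases hxu : x = u
        · by_cases hyu : y = u
          · subst hxu; subst hyu
            exact hH.fib _ _ _ hadj
          · subst hxu
            rw [Function.update_self, Function.update_of_ne hyu] at hadj
            exact hnew i y (hy.resolve_left hyu) hadj.symm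
        · by_cases hyu : y = u
          · subst hyu
            rw [Function.update_self, Function.update_of_ne hxu] at hadj
            exact hnew i x (hx.resolve_left hxu) hadj
          · rw [Function.update_of_ne hxu, Function.update_of_ne hyu] at hadj
            exact hprop i x (hx.resolve_left hxu) y (hy.resolve_left hyu) hadj
      · intro w hw
        rw [Finset.mem_insert] at hw
        push Not at hw
        by_cases hwu : G.Adj w u
        · have hwNb : w ∈ Nb := by
            rw [hNb, Finset.mem_filter]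
            exact ⟨Finset.mem_univ _, hw.2, hwu⟩
          have h1 := hσ w hwNb
          have hpp := pot_pos G p π bud lam w (hq _) S f
          rw [div_le_iff₀ hpp] at h1
          have h2 := hpot w hw.2
          have h3 : (Nb.card : ℝ) ≤ Δ := by exact_mod_cast hNbΔ
          rw [Finset.filter_insert, if_pos hwu, Finset.card_insert_of_notMem
            (fun h => hu (Finset.mem_filter.mp h).1), pow_succ]
          calc _ ≤ (Nb.card : ℝ) * pot G p π bud lam w S f := h1
            _ ≤ Δ * ((Δ : ℝ) ^ ((S.filter (fun u => G.Adj w u)).card) * Fintype.card (Ty k (p w))) :=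
                mul_le_mul h3 h2 hpp.le (by positivity)
            _ = _ := by ring
        · rw [pot_insert_not_adj G p π bud lam hwu S hu f σ, Finset.filter_insert, if_neg hwu]
          exact hpot w hw.2
  obtain ⟨S, f, hSn, _, hprop, _⟩ := key (Fintype.card V) le_rfl
  have hS : S = univ := Finset.eq_univ_of_card S hSn
  subst hS
  exact ⟨f, fun i u v => hprop i u (Finset.mem_univ _) v (Finset.mem_univ _)⟩

end Pool.Agent.MP_dc7d7b
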