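import Mathlib

set_option autoImplicit false

/-!
# Partition into classes with few neighbours inside a class
-/

namespace Pool.Agent.MP_dc7d7b

open Finset

/-- The vertices of a graph can be coloured with `m` colours such that every vertex `v` has at most `deg v / m`
neighbours of its own colour. -/
theorem lovasz {V : Type*} [Fintype V] [DecidableEq V] (G : SimpleGraph V) [DecidableRel G.Adj] (m : ℕ) (hm : 0 < m) :
    ∃ c : V → Fin m, ∀ v, m * (univ.filter (fun w => G.Adj v w ∧ c w = c v)).card ≤
      (univ.filter (fun w => G.Adj v w)).card := by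
  classical
  have : NeZero m := ⟨hm.ne'⟩
  set E : (V → Fin m) → ℕ := fun c => ∑ x, ∑ y, if G.Adj x y ∧ c x = c y then 1 else 0 with hE
  obtain ⟨c, _, hc⟩ := Finset.exists_min_image (univ : Finset (V → Fin m)) E ⟨fun _ => 0, Finset.mem_univ _⟩
  refine ⟨c, ?_⟩
  intro v
  by_contra hcon
  push Not at hcon
  -- number of neighbours of colour j
  set cnt : Fin m → ℕ := fun j => (univ.filter (fun w => G.Adj v w ∧ c w = j)).card with hcnt
  have hsum : ∑ j, cnt j = (univ.filter (fun w => G.Adj v w)).card := by
    rw [Finset.card_eq_sum_card_fiberwise (f := c) (t := univ) (fun _ _ => Finset.mem_coe.mpr (Finset.mem_univ _))]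
    refine Finset.sum_congr rfl ?_
    intro j _
    rw [hcnt]
    simp only [Finset.filter_filter]
  obtain ⟨j, hj⟩ : ∃ j, cnt j < cnt (c v) := by
    by_contra h
    push Not at h
    have h1 : ∑ _j : Fin m, cnt (c v) ≤ ∑ j, cnt j := Finset.sum_le_sum (fun j _ => h j)
    rw [hsum, Finset.sum_const, Finset.card_univ, Fintype.card_fin, smul_eq_mul] at h1
    exact absurd hcon (not_lt.mpr h1)
  -- decomposition of E
  have hdec : ∀ c' : V → Fin m, E c' = 2 * (univ.filter (fun w => G.Adj v w ∧ c' v = c' w)).card +
      ∑ x ∈ univ.erase v, ∑ y ∈ univ.erase v, (if G.Adj x y ∧ c' x = c' y then 1 else 0) := by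
    intro c'
    have h1 : E c' = (∑ y, if G.Adj v y ∧ c' v = c' y then 1 else 0) +
        ∑ x ∈ univ.erase v, ∑ y, (if G.Adj x y ∧ c' x = c' y then 1 else 0) := by
      rw [hE]
      exact (Finset.add_sum_erase _ _ (Finset.mem_univ v)).symm
    have h2 : ∀ x, ∑ y, (if G.Adj x y ∧ c' x = c' y then 1 else 0) =
        (if G.Adj x v ∧ c' x = c' v then 1 else 0) +
          ∑ y ∈ univ.erase v, (if G.Adj x y ∧ c' x = c' y then 1 else 0) := by
      intro x
      exact (Finset.add_sum_erase _ _ (Finset.mem_univ v)).symm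
    have h3 : ∑ x ∈ univ.erase v, (if G.Adj x v ∧ c' x = c' v then 1 else 0) =
        ∑ x, (if G.Adj v x ∧ c' v = c' x then 1 else 0) := by
      rw [← Finset.add_sum_erase _ _ (Finset.mem_univ v)]
      simp only [G.irrefl, false_and, if_false, zero_add]
      refine Finset.sum_congr rfl ?_
      intro x _
      congr 1
      rw [G.adj_comm, @eq_comm _ (c' x)]
    rw [h1, Finset.sum_congr rfl (fun x _ => h2 x), Finset.sum_add_distrib, h3, Finset.sum_boole]
    simp only [Nat.cast_id]
    ring
  set c' : V → Fin m := Function.update c v j with hc'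
  have h1 := hc c' (Finset.mem_univ _)
  rw [hdec c, hdec c'] at h1
  have h2 : ∑ x ∈ univ.erase v, ∑ y ∈ univ.erase v, (if G.Adj x y ∧ c' x = c' y then 1 else 0) =
      ∑ x ∈ univ.erase v, ∑ y ∈ univ.erase v, (if G.Adj x y ∧ c x = c y then 1 else 0) := by
    refine Finset.sum_congr rfl ?_
    intro x hx
    refine Finset.sum_congr rfl ?_
    intro y hy
    rw [hc', Function.update_of_ne (Finset.ne_of_mem_erase hx), Function.update_of_ne (Finset.ne_of_mem_erase hy)]
  have h3 : (univ.filter (fun w => G.Adj v w ∧ c v = c w)).card = cnt (c v) := by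
    rw [hcnt]
    simp only [eq_comm]
  have h4 : (univ.filter (fun w => G.Adj v w ∧ c' v = c' w)).card = cnt j := by
    rw [hcnt]
    simp only
    congr 1
    ext w
    rw [Finset.mem_filter, Finset.mem_filter]
    constructor
    · rintro ⟨h, h5, h6⟩
      refine ⟨h, h5, ?_⟩
      rw [hc', Function.update_self, Function.update_of_ne h5.ne'] at h6
      exact h6.symm
    · rintro ⟨h, h5, h6⟩
      refine ⟨h, h5, ?_⟩
      rw [hc', Function.update_self, Function.update_of_ne h5.ne']
      exact h6.symm
  rw [h2, h3, h4] at h1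
  omega

end Pool.Agent.MP_dc7d7b
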