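import Pool.Agent.Lib.MP_dc7d7b_co.DStoch
import Pool.Agent.Lib.MP_dc7d7b_co.GreedyMain
import Pool.Agent.Lib.MP_dc7d7b_co.Lovasz

set_option autoImplicit false

/-!
# Every `(1 + ε) Δ`-fold correspondence cover of a graph of large maximum degree `Δ` has a packing
-/

namespace Pool.Agent.MP_dc7d7b

open Finset

theorem card_ty_le {k p : ℕ} (hp : 0 < p) : Real.log (Fintype.card (Ty k p)) ≤ 2 * k * p + p ^ 2 := by
  have h1 : Fintype.card (Ty k p) = (p ^ k * p ^ k) * 2 ^ (p * p) := by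
    simp [Ty, Fintype.card_prod]
  have hp' : (0 : ℝ) < p := by exact_mod_cast hp
  rw [h1]
  push_cast
  rw [Real.log_mul (by positivity) (by positivity), Real.log_mul (by positivity) (by positivity), Real.log_pow,
    Real.log_pow]
  have h2 : Real.log p ≤ p := (Real.log_le_sub_one_of_pos hp').trans (by linarith)
  have h3 : Real.log 2 ≤ 1 := by
    have := Real.log_two_lt_d9
    linarith
  have h4 : (k : ℝ) * Real.log p ≤ k * p := mul_le_mul_of_nonneg_left h2 (by positivity)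
  have h5 : ((p * p : ℕ) : ℝ) * Real.log 2 ≤ (p : ℝ) ^ 2 := by
    push_cast
    calc (p : ℝ) * p * Real.log 2 ≤ (p : ℝ) * p * 1 := mul_le_mul_of_nonneg_left h3 (by positivity)
      _ = (p : ℝ) ^ 2 := by ring
  linarith

/-- The case `ε ≤ 1`. -/
theorem asym_aux (ε : ℝ) (hε : 0 < ε) (hε1 : ε ≤ 1) : ∃ D₀ : ℕ, 1 ≤ D₀ ∧ ∀ D : ℕ, D₀ ≤ D →
    ∀ (V : Type) [Fintype V] [DecidableEq V] (G : SimpleGraph V) [DecidableRel G.Adj],
      (∀ v, (univ.filter (fun w => G.Adj v w)).card ≤ D) →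
      ∀ k : ℕ, (1 + ε) * D ≤ k → ∀ H : SimpleGraph (V × Fin k), Cover G H →
        ∃ f : V → Equiv.Perm (Fin k), ∀ i u v, ¬ H.Adj (u, f u i) (v, f v i) := by
  -- parameters
  obtain ⟨η, hη⟩ : ∃ η : ℝ, η = ε / 4 := ⟨_, rfl⟩
  obtain ⟨ζ, hζ⟩ : ∃ ζ : ℝ, ζ = ε / 2 := ⟨_, rfl⟩
  have hη0 : 0 < η := by rw [hη]; positivity
  have hζ0 : 0 < ζ := by rw [hζ]; positivity
  have hη1 : η ≤ 1 := by rw [hη]; linarith
  have hζ1 : ζ ≤ 1 := by rw [hζ]; linarith
  obtain ⟨M, hM⟩ : ∃ M : ℝ, M = 1 / η + 32 / (η * ζ ^ 2) := ⟨_, rfl⟩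
  have hM0 : 0 < M := by rw [hM]; positivity
  obtain ⟨m, hm⟩ : ∃ m : ℕ, 8 * M / ε ≤ m := exists_nat_ge _
  have hm0 : 0 < m := by
    have h1 : 0 < 8 * M / ε := by positivity
    have h2 : (0 : ℝ) < m := lt_of_lt_of_le h1 hm
    exact_mod_cast h2
  have hm' : (0 : ℝ) < m := by exact_mod_cast hm0
  obtain ⟨C, hC⟩ : ∃ C : ℝ, C = 4 + 12 / ζ := ⟨_, rfl⟩
  have hC0 : 0 < C := by rw [hC]; positivity
  obtain ⟨K, hK⟩ : ∃ K : ℝ, K = C * (1 / η + 1) + 4 := ⟨_, rfl⟩
  have hK1 : 1 ≤ K := by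
    rw [hK]
    have : 0 < C * (1 / η + 1) := by positivity
    linarith
  have hK0 : 0 < K := by linarith
  obtain ⟨τ, hτ⟩ : ∃ τ : ℝ, τ = η * ζ ^ 2 / (480 * K ^ m) := ⟨_, rfl⟩
  have hKm : 1 ≤ K ^ m := one_le_pow₀ hK1
  have hτ0 : 0 < τ := by rw [hτ]; positivity
  have hτK : τ * K ^ m = η * ζ ^ 2 / 480 := by
    rw [hτ]
    field_simp
  have hηζ : η * ζ ^ 2 ≤ 1 := by
    have h1 : ζ ^ 2 ≤ 1 := pow_le_one₀ hζ0.le hζ1
    calc η * ζ ^ 2 ≤ 1 * 1 := mul_le_mul hη1 h1 (by positivity) zero_le_one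
      _ = 1 := one_mul 1
  have hτ1 : τ ≤ 1 := by
    have h1 : τ * 1 ≤ τ * K ^ m := mul_le_mul_of_nonneg_left hKm hτ0.le
    rw [hτK] at h1
    linarith
  obtain ⟨T, hT⟩ : ∃ T : ℕ, (2 * (1 / η + 1) / τ) ^ 2 ≤ T := exists_nat_ge _
  have hT0 : 0 < T := by
    have h1 : 0 < (2 * (1 / η + 1) / τ) ^ 2 := by positivity
    have h2 : (0 : ℝ) < T := lt_of_lt_of_le h1 hT
    exact_mod_cast h2
  have hT' : (0 : ℝ) < T := by exact_mod_cast hT0
  have hTτ : 2 * (1 / η + 1) / Real.sqrt T ≤ τ := by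
    have h1 : 2 * (1 / η + 1) / τ ≤ Real.sqrt T := Real.le_sqrt_of_sq_le hT
    have h2 : 0 < Real.sqrt T := Real.sqrt_pos.mpr hT'
    rw [div_le_iff₀ h2]
    rw [div_le_iff₀ hτ0] at h1
    linarith
  obtain ⟨q, hq⟩ : ∃ q : ℕ → ℕ, q = fun n => 2 ^ (T ^ n) := ⟨_, rfl⟩
  have hqs : ∀ n, q (n + 1) = q n ^ T := by
    intro n
    rw [hq]
    simp only
    rw [← pow_mul, pow_succ]
  have hq2 : ∀ n, 2 ≤ q n := by
    intro n
    rw [hq]
    simp only
    calc 2 = 2 ^ 1 := by norm_num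
      _ ≤ 2 ^ (T ^ n) := Nat.pow_le_pow_right (by norm_num) (Nat.one_le_pow _ _ hT0)
  have hqm : Monotone q := by
    refine monotone_nat_of_le_succ ?_
    intro n
    rw [hqs]
    exact Nat.le_self_pow hT0.ne' _
  obtain ⟨Q, hQ⟩ : ∃ Q : ℕ, Q = q m := ⟨_, rfl⟩
  -- the threshold
  obtain ⟨D₀, hD₀⟩ : ∃ D₀ : ℕ, ((1 + Real.exp 1 * M + (2 + 2 * Q + (Q : ℝ) ^ 2)) / τ ^ 2) ^ 2 ≤ D₀ := exists_nat_ge _
  refine ⟨D₀ + 1, Nat.le_add_left 1 D₀, ?_⟩
  intro D hD V _ _ G _ hdeg k hkD H hH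
  have hD0 : 1 ≤ D := by omega
  have hD' : (1 : ℝ) ≤ D := by exact_mod_cast hD0
  have hDk : (D : ℝ) ≤ k := by
    have : 0 ≤ ε * D := by positivity
    linarith
  have hk1 : (1 : ℝ) ≤ k := by linarith
  have hk' : (0 : ℝ) < k := by linarith
  have hk0 : 0 < k := by exact_mod_cast hk'
  have hsk : 0 < Real.sqrt k := Real.sqrt_pos.mpr hk'
  have hsk1 : 1 ≤ Real.sqrt k := by
    rw [Real.one_le_sqrt]
    exact hk1
  have hsk2 : Real.sqrt k * Real.sqrt k = k := Real.mul_self_sqrt hk'.le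
  have hthr : (1 + Real.exp 1 * M + (2 + 2 * Q + (Q : ℝ) ^ 2)) / τ ^ 2 ≤ Real.sqrt k := by
    refine Real.le_sqrt_of_sq_le (hD₀.trans ?_)
    have h1 : (D₀ : ℝ) ≤ D := by
      have : D₀ ≤ D := by omega
      exact_mod_cast this
    linarith
  have hthr1 : (1 + Real.exp 1 * M) / Real.sqrt k ≤ τ ^ 2 := by
    rw [div_le_iff₀ (by positivity)] at hthr
    rw [div_le_iff₀ hsk]
    have : (0 : ℝ) ≤ 2 + 2 * Q + (Q : ℝ) ^ 2 := by positivity
    linarith
  have hthr2 : (2 + 2 * Q + (Q : ℝ) ^ 2) / Real.sqrt k ≤ τ ^ 2 := by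
    rw [div_le_iff₀ (by positivity)] at hthr
    rw [div_le_iff₀ hsk]
    have : (0 : ℝ) ≤ 1 + Real.exp 1 * M := by positivity
    linarith
  obtain ⟨ξ, hξ⟩ : ∃ ξ : ℝ, ξ = (1 + Real.exp 1 * M) / Real.sqrt k := ⟨_, rfl⟩
  have hξ0 : 0 ≤ ξ := by rw [hξ]; positivity
  have hξτ : ξ / τ ≤ τ := by
    rw [div_le_iff₀ hτ0, hξ]
    calc _ ≤ τ ^ 2 := hthr1
      _ = τ * τ := by ring
  obtain ⟨c, hc⟩ := lovasz G m hm0
  -- errors
  obtain ⟨dd, hdd⟩ : ∃ dd : ℕ → ℝ, dd = fun n => τ * K ^ (m - n) := ⟨_, rfl⟩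
  have hddτ : ∀ n, τ ≤ dd n := by
    intro n
    rw [hdd]
    simp only
    calc τ = τ * 1 := (mul_one τ).symm
      _ ≤ τ * K ^ (m - n) := mul_le_mul_of_nonneg_left (one_le_pow₀ hK1) hτ0.le
  have hddm : ∀ n n', n ≤ n' → dd n' ≤ dd n := by
    intro n n' h
    rw [hdd]
    simp only
    exact mul_le_mul_of_nonneg_left (pow_le_pow_right₀ hK1 (by omega)) hτ0.le
  have hddle : ∀ n, dd n ≤ η * ζ ^ 2 / 480 := by
    intro n
    rw [← hτK, hdd]
    simp only
    exact mul_le_mul_of_nonneg_left (pow_le_pow_right₀ hK1 (by omega)) hτ0.le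
  have hdds : ∀ n < m, dd n = K * dd (n + 1) := by
    intro n hn
    rw [hdd]
    simp only
    have : m - n = (m - (n + 1)) + 1 := by omega
    rw [this, pow_succ]
    ring
  have hdd0 : ∀ n, 0 < dd n := fun n => lt_of_lt_of_le hτ0 (hddτ n)
  obtain ⟨δ, hδ⟩ : ∃ δ : ℕ → ℝ, δ = fun n => dd n / η + 2 * (1 / η + 1) / Real.sqrt T := ⟨_, rfl⟩
  have hδ0 : ∀ n, 0 ≤ δ n := by
    intro n
    rw [hδ]
    have := hdd0 n
    positivity
  have hδle : ∀ n, δ n ≤ dd n * (1 / η + 1) := by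
    intro n
    rw [hδ]
    simp only
    have := hddτ n
    have h1 : dd n / η = dd n * (1 / η) := by ring
    rw [h1]
    linarith
  have hδm : ∀ n n', n ≤ n' → δ n' ≤ δ n := by
    intro n n' h
    rw [hδ]
    simp only
    have h1 : dd n' / η ≤ dd n / η := by
      rw [div_le_div_iff_of_pos_right hη0]
      exact hddm n n' h
    linarith
  refine greedy hk0 G H hH m D hm0 hD0 q (fun n => by have := hq2 n; omega) hqm (fun v => (c v : ℕ))
    (fun v => (c v).2) hdeg (by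
      intro v
      refine le_trans (le_of_eq ?_) ((hc v).trans (hdeg v))
      congr 2
      ext w
      rw [Finset.mem_filter, Finset.mem_filter, Fin.ext_iff]) M τ (Real.sqrt k) ξ η ζ dd (fun n => C * δ n)
    (fun n => C * δ (n + 1) + τ + ξ / τ) hM0 hτ0 hτ1 hsk hξ0 (by
      intro n
      have := hδ0 (n + 1)
      positivity) ?_ ?_ ?_ ?_ ?_ ?_
  · -- ξ
    have h1 : (k : ℝ) / (1 + Real.sqrt k) ≤ Real.sqrt k := by
      rw [div_le_iff₀ (by positivity)]
      nlinarith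
    have h2 : ξ * k = Real.sqrt k * (1 + Real.exp 1 * M) := by
      rw [hξ]
      field_simp
      rw [sq, hsk2]
    rw [h2]
    linarith
  · -- doubly stochastic weights
    intro n hn A hA hrow hcolA
    rw [hqs] at hA
    obtain ⟨X, h1, h2, h3, h4, h5, h6⟩ := dstoch hk0 (hq2 n) hT0 A η ζ (dd n) hη0 hη1 hζ0 hζ1 (hdd0 n).le hA hrow hcolA
      (δ n) (by rw [hδ]) (by
        have := hddle n
        have h1 : 0 < η * ζ ^ 2 := by positivity
        linarith) (by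
        have h1 := hδle n
        have h2 := mul_le_mul_of_nonneg_right (hddle n) (show 0 ≤ 1 / η + 1 by positivity)
        have h3 : η * ζ ^ 2 / 480 * (1 / η + 1) = ζ ^ 2 * (1 + η) / 480 := by
          field_simp
        rw [h3] at h2
        have h4 : ζ ^ 2 * (1 + η) ≤ ζ * 2 := by
          have : ζ ^ 2 ≤ ζ := by nlinarith
          exact mul_le_mul this (by linarith) (by positivity) hζ0.le
        linarith)
    refine ⟨X, h1, h2, h3, h4, ?_, ?_⟩
    · rw [hM]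
      exact h5
    · rw [hC]
      exact h6
  · -- ζ
    have h1 : ζ * k = ε / 2 * k := by rw [hζ]
    have h2 : (D : ℝ) ≤ (1 - ε / 2) * k := by
      have h3 : (1 - ε / 2) * ((1 + ε) * D) ≤ (1 - ε / 2) * k :=
        mul_le_mul_of_nonneg_left hkD (by linarith)
      have h4 : (D : ℝ) ≤ (1 - ε / 2) * ((1 + ε) * D) := by
        have h5 : (1 - ε / 2) * ((1 + ε) * D) = D + ε * D * ((1 - ε) / 2) := by ring
        rw [h5]
        have : 0 ≤ ε * D * ((1 - ε) / 2) := by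
          have : 0 ≤ (1 - ε) / 2 := by linarith
          positivity
        linarith
      linarith
    rw [h1]
    linarith
  · -- η
    have h1 : 2 * M / m ≤ ε / 4 := by
      rw [div_le_iff₀ hm']
      rw [div_le_iff₀ hε] at hm
      linarith
    have h2 : (2 * M / m + 1) * D ≤ (ε / 4 + 1) * D := mul_le_mul_of_nonneg_right (by linarith) (by linarith)
    have h3 : (ε / 4 + 1) * D ≤ (1 - ε / 4) * k := by
      have h4 : (1 - ε / 4) * ((1 + ε) * D) ≤ (1 - ε / 4) * k :=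
        mul_le_mul_of_nonneg_left hkD (by linarith)
      have h5 : (1 - ε / 4) * ((1 + ε) * D) = (ε / 4 + 1) * D + ε * D * (2 - ε) / 4 := by ring
      have : 0 ≤ ε * D * (2 - ε) / 4 := by
        have : 0 ≤ (2 - ε) := by linarith
        positivity
      linarith
    rw [hη]
    linarith
  · -- e₁
    intro n n' hn' _
    have h1 : δ n ≤ δ (n' + 1) := hδm _ _ hn'
    have h2 := mul_le_mul_of_nonneg_left h1 hC0.le
    linarith
  · -- the error recursion
    intro n hn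
    have hcard := card_ty_le (k := k) (p := q (n + 1)) (by have := hq2 (n + 1); omega)
    have hcardpos : (0 : ℝ) < Fintype.card (Ty k (q (n + 1))) := by
      have : NeZero (q (n + 1)) := ⟨by have := hq2 (n + 1); omega⟩
      have : 0 < Fintype.card (Ty k (q (n + 1))) := Fintype.card_pos_iff.mpr ⟨((fun _ => 0, fun _ => 0), ∅)⟩
      exact_mod_cast this
    have hqQ : (q (n + 1) : ℝ) ≤ Q := by
      rw [hQ]
      exact_mod_cast hqm hn
    have hlogD : Real.log D ≤ 2 * Real.sqrt k := by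
      have h1 : Real.log D ≤ Real.log k := Real.log_le_log (by linarith) hDk
      have h2 : Real.log k = 2 * Real.log (Real.sqrt k) := by
        rw [Real.log_sqrt hk'.le]
        ring
      have h3 := Real.log_le_sub_one_of_pos hsk
      linarith
    have hcost : Real.log ((D : ℝ) ^ D * Fintype.card (Ty k (q (n + 1)))) ≤
        (2 + 2 * Q + (Q : ℝ) ^ 2) * (k * Real.sqrt k) := by
      rw [Real.log_mul (by positivity) hcardpos.ne', Real.log_pow]
      have h1 : (D : ℝ) * Real.log D ≤ k * (2 * Real.sqrt k) :=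
        mul_le_mul hDk hlogD (Real.log_nonneg hD') hk'.le
      have h2 : (2 : ℝ) * k * q (n + 1) ≤ 2 * Q * (k * Real.sqrt k) := by
        calc (2 : ℝ) * k * q (n + 1) ≤ 2 * k * Q := mul_le_mul_of_nonneg_left hqQ (by positivity)
          _ = 2 * Q * (k * 1) := by ring
          _ ≤ _ := by
            refine mul_le_mul_of_nonneg_left ?_ (by positivity)
            exact mul_le_mul_of_nonneg_left hsk1 hk'.le
      have h3 : (q (n + 1) : ℝ) ^ 2 ≤ (Q : ℝ) ^ 2 * (k * Real.sqrt k) := by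
        have h4 : (q (n + 1) : ℝ) ^ 2 ≤ (Q : ℝ) ^ 2 := pow_le_pow_left₀ (by positivity) hqQ 2
        have h5 : (1 : ℝ) ≤ k * Real.sqrt k := by
          calc (1 : ℝ) = 1 * 1 := by ring
            _ ≤ _ := mul_le_mul hk1 hsk1 zero_le_one hk'.le
        calc (q (n + 1) : ℝ) ^ 2 ≤ (Q : ℝ) ^ 2 * 1 := by linarith
          _ ≤ _ := mul_le_mul_of_nonneg_left h5 (by positivity)
      linarith
    have hcost2 : Real.log ((D : ℝ) ^ D * Fintype.card (Ty k (q (n + 1)))) / τ ≤ τ * (k : ℝ) ^ 2 := by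
      rw [div_le_iff₀ hτ0]
      refine hcost.trans ?_
      rw [div_le_iff₀ hsk] at hthr2
      have h1 : (2 + 2 * Q + (Q : ℝ) ^ 2) * (k * Real.sqrt k) ≤ (τ ^ 2 * Real.sqrt k) * (k * Real.sqrt k) :=
        mul_le_mul_of_nonneg_right hthr2 (by positivity)
      refine h1.trans (le_of_eq ?_)
      calc (τ ^ 2 * Real.sqrt k) * (k * Real.sqrt k) = τ ^ 2 * k * (Real.sqrt k * Real.sqrt k) := by ring
        _ = _ := by rw [hsk2]; ring
    have h1 : (D : ℝ) * ((C * δ (n + 1) + τ + ξ / τ + ξ / τ) * k) ≤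
        k * ((C * (dd (n + 1) * (1 / η + 1)) + τ + τ + τ) * k) := by
      have h2 := mul_le_mul_of_nonneg_left (hδle (n + 1)) hC0.le
      have h3 := hδ0 (n + 1)
      refine mul_le_mul hDk ?_ (by positivity) hk'.le
      refine mul_le_mul_of_nonneg_right ?_ hk'.le
      linarith
    have h2 : dd n * (k : ℝ) ^ 2 = k * ((C * (dd (n + 1) * (1 / η + 1)) + 4 * dd (n + 1)) * k) := by
      rw [hdds n hn, hK]
      ring
    have h3 : k * ((C * (dd (n + 1) * (1 / η + 1)) + τ + τ + τ) * k) + τ * (k : ℝ) ^ 2 ≤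
        k * ((C * (dd (n + 1) * (1 / η + 1)) + 4 * dd (n + 1)) * k) := by
      have h4 := hddτ (n + 1)
      have h5 : k * ((C * (dd (n + 1) * (1 / η + 1)) + τ + τ + τ) * k) + τ * (k : ℝ) ^ 2 =
          k * ((C * (dd (n + 1) * (1 / η + 1)) + 4 * τ) * k) := by ring
      rw [h5]
      refine mul_le_mul_of_nonneg_left ?_ hk'.le
      refine mul_le_mul_of_nonneg_right ?_ hk'.le
      linarith
    rw [h2]
    linarith

/-- For every `ε > 0` and every sufficiently large `D`: if `G` has maximum degree at most `D` and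
`k ≥ (1 + ε) D`, then every `k`-fold correspondence cover of `G` has a packing. -/
theorem asym (ε : ℝ) (hε : 0 < ε) : ∃ D₀ : ℕ, ∀ D : ℕ, D₀ ≤ D →
    ∀ (V : Type) [Fintype V] [DecidableEq V] (G : SimpleGraph V) [DecidableRel G.Adj],
      (∀ v, (univ.filter (fun w => G.Adj v w)).card ≤ D) →
      ∀ k : ℕ, (1 + ε) * D ≤ k → ∀ H : SimpleGraph (V × Fin k), Cover G H →
        ∃ f : V → Equiv.Perm (Fin k), ∀ i u v, ¬ H.Adj (u, f u i) (v, f v i) := by
  obtain ⟨D₀, _, h⟩ := asym_aux (min ε 1) (by positivity) (min_le_right _ _)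
  refine ⟨D₀, ?_⟩
  intro D hD V _ _ G _ hdeg k hk H hH
  refine h D hD V G hdeg k (le_trans ?_ hk) H hH
  refine mul_le_mul_of_nonneg_right ?_ (by positivity)
  have := min_le_left ε 1
  linarith

end Pool.Agent.MP_dc7d7b
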