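import Pool.Agent.Lib.MP_dc7d7b_co.Uniform

set_option autoImplicit false

/-!
# Doubly stochastic weights on a good set
-/

namespace Pool.Agent.MP_dc7d7b

open Finset

theorem card_inter_prod {k : ℕ} (A : Finset (Fin k × Fin k)) (R C : Finset (Fin k)) :
    (A ∩ (R ×ˢ C)).card = ∑ i ∈ R, (C.filter (fun c => (i, c) ∈ A)).card := by
  have h1 : A ∩ (R ×ˢ C) = (R ×ˢ C).filter (fun e => e ∈ A) := by
    ext e
    simp only [Finset.mem_inter, Finset.mem_filter]
    tauto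
  rw [h1, Finset.card_filter, Finset.sum_product]
  refine Finset.sum_congr rfl ?_
  intro i _
  rw [Finset.card_filter]

theorem card_inter_prod' {k : ℕ} (A : Finset (Fin k × Fin k)) (R C : Finset (Fin k)) :
    (A ∩ (R ×ˢ C)).card = ∑ c ∈ C, (R.filter (fun i => (i, c) ∈ A)).card := by
  have h1 : A ∩ (R ×ˢ C) = (R ×ˢ C).filter (fun e => e ∈ A) := by
    ext e
    simp only [Finset.mem_inter, Finset.mem_filter]
    tauto
  rw [h1, Finset.card_filter, Finset.sum_product_right]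
  refine Finset.sum_congr rfl ?_
  intro i _
  rw [Finset.card_filter]

/-- A long line minus few cells is long. -/
theorem line_le {k : ℕ} (p : Fin k → Prop) [DecidablePred p] (C : Finset (Fin k)) (ζ : ℝ)
    (h : ζ * k ≤ ((univ.filter p).card : ℝ)) (hC : ((Cᶜ).card : ℝ) ≤ ζ * k / 2) :
    ζ * k / 2 ≤ ((C.filter p).card : ℝ) := by
  have h1 : univ.filter p ⊆ C.filter p ∪ Cᶜ := by
    intro x hx
    rw [Finset.mem_union, Finset.mem_filter, Finset.mem_compl]
    by_cases hxC : x ∈ C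
    · exact Or.inl ⟨hxC, (Finset.mem_filter.mp hx).2⟩
    · exact Or.inr hxC
  have h2 : ((univ.filter p).card : ℝ) ≤ (C.filter p).card + (Cᶜ).card := by
    exact_mod_cast (Finset.card_le_card h1).trans (Finset.card_union_le _ _)
  linarith

theorem fill_cond {k : ℕ} (hk : 0 < k) (A : Finset (Fin k × Fin k)) (η ζ d δ δ₁ : ℝ) (hη : 0 < η) (hη1 : η ≤ 1)
    (hζ : 0 < ζ) (hζ1 : ζ ≤ 1) (hδ : 0 ≤ δ) (hδδ : 12 * δ = ζ * δ₁) (hd1 : d ≤ η * ζ ^ 2 / 32)
    (hrow : ∀ i, ζ * k ≤ ((univ.filter (fun c => (i, c) ∈ A)).card : ℝ))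
    (hcol : ∀ c, ζ * k ≤ ((univ.filter (fun i => (i, c) ∈ A)).card : ℝ))
    (hRC : ∀ R C : Finset (Fin k), η * (R.card * C.card) - d * (k : ℝ) ^ 2 ≤ ((A ∩ (R ×ˢ C)).card : ℝ))
    (r s : Fin k → ℝ) (hr0 : ∀ i, δ₁ ≤ r i) (hr1 : ∀ i, r i ≤ 1) (hs0 : ∀ i, δ₁ ≤ s i) (hs1 : ∀ i, s i ≤ 1)
    (hrs : ∑ i, r i = ∑ i, s i) (hD : ∑ i, r i ≤ δ₁ * k + 3 * δ * k) (hDk : ∑ i, r i ≤ k) (R C : Finset (Fin k)) :
    ∑ i ∈ R, r i - ∑ c ∈ Cᶜ, s c ≤ (32 / (η * ζ ^ 2) / k) * (A ∩ (R ×ˢ C)).card := by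
  have hk' : (0 : ℝ) < k := by exact_mod_cast hk
  have hδ₁ : 0 ≤ δ₁ := by
    have : 0 ≤ ζ * δ₁ := by rw [← hδδ]; positivity
    exact nonneg_of_mul_nonneg_right this hζ
  have hκ : 0 < 32 / (η * ζ ^ 2) / k := by positivity
  -- κ ζ k / 2 ≥ 1
  have hκ1 : 1 ≤ (32 / (η * ζ ^ 2) / k) * (ζ * k / 2) := by
    have h1 : (32 / (η * ζ ^ 2) / k) * (ζ * k / 2) = 16 / (η * ζ) := by
      field_simp
      norm_num
    rw [h1, le_div_iff₀ (by positivity)]
    have : η * ζ ≤ 1 * 1 := mul_le_mul hη1 hζ1 hζ.le zero_le_one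
    linarith
  have hrR := Finset.sum_add_sum_compl R r
  have hsC := Finset.sum_add_sum_compl C s
  have hs0C : 0 ≤ ∑ c ∈ Cᶜ, s c := Finset.sum_nonneg (fun c _ => hδ₁.trans (hs0 c))
  have hr0R : 0 ≤ ∑ i ∈ Rᶜ, r i := Finset.sum_nonneg (fun c _ => hδ₁.trans (hr0 c))
  by_cases hC : ((Cᶜ).card : ℝ) ≤ ζ * k / 2
  · have h1 : (R.card : ℝ) * (ζ * k / 2) ≤ (A ∩ (R ×ˢ C)).card := by
      rw [card_inter_prod]
      push_cast
      calc (R.card : ℝ) * (ζ * k / 2) = ∑ _i ∈ R, ζ * k / 2 := by rw [Finset.sum_const, nsmul_eq_mul]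
        _ ≤ _ := Finset.sum_le_sum (fun i _ => line_le _ C ζ (hrow i) hC)
    have h2 : ∑ i ∈ R, r i ≤ R.card := by
      calc ∑ i ∈ R, r i ≤ ∑ _i ∈ R, (1 : ℝ) := Finset.sum_le_sum (fun i _ => hr1 i)
        _ = R.card := by simp
    have h3 : (R.card : ℝ) ≤ (32 / (η * ζ ^ 2) / k) * (A ∩ (R ×ˢ C)).card := by
      calc (R.card : ℝ) = 1 * R.card := (one_mul _).symm
        _ ≤ ((32 / (η * ζ ^ 2) / k) * (ζ * k / 2)) * R.card := mul_le_mul_of_nonneg_right hκ1 (by positivity)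
        _ = (32 / (η * ζ ^ 2) / k) * (R.card * (ζ * k / 2)) := by ring
        _ ≤ _ := mul_le_mul_of_nonneg_left h1 hκ.le
    linarith
  by_cases hR : ((Rᶜ).card : ℝ) ≤ ζ * k / 2
  · have h1 : (C.card : ℝ) * (ζ * k / 2) ≤ (A ∩ (R ×ˢ C)).card := by
      rw [card_inter_prod']
      push_cast
      calc (C.card : ℝ) * (ζ * k / 2) = ∑ _i ∈ C, ζ * k / 2 := by rw [Finset.sum_const, nsmul_eq_mul]
        _ ≤ _ := Finset.sum_le_sum (fun i _ => line_le _ R ζ (hcol i) hR)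
    have h2 : ∑ i ∈ C, s i ≤ C.card := by
      calc ∑ i ∈ C, s i ≤ ∑ _i ∈ C, (1 : ℝ) := Finset.sum_le_sum (fun i _ => hs1 i)
        _ = C.card := by simp
    have h3 : (C.card : ℝ) ≤ (32 / (η * ζ ^ 2) / k) * (A ∩ (R ×ˢ C)).card := by
      calc (C.card : ℝ) = 1 * C.card := (one_mul _).symm
        _ ≤ ((32 / (η * ζ ^ 2) / k) * (ζ * k / 2)) * C.card := mul_le_mul_of_nonneg_right hκ1 (by positivity)
        _ = (32 / (η * ζ ^ 2) / k) * (C.card * (ζ * k / 2)) := by ring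
        _ ≤ _ := mul_le_mul_of_nonneg_left h1 hκ.le
    linarith
  push Not at hC hR
  have hcR : (R.card : ℝ) + (Rᶜ).card = k := by
    have := Finset.card_add_card_compl R
    rw [Fintype.card_fin] at this
    exact_mod_cast this
  have hcC : (C.card : ℝ) + (Cᶜ).card = k := by
    have := Finset.card_add_card_compl C
    rw [Fintype.card_fin] at this
    exact_mod_cast this
  have hrR' : δ₁ * (Rᶜ).card ≤ ∑ i ∈ Rᶜ, r i := by
    calc δ₁ * (Rᶜ).card = ∑ _i ∈ Rᶜ, δ₁ := by rw [Finset.sum_const, nsmul_eq_mul]; ring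
      _ ≤ _ := Finset.sum_le_sum (fun i _ => hr0 i)
  have hsC' : δ₁ * (Cᶜ).card ≤ ∑ i ∈ Cᶜ, s i := by
    calc δ₁ * (Cᶜ).card = ∑ _i ∈ Cᶜ, δ₁ := by rw [Finset.sum_const, nsmul_eq_mul]; ring
      _ ≤ _ := Finset.sum_le_sum (fun i _ => hs0 i)
  by_cases hRC' : (R.card : ℝ) + C.card ≤ (1 - ζ / 4) * k
  · -- the left side is nonpositive
    have h1 : ∑ i ∈ R, r i - ∑ c ∈ Cᶜ, s c ≤ 0 := by
      have h2 : (1 + ζ / 4) * k ≤ (Rᶜ).card + (Cᶜ).card := by linarith
      have h3 : δ₁ * ((1 + ζ / 4) * k) ≤ δ₁ * ((Rᶜ).card + (Cᶜ).card) := mul_le_mul_of_nonneg_left h2 hδ₁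
      have h4 : δ₁ * ((1 + ζ / 4) * k) = δ₁ * k + 3 * δ * k := by
        have : 3 * δ = ζ * δ₁ / 4 := by linarith
        rw [this]
        ring
      rw [h4] at h3
      linarith
    exact h1.trans (by positivity)
  · push Not at hRC'
    have h1 : ζ / 4 * k ≤ R.card := by linarith
    have h2 : ζ / 4 * k ≤ C.card := by linarith
    have h3 : (ζ / 4 * k) * (ζ / 4 * k) ≤ R.card * C.card := mul_le_mul h1 h2 (by positivity) (by positivity)
    have h4 := hRC R C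
    have h5 : η * ζ ^ 2 / 32 * (k : ℝ) ^ 2 ≤ (A ∩ (R ×ˢ C)).card := by
      have h6 := mul_le_mul_of_nonneg_left h3 hη.le
      have h7 := mul_le_mul_of_nonneg_right hd1 (sq_nonneg (k : ℝ))
      have h8 : η * ((ζ / 4 * k) * (ζ / 4 * k)) = 2 * (η * ζ ^ 2 / 32 * (k : ℝ) ^ 2) := by ring
      rw [h8] at h6
      linarith
    have h6 : (k : ℝ) ≤ (32 / (η * ζ ^ 2) / k) * (A ∩ (R ×ˢ C)).card := by
      have h7 := mul_le_mul_of_nonneg_left h5 hκ.le
      have h8 : (32 / (η * ζ ^ 2) / k) * (η * ζ ^ 2 / 32 * (k : ℝ) ^ 2) = k := by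
        field_simp
      rw [h8] at h7
      exact h7
    linarith

theorem test_rows {k q : ℕ} (hq : 2 ≤ q) (P : Fin k → Prop) [DecidablePred P] :
    ∃ x : ((Fin k → Fin q) × (Fin k → Fin q)) × (Finset (Fin q × Fin q) × Finset (Fin q × Fin q)),
      ∀ e, tst x e = if P e.1 then 1 else -1 := by
  have h01 : (⟨1, by omega⟩ : Fin q) ≠ ⟨0, by omega⟩ := by simp
  refine ⟨((fun i => if P i then ⟨1, by omega⟩ else ⟨0, by omega⟩, fun _ => ⟨0, by omega⟩),
    ({(⟨1, by omega⟩, ⟨0, by omega⟩)}, {(⟨0, by omega⟩, ⟨0, by omega⟩)})), ?_⟩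
  intro e
  unfold tst
  by_cases h : P e.1
  · simp [h]
  · simp [h]

theorem test_cols {k q : ℕ} (hq : 2 ≤ q) (P : Fin k → Prop) [DecidablePred P] :
    ∃ x : ((Fin k → Fin q) × (Fin k → Fin q)) × (Finset (Fin q × Fin q) × Finset (Fin q × Fin q)),
      ∀ e, tst x e = if P e.2 then 1 else -1 := by
  refine ⟨((fun _ => ⟨0, by omega⟩, fun i => if P i then ⟨1, by omega⟩ else ⟨0, by omega⟩),
    ({(⟨0, by omega⟩, ⟨1, by omega⟩)}, {(⟨0, by omega⟩, ⟨0, by omega⟩)})), ?_⟩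
  intro e
  unfold tst
  by_cases h : P e.2
  · simp [h]
  · simp [h]

/-- Total deviation of the row sums. -/
theorem dev_of_sign {k : ℕ} (row : Fin k → ℝ) (δ : ℝ)
    (h : ∑ i, (if 1 < row i then (1 : ℝ) else -1) * row i ≤ (∑ i, (if 1 < row i then (1 : ℝ) else -1)) + δ) :
    ∑ i, |row i - 1| ≤ δ := by
  have h1 : ∀ i, |row i - 1| = (if 1 < row i then (1 : ℝ) else -1) * row i - (if 1 < row i then (1 : ℝ) else -1) := by
    intro i
    split_ifs with h2
    · rw [abs_of_pos (by linarith)]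
      ring
    · rw [abs_of_nonpos (by linarith)]
      ring
  simp only [h1]
  rw [Finset.sum_sub_distrib]
  linarith

theorem dstoch {k q T : ℕ} (hk : 0 < k) (hq : 2 ≤ q) (hT : 0 < T) (A : Finset (Fin k × Fin k)) (η ζ d : ℝ)
    (hη : 0 < η) (hη1 : η ≤ 1) (hζ : 0 < ζ) (hζ1 : ζ ≤ 1) (hd : 0 ≤ d) (hA : GoodSet (q ^ T) η d A)
    (hrow : ∀ i, ζ * k ≤ ((univ.filter (fun c => (i, c) ∈ A)).card : ℝ))
    (hcol : ∀ c, ζ * k ≤ ((univ.filter (fun i => (i, c) ∈ A)).card : ℝ))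
    (δ : ℝ) (hδ : δ = d / η + 2 * (1 / η + 1) / Real.sqrt T) (hd1 : d ≤ η * ζ ^ 2 / 32) (hδ1 : 15 * δ ≤ ζ) :
    ∃ X : Fin k → Fin k → ℝ, (∀ i c, 0 ≤ X i c) ∧ (∀ i, ∑ c, X i c = 1) ∧ (∀ c, ∑ i, X i c = 1) ∧
      (∀ i c, (i, c) ∉ A → X i c = 0) ∧ (∀ i c, X i c ≤ (1 / η + 32 / (η * ζ ^ 2)) / k) ∧
      ∀ (a b : Fin k → Fin q) (B : Finset (Fin q × Fin q)),
        ∑ e ∈ blk a b B, X e.1 e.2 ≤ (blk a b B).card / k + (4 + 12 / ζ) * δ * k := by
  classical
  have hk' : (0 : ℝ) < k := by exact_mod_cast hk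
  have hδ0 : 0 ≤ δ := by rw [hδ]; positivity
  obtain ⟨X₁, hX0, hXA, hXn, hXt⟩ := uniform (q := q) hk hT A η d hη hd hA
  rw [← hδ] at hXt
  set row : Fin k → ℝ := fun i => ∑ c, X₁ (i, c) with hrowd
  set col : Fin k → ℝ := fun c => ∑ i, X₁ (i, c) with hcold
  have hrow0 : ∀ i, 0 ≤ row i := fun i => Finset.sum_nonneg (fun c _ => hX0 _)
  have hcol0 : ∀ i, 0 ≤ col i := fun i => Finset.sum_nonneg (fun c _ => hX0 _)
  have hdevr : ∑ i, |row i - 1| ≤ δ * k := by
    refine dev_of_sign row _ ?_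
    obtain ⟨x, hx⟩ := test_rows (k := k) hq (fun i => 1 < row i)
    have h1 := hXt x
    set sgn : Fin k → ℝ := fun i => if 1 < row i then (1 : ℝ) else -1 with hsgn
    have hx' : ∀ e, tst x e = sgn e.1 := fun e => hx e
    simp only [hx'] at h1
    rw [Fintype.sum_prod_type, Fintype.sum_prod_type] at h1
    simp only [← Finset.mul_sum, Finset.sum_const, Finset.card_univ, Fintype.card_fin, nsmul_eq_mul] at h1
    rw [mul_div_assoc] at h1
    have h2 : (k : ℝ) * ((∑ i, sgn i) / k) = ∑ i, sgn i := by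
      field_simp
    rw [h2] at h1
    exact h1
  have hdevc : ∑ i, |col i - 1| ≤ δ * k := by
    refine dev_of_sign col _ ?_
    obtain ⟨x, hx⟩ := test_cols (k := k) hq (fun i => 1 < col i)
    have h1 := hXt x
    set sgn : Fin k → ℝ := fun i => if 1 < col i then (1 : ℝ) else -1 with hsgn
    have hx' : ∀ e, tst x e = sgn e.2 := fun e => hx e
    simp only [hx'] at h1
    rw [Fintype.sum_prod_type_right, Fintype.sum_prod_type_right] at h1
    simp only [← Finset.mul_sum, Finset.sum_const, Finset.card_univ, Fintype.card_fin, nsmul_eq_mul] at h1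
    rw [mul_div_assoc] at h1
    have h2 : (k : ℝ) * ((∑ i, sgn i) / k) = ∑ i, sgn i := by
      field_simp
    rw [h2] at h1
    exact h1
  -- scaling down
  have hmr : ∀ i, 1 ≤ max 1 (row i) := fun i => le_max_left _ _
  have hmc : ∀ i, 1 ≤ max 1 (col i) := fun i => le_max_left _ _
  set X₂ : Fin k × Fin k → ℝ := fun e => X₁ e / (max 1 (row e.1) * max 1 (col e.2)) with hX₂
  have hX₂0 : ∀ e, 0 ≤ X₂ e := by
    intro e
    have h1 := hmr e.1
    have h2 := hmc e.2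
    have h3 := hX0 e
    rw [hX₂]
    positivity
  have hX₂r : ∀ e, X₂ e ≤ X₁ e / max 1 (row e.1) := by
    intro e
    have h1 := hmr e.1
    have h2 := hmc e.2
    rw [hX₂]
    simp only
    rw [← div_div]
    exact div_le_self (div_nonneg (hX0 e) (by linarith)) h2
  have hX₂c : ∀ e, X₂ e ≤ X₁ e / max 1 (col e.2) := by
    intro e
    have h1 := hmr e.1
    have h2 := hmc e.2
    rw [hX₂]
    simp only
    rw [mul_comm, ← div_div]
    exact div_le_self (div_nonneg (hX0 e) (by linarith)) h1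
  have hX₂le : ∀ e, X₂ e ≤ X₁ e := fun e => (hX₂r e).trans (div_le_self (hX0 e) (hmr e.1))
  have hrow2 : ∀ i, ∑ c, X₂ (i, c) ≤ 1 := by
    intro i
    calc ∑ c, X₂ (i, c) ≤ ∑ c, X₁ (i, c) / max 1 (row i) := Finset.sum_le_sum (fun c _ => hX₂r (i, c))
      _ = row i / max 1 (row i) := by rw [← Finset.sum_div]
      _ ≤ 1 := by
          rw [div_le_one (by linarith [hmr i])]
          exact le_max_right _ _
  have hcol2 : ∀ c, ∑ i, X₂ (i, c) ≤ 1 := by
    intro c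
    calc ∑ i, X₂ (i, c) ≤ ∑ i, X₁ (i, c) / max 1 (col c) := Finset.sum_le_sum (fun i _ => hX₂c (i, c))
      _ = col c / max 1 (col c) := by rw [← Finset.sum_div]
      _ ≤ 1 := by
          rw [div_le_one (by linarith [hmc c])]
          exact le_max_right _ _
  -- the mass
  have hmass1 : (k : ℝ) - δ * k ≤ ∑ e, X₁ e := by
    have h1 : ∑ e, X₁ e = ∑ i, row i := by rw [Fintype.sum_prod_type]
    have h2 : ∑ i, (1 - row i) ≤ ∑ i, |row i - 1| := by
      refine Finset.sum_le_sum ?_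
      intro i _
      have := neg_abs_le (row i - 1)
      linarith
    rw [Finset.sum_sub_distrib] at h2
    simp only [Finset.sum_const, Finset.card_univ, Fintype.card_fin, nsmul_eq_mul, mul_one] at h2
    rw [h1]
    linarith
  have hloss : ∀ e, X₁ e - X₂ e ≤ X₁ e * (1 - 1 / max 1 (row e.1)) + X₁ e * (1 - 1 / max 1 (col e.2)) := by
    intro e
    have h1 := hmr e.1
    have h2 := hmc e.2
    have h3 := hX0 e
    have h4 : 1 / max 1 (row e.1) ≤ 1 := by
      rw [div_le_one (by linarith)]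
      exact h1
    have h5 : 1 / max 1 (col e.2) ≤ 1 := by
      rw [div_le_one (by linarith)]
      exact h2
    have h6 : X₂ e = X₁ e * ((1 / max 1 (row e.1)) * (1 / max 1 (col e.2))) := by
      rw [hX₂]
      simp only
      field_simp
    rw [h6]
    have h7 : 0 ≤ X₁ e * ((1 - 1 / max 1 (row e.1)) * (1 - 1 / max 1 (col e.2))) :=
      mul_nonneg h3 (mul_nonneg (by linarith) (by linarith))
    nlinarith
  have hpos : ∀ x : ℝ, 0 ≤ x → x * (1 - 1 / max 1 x) ≤ |x - 1| := by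
    intro x hx
    rcases le_total x 1 with h | h
    · rw [max_eq_left h]
      simp
    · rw [max_eq_right h, abs_of_nonneg (by linarith)]
      have : x ≠ 0 := by linarith
      field_simp
      linarith
  have hmass2 : (k : ℝ) - 3 * δ * k ≤ ∑ e, X₂ e := by
    have h1 : ∑ e, (X₁ e - X₂ e) ≤
        ∑ e, (X₁ e * (1 - 1 / max 1 (row e.1)) + X₁ e * (1 - 1 / max 1 (col e.2))) :=
      Finset.sum_le_sum (fun e _ => hloss e)
    rw [Finset.sum_sub_distrib, Finset.sum_add_distrib] at h1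
    have h2 : ∑ e : Fin k × Fin k, X₁ e * (1 - 1 / max 1 (row e.1)) ≤ δ * k := by
      rw [Fintype.sum_prod_type]
      simp only [← Finset.sum_mul]
      refine le_trans (Finset.sum_le_sum (fun i _ => hpos (row i) (hrow0 i))) hdevr
    have h3 : ∑ e : Fin k × Fin k, X₁ e * (1 - 1 / max 1 (col e.2)) ≤ δ * k := by
      rw [Fintype.sum_prod_type_right]
      simp only [← Finset.sum_mul]
      refine le_trans (Finset.sum_le_sum (fun i _ => hpos (col i) (hcol0 i))) hdevc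
    linarith
  -- deficits
  obtain ⟨δ₁, hδ₁⟩ : ∃ δ₁ : ℝ, δ₁ = 12 * δ / ζ := ⟨_, rfl⟩
  have hδ₁0 : 0 ≤ δ₁ := by rw [hδ₁]; positivity
  have hδδ : 12 * δ = ζ * δ₁ := by
    rw [hδ₁]
    field_simp
  have hδ₁3 : δ₁ + 3 * δ ≤ 1 := by
    have h1 : ζ * (δ₁ + 3 * δ) ≤ ζ * 1 := by
      have h2 : ζ * (3 * δ) ≤ 1 * (3 * δ) := mul_le_mul_of_nonneg_right hζ1 (by positivity)
      linarith
    exact le_of_mul_le_mul_left h1 hζ
  have hδ₁1 : δ₁ ≤ 1 := by linarith
  have hmass2le : ∑ e, X₂ e ≤ k := by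
    rw [Fintype.sum_prod_type]
    calc ∑ i, ∑ c, X₂ (i, c) ≤ ∑ _i : Fin k, (1 : ℝ) := Finset.sum_le_sum (fun i _ => hrow2 i)
      _ = k := by simp
  set r : Fin k → ℝ := fun i => 1 - (1 - δ₁) * ∑ c, X₂ (i, c) with hr
  set s : Fin k → ℝ := fun c => 1 - (1 - δ₁) * ∑ i, X₂ (i, c) with hs
  have hr0 : ∀ i, δ₁ ≤ r i := by
    intro i
    have h1 := mul_le_mul_of_nonneg_left (hrow2 i) (show 0 ≤ 1 - δ₁ by linarith)
    rw [hr]
    simp only
    linarith
  have hs0 : ∀ i, δ₁ ≤ s i := by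
    intro i
    have h1 := mul_le_mul_of_nonneg_left (hcol2 i) (show 0 ≤ 1 - δ₁ by linarith)
    rw [hs]
    simp only
    linarith
  have hr1 : ∀ i, r i ≤ 1 := by
    intro i
    have h1 : 0 ≤ (1 - δ₁) * ∑ c, X₂ (i, c) :=
      mul_nonneg (by linarith) (Finset.sum_nonneg (fun c _ => hX₂0 _))
    rw [hr]
    simp only
    linarith
  have hs1 : ∀ i, s i ≤ 1 := by
    intro i
    have h1 : 0 ≤ (1 - δ₁) * ∑ c, X₂ (c, i) :=
      mul_nonneg (by linarith) (Finset.sum_nonneg (fun c _ => hX₂0 _))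
    rw [hs]
    simp only
    linarith
  have hsumr : ∑ i, r i = k - (1 - δ₁) * ∑ e, X₂ e := by
    rw [hr]
    simp only
    rw [Finset.sum_sub_distrib, ← Finset.mul_sum, Fintype.sum_prod_type]
    simp
  have hsums : ∑ i, s i = k - (1 - δ₁) * ∑ e, X₂ e := by
    rw [hs]
    simp only
    rw [Finset.sum_sub_distrib, ← Finset.mul_sum, Fintype.sum_prod_type_right]
    simp
  have hrs : ∑ i, r i = ∑ i, s i := by rw [hsumr, hsums]
  have hD : ∑ i, r i ≤ δ₁ * k + 3 * δ * k := by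
    rw [hsumr]
    have h1 := mul_le_mul_of_nonneg_left hmass2 (show 0 ≤ 1 - δ₁ by linarith)
    have h2 : 0 ≤ δ₁ * (3 * δ * k) := by positivity
    nlinarith
  have hDk : ∑ i, r i ≤ k := by
    have h1 := mul_le_mul_of_nonneg_right hδ₁3 hk'.le
    linarith
  have hqT : 2 ≤ q ^ T := by
    calc 2 ≤ q := hq
      _ ≤ q ^ T := Nat.le_self_pow hT.ne' _
  have hRC : ∀ R C : Finset (Fin k), η * (R.card * C.card) - d * (k : ℝ) ^ 2 ≤ ((A ∩ (R ×ˢ C)).card : ℝ) := by
    intro R C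
    have h1 := hA (fun i => if i ∈ R then ⟨1, by omega⟩ else ⟨0, by omega⟩)
      (fun i => if i ∈ C then ⟨1, by omega⟩ else ⟨0, by omega⟩) {(⟨1, by omega⟩, ⟨1, by omega⟩)}
    have h2 : blk (fun i => if i ∈ R then (⟨1, by omega⟩ : Fin (q ^ T)) else ⟨0, by omega⟩)
      (fun i => if i ∈ C then (⟨1, by omega⟩ : Fin (q ^ T)) else ⟨0, by omega⟩)
        {(⟨1, by omega⟩, ⟨1, by omega⟩)} = R ×ˢ C := by
      ext e
      unfold blk
      rw [Finset.mem_filter, Finset.mem_product]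
      by_cases h3 : e.1 ∈ R
      · by_cases h4 : e.2 ∈ C
        · simp [h3, h4]
        · simp [h3, h4]
      · simp [h3]
    rw [h2, Finset.card_product] at h1
    push_cast at h1
    exact h1
  obtain ⟨Z, hZ0, hZA, hZn, hZr, hZc⟩ := transport A (32 / (η * ζ ^ 2) / k) (by positivity) r s hrs
    (fill_cond hk A η ζ d δ δ₁ hη hη1 hζ hζ1 hδ0 hδδ hd1 hrow hcol hRC r s hr0 hr1 hs0 hs1 hrs hD hDk)
  have hZmass : ∑ e, Z e ≤ δ₁ * k + 3 * δ * k := by
    rw [Fintype.sum_prod_type]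
    simp only [hZr]
    exact hD
  refine ⟨fun i c => (1 - δ₁) * X₂ (i, c) + Z (i, c), ?_, ?_, ?_, ?_, ?_, ?_⟩
  · intro i c
    have h1 := mul_nonneg (show 0 ≤ 1 - δ₁ by linarith) (hX₂0 (i, c))
    have h2 := hZ0 (i, c)
    linarith
  · intro i
    rw [Finset.sum_add_distrib, ← Finset.mul_sum, hZr, hr]
    ring
  · intro c
    rw [Finset.sum_add_distrib, ← Finset.mul_sum, hZc, hs]
    ring
  · intro i c hic
    have h1 : X₂ (i, c) = 0 := by
      have h2 := hXn (i, c) hic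
      rw [hX₂]
      simp only
      rw [h2, zero_div]
    simp only
    rw [h1, hZn _ hic]
    ring
  · intro i c
    by_cases hic : (i, c) ∈ A
    · have h1 : (1 - δ₁) * X₂ (i, c) ≤ 1 / (η * k) := by
        calc (1 - δ₁) * X₂ (i, c) ≤ 1 * X₂ (i, c) := mul_le_mul_of_nonneg_right (by linarith) (hX₂0 _)
          _ = X₂ (i, c) := one_mul _
          _ ≤ X₁ (i, c) := hX₂le _
          _ ≤ _ := hXA _ hic
      have h2 := hZA _ hic
      have h3 : (1 / η + 32 / (η * ζ ^ 2)) / k = 1 / (η * k) + 32 / (η * ζ ^ 2) / k := by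
        rw [add_div, div_div]
      simp only
      rw [h3]
      linarith
    · have h1 : X₂ (i, c) = 0 := by
        have h2 := hXn (i, c) hic
        rw [hX₂]
        simp only
        rw [h2, zero_div]
      simp only
      rw [h1, hZn _ hic]
      have : 0 ≤ (1 / η + 32 / (η * ζ ^ 2)) / k := by positivity
      linarith
  · intro a b B
    have h1 : ∑ e ∈ blk a b B, ((1 - δ₁) * X₂ (e.1, e.2) + Z (e.1, e.2)) ≤
        ∑ e ∈ blk a b B, X₁ e + ∑ e, Z e := by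
      rw [Finset.sum_add_distrib]
      refine add_le_add ?_ ?_
      · refine Finset.sum_le_sum ?_
        intro e _
        calc (1 - δ₁) * X₂ (e.1, e.2) ≤ 1 * X₂ (e.1, e.2) := mul_le_mul_of_nonneg_right (by linarith) (hX₂0 _)
          _ = X₂ e := one_mul _
          _ ≤ X₁ e := hX₂le _
      · exact Finset.sum_le_sum_of_subset_of_nonneg (Finset.subset_univ _) (fun e _ _ => hZ0 _)
    have h2 : ∑ e ∈ blk a b B, X₁ e ≤ (blk a b B).card / k + δ * k := by
      have h3 := hXt ((a, b), (B, ∅))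
      have h4 : ∀ e : Fin k × Fin k, tst (((a, b), (B, ∅)) : ((Fin k → Fin q) × (Fin k → Fin q)) ×
          (Finset (Fin q × Fin q) × Finset (Fin q × Fin q))) e = if e ∈ blk a b B then 1 else 0 := by
        intro e
        unfold tst blk
        simp only [Finset.notMem_empty, if_false, sub_zero, Finset.mem_filter, Finset.mem_univ, true_and]
      simp only [h4] at h3
      have h5 : ∑ e : Fin k × Fin k, (if e ∈ blk a b B then (1 : ℝ) else 0) * X₁ e = ∑ e ∈ blk a b B, X₁ e := by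
        simp only [ite_mul, one_mul, zero_mul]
        rw [← Finset.sum_filter]
        congr 1
        ext e
        simp
      have h6 : ∑ e : Fin k × Fin k, (if e ∈ blk a b B then (1 : ℝ) else 0) = (blk a b B).card := by
        rw [← Finset.sum_filter]
        simp
      rw [h5, h6] at h3
      exact h3
    have h3 : (4 + 12 / ζ) * δ * k = δ * k + (δ₁ * k + 3 * δ * k) := by
      rw [hδ₁]
      ring
    rw [h3]
    linarith

end Pool.Agent.MP_dc7d7b
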