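import Pool.Agent.Lib.MP_dc7d7b_co.Pair

set_option autoImplicit false

/-!
# Packings of `2d`-fold correspondence covers

If every nonempty vertex set `S` contains a vertex of degree at most `d` in `G[S]`, or two adjacent vertices of
degree at most `d + 1` in `G[S]` (`d ≥ 3`), then every `2d`-fold correspondence cover of `G` has a packing.
-/

namespace Pool.Agent.MP_dc7d7b

open Finset

theorem Deg.mono {α : Type*} [Fintype α] {d e : ℕ} {D : α → α → Prop} (h : Deg d D) (hde : d ≤ e) : Deg e D :=
  ⟨fun i => (h.1 i).trans hde, fun i => (h.2 i).trans hde⟩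

/-- A partial matching between `Fin k` and `Fin k` extends to a permutation. -/
theorem exists_extend {k : ℕ} (μ : Fin k → Fin k → Prop) (h1 : ∀ a b b', μ a b → μ a b' → b = b')
    (h2 : ∀ a a' b, μ a b → μ a' b → a = a') : ∃ π : Equiv.Perm (Fin k), ∀ a b, μ a b → π a = b := by
  classical
  let s : Finset (Fin k) := univ.filter (fun a => ∃ b, μ a b)
  let f : Fin k → Fin k := fun a => if h : ∃ b, μ a b then h.choose else a
  have hf : ∀ a b, μ a b → f a = b := by
    intro a b hab
    have h : ∃ b, μ a b := ⟨b, hab⟩
    have h3 : f a = h.choose := by simp only [f, dif_pos h]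
    rw [h3]
    exact h1 a _ _ h.choose_spec hab
  obtain ⟨g, hg⟩ := Finset.exists_equiv_extend_of_card_eq (α := Fin k) (β := Fin k) (t := univ)
    (by simp) (s := s) (f := f) (Finset.subset_univ _) (by
      intro a ha a' ha' haa
      simp only [s, Finset.coe_filter, Finset.mem_univ, true_and, Set.mem_ofPred_eq] at ha ha'
      obtain ⟨b, hb⟩ := ha
      obtain ⟨b', hb'⟩ := ha'
      have h3 := hf a b hb
      have h4 := hf a' b' hb'
      have h5 : b = b' := by rw [← h3, ← h4]; exact haa
      subst h5
      exact h2 a a' b hb hb')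
  refine ⟨g.trans (Equiv.subtypeUnivEquiv (fun x => Finset.mem_univ x)), ?_⟩
  intro a b hab
  have h3 : a ∈ s := by
    simp only [s, Finset.mem_filter, Finset.mem_univ, true_and]
    exact ⟨b, hab⟩
  have h4 := hg a h3
  simp only [Equiv.trans_apply, Equiv.subtypeUnivEquiv_apply]
  rw [h4]
  exact hf a b hab

section Cover

variable {V : Type*} {k : ℕ} (G : SimpleGraph V) (H : SimpleGraph (V × Fin k))

/-- A `k`-fold correspondence cover of `G`. The cliques on the fibres are not recorded in `H`: `H` holds only the
matchings between the fibres. -/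
structure Cover : Prop where
  fib : ∀ (v : V) (i j : Fin k), ¬ H.Adj (v, i) (v, j)
  edge : ∀ (u v : V) (i j : Fin k), H.Adj (u, i) (v, j) → G.Adj u v
  mat : ∀ (u v : V) (i j j' : Fin k), H.Adj (u, i) (v, j) → H.Adj (u, i) (v, j') → j = j'

/-- The cells `(i, c)` forbidden at `v` by the packing `f` on `S`. -/
def forb (S : Finset V) (f : V → Equiv.Perm (Fin k)) (v : V) : Fin k → Fin k → Prop :=
  fun i c => ∃ u ∈ S, H.Adj (u, f u i) (v, c)

variable {G H}

open Classical in
theorem forb_deg (hH : Cover G H) (S : Finset V) (f : V → Equiv.Perm (Fin k)) (v : V) :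
    Deg (S.filter (fun u => G.Adj v u)).card (forb H S f v) := by
  constructor
  · intro i
    have h1 : univ.filter (fun c => forb H S f v i c) ⊆
        (S.filter (fun u => G.Adj v u)).biUnion (fun u => univ.filter (fun c => H.Adj (u, f u i) (v, c))) := by
      intro c hc
      obtain ⟨u, hu, huc⟩ := (Finset.mem_filter.mp hc).2
      simp only [Finset.mem_biUnion, Finset.mem_filter, Finset.mem_univ, true_and]
      exact ⟨u, ⟨hu, (hH.edge _ _ _ _ huc).symm⟩, huc⟩
    refine (Finset.card_le_card h1).trans ?_
    have h2 := Finset.card_biUnion_le_card_mul (S.filter (fun u => G.Adj v u))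
      (fun u => univ.filter (fun c => H.Adj (u, f u i) (v, c))) 1 (by
        intro u _
        rw [Finset.card_le_one]
        intro a ha b hb
        simp only [Finset.mem_filter, Finset.mem_univ, true_and] at ha hb
        exact hH.mat _ _ _ _ _ ha hb)
    simpa using h2
  · intro c
    have h1 : univ.filter (fun i => forb H S f v i c) ⊆
        (S.filter (fun u => G.Adj v u)).biUnion (fun u => univ.filter (fun i => H.Adj (u, f u i) (v, c))) := by
      intro i hi
      obtain ⟨u, hu, huc⟩ := (Finset.mem_filter.mp hi).2
      simp only [Finset.mem_biUnion, Finset.mem_filter, Finset.mem_univ, true_and]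
      exact ⟨u, ⟨hu, (hH.edge _ _ _ _ huc).symm⟩, huc⟩
    refine (Finset.card_le_card h1).trans ?_
    have h2 := Finset.card_biUnion_le_card_mul (S.filter (fun u => G.Adj v u))
      (fun u => univ.filter (fun i => H.Adj (u, f u i) (v, c))) 1 (by
        intro u _
        rw [Finset.card_le_one]
        intro a ha b hb
        simp only [Finset.mem_filter, Finset.mem_univ, true_and] at ha hb
        exact (f u).injective (hH.mat _ _ _ _ _ ha.symm hb.symm))
    simpa using h2

open Classical in
/-- The main inductive statement. -/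
theorem pack_aux {d : ℕ} (hd : 3 ≤ d) {V : Type*} {G : SimpleGraph V} {H : SimpleGraph (V × Fin (2 * d))}
    (hH : Cover G H)
    (hG : ∀ S : Finset V, S.Nonempty →
      (∃ v ∈ S, (S.filter (fun u => G.Adj v u)).card ≤ d) ∨
      (∃ u ∈ S, ∃ v ∈ S, G.Adj u v ∧ (S.filter (fun w => G.Adj u w)).card ≤ d + 1 ∧
        (S.filter (fun w => G.Adj v w)).card ≤ d + 1)) :
    ∀ S : Finset V, ∃ f : V → Equiv.Perm (Fin (2 * d)),
      ∀ i, ∀ u ∈ S, ∀ v ∈ S, ¬ H.Adj (u, f u i) (v, f v i) := by
  intro S
  induction S using Finset.strongInduction with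
  | _ S ih =>
    rcases S.eq_empty_or_nonempty with rfl | hne
    · exact ⟨fun _ => 1, by simp⟩
    rcases hG S hne with ⟨v, hv, hdv⟩ | ⟨u, hu, v, hv, huv, hdu, hdv⟩
    · -- one vertex
      obtain ⟨f, hf⟩ := ih (S.erase v) (Finset.erase_ssubset hv)
      have hD : Deg d (forb H (S.erase v) f v) := by
        refine (forb_deg hH (S.erase v) f v).mono (le_trans (Finset.card_le_card ?_) hdv)
        exact Finset.filter_subset_filter _ (Finset.erase_subset _ _)
      obtain ⟨σ, hσ⟩ := exists_perm (by simp) hD
      refine ⟨Function.update f v σ, ?_⟩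
      intro i x hx y hy hadj
      by_cases hxv : x = v
      · by_cases hyv : y = v
        · subst hxv; subst hyv
          exact hH.fib _ _ _ hadj
        · subst hxv
          rw [Function.update_self, Function.update_of_ne hyv] at hadj
          exact hσ i ⟨y, Finset.mem_erase.mpr ⟨hyv, hy⟩, hadj.symm⟩
      · by_cases hyv : y = v
        · subst hyv
          rw [Function.update_self, Function.update_of_ne hxv] at hadj
          exact hσ i ⟨x, Finset.mem_erase.mpr ⟨hxv, hx⟩, hadj⟩
        · rw [Function.update_of_ne hxv, Function.update_of_ne hyv] at hadj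
          exact hf i x (Finset.mem_erase.mpr ⟨hxv, hx⟩) y (Finset.mem_erase.mpr ⟨hyv, hy⟩) hadj
    · -- two adjacent vertices
      have huv' : u ≠ v := huv.ne
      set S' := (S.erase u).erase v with hS'
      have hS'S : S' ⊂ S := lt_of_le_of_lt (Finset.erase_subset _ _) (Finset.erase_ssubset hu)
      obtain ⟨f, hf⟩ := ih S' hS'S
      have hmemS' : ∀ x, x ∈ S → x ≠ u → x ≠ v → x ∈ S' := by
        intro x hx h1 h2
        rw [hS']
        exact Finset.mem_erase.mpr ⟨h2, Finset.mem_erase.mpr ⟨h1, hx⟩⟩
      have hDu : Deg d (forb H S' f u) := by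
        refine (forb_deg hH S' f u).mono ?_
        have h1 : insert v (S'.filter (fun w => G.Adj u w)) ⊆ S.filter (fun w => G.Adj u w) := by
          intro x hx
          rw [Finset.mem_insert] at hx
          rcases hx with rfl | hx
          · exact Finset.mem_filter.mpr ⟨hv, huv⟩
          · rw [Finset.mem_filter] at hx ⊢
            exact ⟨hS'S.subset hx.1, hx.2⟩
        have h2 := (Finset.card_le_card h1).trans hdu
        rw [Finset.card_insert_of_notMem] at h2
        · omega
        · simp [hS']
      have hDv : Deg d (forb H S' f v) := by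
        refine (forb_deg hH S' f v).mono ?_
        have h1 : insert u (S'.filter (fun w => G.Adj v w)) ⊆ S.filter (fun w => G.Adj v w) := by
          intro x hx
          rw [Finset.mem_insert] at hx
          rcases hx with rfl | hx
          · exact Finset.mem_filter.mpr ⟨hu, huv.symm⟩
          · rw [Finset.mem_filter] at hx ⊢
            exact ⟨hS'S.subset hx.1, hx.2⟩
        have h2 := (Finset.card_le_card h1).trans hdv
        rw [Finset.card_insert_of_notMem] at h2
        · omega
        · simp [hS']
      obtain ⟨π, hπ⟩ := exists_extend (fun a b => H.Adj (u, a) (v, b))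
        (fun a b b' h h' => hH.mat _ _ _ _ _ h h')
        (fun a a' b h h' => hH.mat _ _ _ _ _ h.symm h'.symm)
      have hD1 : Deg d (fun i b => forb H S' f u i (π.symm b)) := by
        constructor
        · intro i
          refine le_trans (le_of_eq ?_) (hDu.1 i)
          refine Finset.card_bij (fun b _ => π.symm b) ?_ ?_ ?_
          · intro b hb
            simpa using hb
          · intro b _ b' _ h
            exact π.symm.injective h
          · intro c hc
            refine ⟨π c, ?_, by simp⟩
            simpa using hc
        · intro c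
          exact hDu.2 (π.symm c)
      obtain ⟨σ, τ, hσ, hτ, hστ⟩ := exists_pair (by simp) hd hD1 hDv
      let σ' : Equiv.Perm (Fin (2 * d)) := σ.trans π.symm
      have hσ' : ∀ i, ¬ forb H S' f u i (σ' i) := hσ
      have hadj' : ∀ i, ¬ H.Adj (u, σ' i) (v, τ i) := by
        intro i h
        have h1 := hπ _ _ h
        simp only [σ', Equiv.trans_apply, Equiv.apply_symm_apply] at h1
        exact hστ i h1
      refine ⟨Function.update (Function.update f u σ') v τ, ?_⟩
      have fu : Function.update (Function.update f u σ') v τ u = σ' := by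
        rw [Function.update_of_ne huv', Function.update_self]
      have fv : Function.update (Function.update f u σ') v τ v = τ := by
        rw [Function.update_self]
      have fo : ∀ x, x ≠ u → x ≠ v → Function.update (Function.update f u σ') v τ x = f x := by
        intro x h1 h2
        rw [Function.update_of_ne h2, Function.update_of_ne h1]
      intro i x hx y hy hadj
      by_cases hxu : x = u
      · subst hxu
        rw [fu] at hadj
        by_cases hyu : y = x
        · subst hyu
          rw [fu] at hadj
          exact hH.fib _ _ _ hadj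
        by_cases hyv : y = v
        · subst hyv
          rw [fv] at hadj
          exact hadj' i hadj
        · rw [fo y hyu hyv] at hadj
          exact hσ' i ⟨y, hmemS' y hy hyu hyv, hadj.symm⟩
      by_cases hxv : x = v
      · subst hxv
        rw [fv] at hadj
        by_cases hyx : y = x
        · subst hyx
          rw [fv] at hadj
          exact hH.fib _ _ _ hadj
        by_cases hyu : y = u
        · subst hyu
          rw [fu] at hadj
          exact hadj' i hadj.symm
        · rw [fo y hyu hyx] at hadj
          exact hτ i ⟨y, hmemS' y hy hyu hyx, hadj.symm⟩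
      rw [fo x hxu hxv] at hadj
      by_cases hyu : y = u
      · subst hyu
        rw [fu] at hadj
        exact hσ' i ⟨x, hmemS' x hx hxu hxv, hadj⟩
      by_cases hyv : y = v
      · subst hyv
        rw [fv] at hadj
        exact hτ i ⟨x, hmemS' x hx hxu hxv, hadj⟩
      · rw [fo y hyu hyv] at hadj
        exact hf i x (hmemS' x hx hxu hxv) y (hmemS' y hy hyu hyv) hadj

end Cover

/-- Below the density `2 (d+1) (d+2) / (2 d + 3)` there is a vertex of degree at most `d` or an edge whose two
ends have degree at most `d + 1`. -/
theorem local_of_sum {d : ℕ} {V : Type*} (G : SimpleGraph V) [DecidableRel G.Adj] (S : Finset V)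
    (h : (2 * d + 3) * ∑ v ∈ S, (S.filter (fun w => G.Adj v w)).card < 2 * (d + 1) * (d + 2) * S.card) :
    (∃ v ∈ S, (S.filter (fun u => G.Adj v u)).card ≤ d) ∨
      (∃ u ∈ S, ∃ v ∈ S, G.Adj u v ∧ (S.filter (fun w => G.Adj u w)).card ≤ d + 1 ∧
        (S.filter (fun w => G.Adj v w)).card ≤ d + 1) := by
  classical
  by_contra hc
  push Not at hc
  obtain ⟨h1, h2⟩ := hc
  set L := S.filter (fun v => (S.filter (fun w => G.Adj v w)).card ≤ d + 1) with hL
  set U := S.filter (fun v => ¬ (S.filter (fun w => G.Adj v w)).card ≤ d + 1) with hU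
  have hLU : L.card + U.card = S.card := by
    rw [hL, hU]
    exact Finset.card_filter_add_card_filter_not _
  have hsum : ∑ v ∈ L, (S.filter (fun w => G.Adj v w)).card + ∑ v ∈ U, (S.filter (fun w => G.Adj v w)).card
      = ∑ v ∈ S, (S.filter (fun w => G.Adj v w)).card := by
    rw [hL, hU]
    exact Finset.sum_filter_add_sum_filter_not _ _ _
  have hLdeg : ∑ v ∈ L, (S.filter (fun w => G.Adj v w)).card = L.card * (d + 1) := by
    refine Finset.sum_const_nat ?_
    intro v hv
    rw [hL, Finset.mem_filter] at hv
    have := h1 v hv.1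
    omega
  have hUdeg : U.card * (d + 2) ≤ ∑ v ∈ U, (S.filter (fun w => G.Adj v w)).card := by
    rw [← smul_eq_mul]
    refine Finset.card_nsmul_le_sum _ _ _ ?_
    intro v hv
    rw [hU, Finset.mem_filter] at hv
    omega
  have hLle : ∑ v ∈ L, (S.filter (fun w => G.Adj v w)).card ≤ ∑ v ∈ U, (S.filter (fun w => G.Adj v w)).card := by
    have e1 : ∑ v ∈ L, (S.filter (fun w => G.Adj v w)).card = ∑ v ∈ L, (U.filter (fun w => G.Adj v w)).card := by
      refine Finset.sum_congr rfl ?_
      intro v hv
      congr 1
      ext w
      simp only [Finset.mem_filter]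
      rw [hL, Finset.mem_filter] at hv
      constructor
      · rintro ⟨hw, hvw⟩
        refine ⟨?_, hvw⟩
        rw [hU, Finset.mem_filter]
        refine ⟨hw, ?_⟩
        have := h2 v hv.1 w hw hvw hv.2
        omega
      · rintro ⟨hw, hvw⟩
        rw [hU, Finset.mem_filter] at hw
        exact ⟨hw.1, hvw⟩
    have e2 : ∑ v ∈ L, (U.filter (fun w => G.Adj v w)).card = ∑ w ∈ U, (L.filter (fun v => G.Adj v w)).card := by
      have := Finset.sum_card_bipartiteAbove_eq_sum_card_bipartiteBelow (s := L) (t := U) (fun v w => G.Adj v w)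
      simpa only [Finset.bipartiteAbove, Finset.bipartiteBelow] using this
    rw [e1, e2]
    refine Finset.sum_le_sum ?_
    intro w hw
    refine Finset.card_le_card ?_
    intro v hv
    rw [Finset.mem_filter] at hv ⊢
    rw [hL, Finset.mem_filter] at hv
    exact ⟨hv.1.1, hv.2.symm⟩
  rw [← hsum, ← hLU] at h
  rw [hLdeg] at h hLle
  set b := ∑ v ∈ U, (S.filter (fun w => G.Adj v w)).card
  have h3 : 2 * (d + 1) * (d + 2) * U.card ≤ 2 * (d + 1) * b := by
    calc 2 * (d + 1) * (d + 2) * U.card = 2 * (d + 1) * (U.card * (d + 2)) := by ring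
      _ ≤ _ := Nat.mul_le_mul_left _ hUdeg
  nlinarith

end Pool.Agent.MP_dc7d7b
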