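import Mathlib

set_option autoImplicit false

/-!
# An upper bound for permanents of nonnegative matrices with small entries

If all entries of the `n × n` matrix `Y` are at most `y` and the row sums are `ρ i`, then
`per Y ≤ exp (-n (1 - 1 / (1 + α))) * ∏ (ρ i + α y)` for every `α ≥ 0`. The proof is an induction on `n` in the
style of Schrijver's proof of the Bregman-Minc inequality.
-/

namespace Pool.Agent.MP_dc7d7b

open Finset

/-- The permanent. -/
def per {n : ℕ} (Y : Fin n → Fin n → ℝ) : ℝ := ∑ σ : Equiv.Perm (Fin n), ∏ i, Y i (σ i)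

/-- The permutation with `i ↦ c` which is `τ` on the rest. -/
def ext {n : ℕ} (i c : Fin (n + 1)) (τ : Equiv.Perm (Fin n)) : Equiv.Perm (Fin (n + 1)) :=
  (finSuccEquiv' i).trans ((Equiv.optionCongr τ).trans (finSuccEquiv' c).symm)

theorem ext_self {n : ℕ} (i c : Fin (n + 1)) (τ : Equiv.Perm (Fin n)) : ext i c τ i = c := by
  simp [ext]

theorem ext_succAbove {n : ℕ} (i c : Fin (n + 1)) (τ : Equiv.Perm (Fin n)) (j : Fin n) :
    ext i c τ (i.succAbove j) = c.succAbove (τ j) := by
  simp [ext]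

theorem ext_bijective {n : ℕ} (i : Fin (n + 1)) :
    Function.Bijective (fun x : Fin (n + 1) × Equiv.Perm (Fin n) => ext i x.1 x.2) := by
  rw [Fintype.bijective_iff_injective_and_card]
  constructor
  · rintro ⟨c, τ⟩ ⟨c', τ'⟩ h
    simp only at h
    have h1 : c = c' := by
      have := congrArg (fun e : Equiv.Perm (Fin (n + 1)) => e i) h
      simpa [ext_self] using this
    subst h1
    have h2 : τ = τ' := by
      ext j : 1
      have := congrArg (fun e : Equiv.Perm (Fin (n + 1)) => e (i.succAbove j)) h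
      simp only [ext_succAbove] at this
      exact Fin.succAbove_right_injective this
    rw [h2]
  · rw [Fintype.card_prod, Fintype.card_perm, Fintype.card_perm, Fintype.card_fin, Fintype.card_fin,
      Nat.factorial_succ]

/-- The minor. -/
def minor {n : ℕ} (Y : Fin (n + 1) → Fin (n + 1) → ℝ) (i c : Fin (n + 1)) : Fin n → Fin n → ℝ :=
  fun j l => Y (i.succAbove j) (c.succAbove l)

theorem sum_weight {n : ℕ} (Y : Fin (n + 1) → Fin (n + 1) → ℝ) (i : Fin (n + 1)) (g : Fin (n + 1) → ℝ) :
    ∑ σ : Equiv.Perm (Fin (n + 1)), (∏ r, Y r (σ r)) * g (σ i) = ∑ c, Y i c * per (minor Y i c) * g c := by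
  rw [← (ext_bijective i).sum_comp (fun σ => (∏ r, Y r (σ r)) * g (σ i)), Fintype.sum_prod_type]
  refine Finset.sum_congr rfl ?_
  intro c _
  rw [per, Finset.mul_sum, Finset.sum_mul]
  refine Finset.sum_congr rfl ?_
  intro τ _
  rw [ext_self, Fin.prod_univ_succAbove _ i, ext_self]
  simp only [ext_succAbove]
  rfl

theorem per_nonneg {n : ℕ} (Y : Fin n → Fin n → ℝ) (h : ∀ i j, 0 ≤ Y i j) : 0 ≤ per Y :=
  Finset.sum_nonneg (fun σ _ => Finset.prod_nonneg (fun i _ => h _ _))

/-- The log-sum inequality. -/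
theorem log_sum {ι : Type*} [Fintype ι] (a m : ι → ℝ) (ha : ∀ c, 0 ≤ a c) (hm : ∀ c, 0 ≤ m c)
    (hρ : 0 < ∑ c, a c) (hP : 0 < ∑ c, a c * m c) :
    (∑ c, a c * m c) * Real.log (∑ c, a c * m c) ≤
      (∑ c, a c * m c) * Real.log (∑ c, a c) + ∑ c, a c * (m c * Real.log (m c)) := by
  set ρ := ∑ c, a c with hρd
  set P := ∑ c, a c * m c with hPd
  have h1 := Real.convexOn_mul_log.map_sum_le (t := univ) (w := fun c => a c / ρ) (p := m)
    (fun c _ => div_nonneg (ha c) hρ.le) (by rw [← Finset.sum_div, ← hρd, div_self hρ.ne'])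
    (fun c _ => hm c)
  simp only [smul_eq_mul] at h1
  have h2 : ∑ c, a c / ρ * m c = P / ρ := by
    rw [hPd, Finset.sum_div]
    refine Finset.sum_congr rfl ?_
    intro c _
    ring
  have h3 : ∑ c, a c / ρ * (m c * Real.log (m c)) = (∑ c, a c * (m c * Real.log (m c))) / ρ := by
    rw [Finset.sum_div]
    refine Finset.sum_congr rfl ?_
    intro c _
    ring
  rw [h2, h3, Real.log_div hP.ne' hρ.ne'] at h1
  have h4 : P / ρ * (Real.log P - Real.log ρ) = (P * (Real.log P - Real.log ρ)) / ρ := by ring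
  rw [h4, div_le_div_iff_of_pos_right hρ] at h1
  linarith

/-- The auxiliary function. -/
noncomputable def psi (α y x : ℝ) : ℝ := Real.log (x + α * y) - 1 + 1 / (1 + α)

theorem psi_sub_le {α y ρ a : ℝ} (hα : 0 < α) (hy : 0 < y) (ha : 0 ≤ a) (haρ : a ≤ ρ) :
    psi α y (ρ - a) ≤ psi α y ρ - a / (ρ + α * y) := by
  unfold psi
  have hαy : 0 < α * y := mul_pos hα hy
  have hx : 0 < ρ + α * y := by linarith
  have hx' : 0 < ρ - a + α * y := by linarith
  have h1 : Real.log (ρ - a + α * y) - Real.log (ρ + α * y) ≤ - (a / (ρ + α * y)) := by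
    rw [← Real.log_div hx'.ne' hx.ne']
    have h2 : (ρ - a + α * y) / (ρ + α * y) = 1 - a / (ρ + α * y) := by
      field_simp
      ring
    have h3 := Real.log_le_sub_one_of_pos (div_pos hx' hx)
    rw [h2] at h3 ⊢
    linarith
  linarith

theorem psi_key {α y ρ a : ℝ} (hα : 0 < α) (hy : 0 < y) (hρ : 0 < ρ) (haρ : a ≤ ρ) (hay : a ≤ y) :
    Real.log ρ - (ρ - a) / (ρ + α * y) ≤ psi α y ρ := by
  unfold psi
  have hαy : 0 < α * y := mul_pos hα hy
  have hx : 0 < ρ + α * y := by linarith
  have h1α : 0 < 1 + α := by linarith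
  rcases le_total y ρ with h | h
  · -- `y ≤ ρ`
    have h1 : Real.log ρ - Real.log (ρ + α * y) ≤ ρ / (ρ + α * y) - 1 := by
      rw [← Real.log_div hρ.ne' hx.ne']
      exact Real.log_le_sub_one_of_pos (div_pos hρ hx)
    have h2 : y / (ρ + α * y) ≤ 1 / (1 + α) := by
      rw [div_le_div_iff₀ hx h1α]
      nlinarith
    have h3 : ρ / (ρ + α * y) - (ρ - a) / (ρ + α * y) ≤ y / (ρ + α * y) := by
      rw [← sub_div, div_le_div_iff_of_pos_right hx]
      linarith
    linarith
  · -- `ρ ≤ y`
    have h0 : 0 ≤ (ρ - a) / (ρ + α * y) := div_nonneg (by linarith) hx.le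
    have h1 : Real.log ρ - Real.log (ρ + α * y) ≤ - (1 - 1 / (1 + α)) := by
      have h2 : Real.log ρ + Real.log (1 + α) ≤ Real.log (ρ + α * y) := by
        rw [← Real.log_mul hρ.ne' h1α.ne']
        refine Real.log_le_log (by positivity) ?_
        nlinarith
      have h3 : 1 - 1 / (1 + α) ≤ Real.log (1 + α) := by
        have h4 := Real.log_le_sub_one_of_pos (inv_pos.mpr h1α)
        rw [Real.log_inv] at h4
        rw [one_div]
        linarith
      linarith
    linarith

theorem per_le_aux (α y : ℝ) (hα : 0 < α) (hy : 0 < y) : ∀ (n : ℕ) (Y : Fin n → Fin n → ℝ),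
    (∀ i j, 0 ≤ Y i j) → (∀ i j, Y i j ≤ y) → 0 < per Y →
    Real.log (per Y) ≤ ∑ i, psi α y (∑ j, Y i j) := by
  intro n
  induction n with
  | zero =>
    intro Y _ _ _
    simp [per]
  | succ n ih =>
    intro Y h0 hY hP
    set P := per Y with hPdef
    set ρ : Fin (n + 1) → ℝ := fun i => ∑ j, Y i j with hρdef
    have hn : (0 : ℝ) < (n + 1 : ℝ) := by positivity
    -- expansion along row `i`
    have hexp : ∀ i, ∑ c, Y i c * per (minor Y i c) = P := by
      intro i
      have := sum_weight Y i (fun _ => 1)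
      simp only [mul_one] at this
      exact this.symm
    have hρpos : ∀ i, 0 < ρ i := by
      intro i
      by_contra hcon
      push Not at hcon
      have h1 : ∀ j, Y i j = 0 := by
        intro j
        have h2 : ρ i = 0 := le_antisymm hcon (Finset.sum_nonneg (fun j _ => h0 i j))
        exact (Finset.sum_eq_zero_iff_of_nonneg (fun j _ => h0 i j)).mp h2 j (Finset.mem_univ _)
      have h2 := hexp i
      simp only [h1, zero_mul, Finset.sum_const_zero] at h2
      linarith
    have hmin0 : ∀ i c, 0 ≤ per (minor Y i c) := fun i c => per_nonneg _ (fun _ _ => h0 _ _)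
    have hrow : ∀ i, P * Real.log P ≤ P * Real.log (ρ i) +
        ∑ σ : Equiv.Perm (Fin (n + 1)), (∏ r, Y r (σ r)) *
          ∑ j, psi α y (ρ (i.succAbove j) - Y (i.succAbove j) (σ i)) := by
      intro i
      have h1 := log_sum (fun c => Y i c) (fun c => per (minor Y i c)) (h0 i) (hmin0 i) (hρpos i)
        (by rw [hexp i]; exact hP)
      rw [hexp i] at h1
      refine h1.trans ?_
      rw [sum_weight Y i (fun c => ∑ j, psi α y (ρ (i.succAbove j) - Y (i.succAbove j) c))]
      refine add_le_add le_rfl ?_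
      refine Finset.sum_le_sum ?_
      intro c _
      rw [mul_assoc]
      refine mul_le_mul_of_nonneg_left ?_ (h0 i c)
      rcases (hmin0 i c).eq_or_lt with h | h
      · rw [← h]; simp
      · refine mul_le_mul_of_nonneg_left ?_ h.le
        have h2 := ih (minor Y i c) (fun _ _ => h0 _ _) (fun _ _ => hY _ _) h
        refine h2.trans (le_of_eq ?_)
        refine Finset.sum_congr rfl ?_
        intro j _
        congr 1
        rw [hρdef]
        simp only
        rw [Fin.sum_univ_succAbove _ c]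
        simp [minor]
    have hsum := Finset.sum_le_sum (fun i (_ : i ∈ (univ : Finset (Fin (n + 1)))) => hrow i)
    rw [Finset.sum_const, Finset.card_univ, Fintype.card_fin, nsmul_eq_mul, Finset.sum_add_distrib,
      ← Finset.mul_sum, Finset.sum_comm] at hsum
    -- the double sum for a fixed permutation
    have hσ : ∀ σ : Equiv.Perm (Fin (n + 1)),
        ∑ i, Real.log (ρ i) + ∑ i : Fin (n + 1), ∑ j : Fin n, psi α y (ρ (i.succAbove j) - Y (i.succAbove j) (σ i))
          ≤ (n + 1 : ℝ) * ∑ i, psi α y (ρ i) := by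
      intro σ
      have h1 : ∑ i : Fin (n + 1), ∑ j : Fin n, psi α y (ρ (i.succAbove j) - Y (i.succAbove j) (σ i)) =
          ∑ r : Fin (n + 1), ∑ j : Fin n, psi α y (ρ r - Y r (σ (r.succAbove j))) := by
        have h2 : ∀ i : Fin (n + 1), ∑ j : Fin n, psi α y (ρ (i.succAbove j) - Y (i.succAbove j) (σ i)) =
            ∑ r, psi α y (ρ r - Y r (σ i)) - psi α y (ρ i - Y i (σ i)) := by
          intro i
          rw [Fin.sum_univ_succAbove (fun r => psi α y (ρ r - Y r (σ i))) i]
          ring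
        have h3 : ∀ r : Fin (n + 1), ∑ j : Fin n, psi α y (ρ r - Y r (σ (r.succAbove j))) =
            ∑ i, psi α y (ρ r - Y r (σ i)) - psi α y (ρ r - Y r (σ r)) := by
          intro r
          rw [Fin.sum_univ_succAbove (fun i => psi α y (ρ r - Y r (σ i))) r]
          ring
        simp only [h2, h3, Finset.sum_sub_distrib]
        rw [Finset.sum_comm]
      rw [h1, ← Finset.sum_add_distrib, Finset.mul_sum]
      refine Finset.sum_le_sum ?_
      intro r _
      have hle : ∀ c, Y r c ≤ ρ r := fun c =>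
        Finset.single_le_sum (f := fun c => Y r c) (fun c _ => h0 r c) (Finset.mem_univ c)
      have h4 : ∑ j : Fin n, psi α y (ρ r - Y r (σ (r.succAbove j))) ≤
          ∑ j : Fin n, (psi α y (ρ r) - Y r (σ (r.succAbove j)) / (ρ r + α * y)) :=
        Finset.sum_le_sum (fun j _ => psi_sub_le hα hy (h0 _ _) (hle _))
      have h5 : ∑ j : Fin n, (psi α y (ρ r) - Y r (σ (r.succAbove j)) / (ρ r + α * y)) =
          n * psi α y (ρ r) - (ρ r - Y r (σ r)) / (ρ r + α * y) := by
        rw [Finset.sum_sub_distrib, Finset.sum_const, Finset.card_univ, Fintype.card_fin, nsmul_eq_mul,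
          ← Finset.sum_div]
        congr 2
        have h6 : ρ r = ∑ i, Y r (σ i) := (Equiv.sum_comp σ (fun c => Y r c)).symm
        rw [h6, Fin.sum_univ_succAbove _ r]
        ring
      have h7 := psi_key hα hy (hρpos r) (hle (σ r)) (hY r (σ r))
      rw [h5] at h4
      linarith
    have hfin : (n + 1 : ℝ) * (P * Real.log P) ≤ P * ((n + 1 : ℝ) * ∑ i, psi α y (ρ i)) := by
      have h1 : P * ∑ i, Real.log (ρ i) = ∑ σ : Equiv.Perm (Fin (n + 1)), (∏ r, Y r (σ r)) * ∑ i, Real.log (ρ i) := by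
        rw [← Finset.sum_mul]; rfl
      have h2 : ∑ σ : Equiv.Perm (Fin (n + 1)), (∏ r, Y r (σ r)) * ((n + 1 : ℝ) * ∑ i, psi α y (ρ i)) =
          P * ((n + 1 : ℝ) * ∑ i, psi α y (ρ i)) := by
        rw [← Finset.sum_mul]; rfl
      have h3 : ∀ σ : Equiv.Perm (Fin (n + 1)), ∑ i, (∏ r, Y r (σ r)) *
          ∑ j, psi α y (ρ (i.succAbove j) - Y (i.succAbove j) (σ i)) =
          (∏ r, Y r (σ r)) * ∑ i : Fin (n + 1), ∑ j : Fin n, psi α y (ρ (i.succAbove j) - Y (i.succAbove j) (σ i)) := by
        intro σ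
        rw [Finset.mul_sum]
      simp only [h3] at hsum
      rw [h1, ← Finset.sum_add_distrib] at hsum
      push_cast at hsum
      refine hsum.trans ?_
      rw [← h2]
      refine Finset.sum_le_sum ?_
      intro σ _
      rw [← mul_add]
      exact mul_le_mul_of_nonneg_left (hσ σ) (Finset.prod_nonneg (fun _ _ => h0 _ _))
    have h8 : ((n + 1 : ℝ) * P) * Real.log P ≤ ((n + 1 : ℝ) * P) * ∑ i, psi α y (ρ i) := by
      linarith [hfin]
    exact le_of_mul_le_mul_left h8 (mul_pos hn hP)

/-- Upper bound for the permanent. -/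
theorem per_upper {n : ℕ} (Y : Fin n → Fin n → ℝ) (y α : ℝ) (h0 : ∀ i j, 0 ≤ Y i j) (hY : ∀ i j, Y i j ≤ y)
    (hα : 0 < α) (hy : 0 < y) :
    per Y ≤ Real.exp (-(n : ℝ) * (1 - 1 / (1 + α))) * ∏ i, (∑ j, Y i j + α * y) := by
  have hαy : 0 < α * y := mul_pos hα hy
  have hpos : ∀ i, 0 < ∑ j, Y i j + α * y := fun i => by
    have := Finset.sum_nonneg (fun j (_ : j ∈ (univ : Finset (Fin n))) => h0 i j)
    linarith
  rcases (per_nonneg Y h0).eq_or_lt with h | h
  · rw [← h]
    exact mul_nonneg (Real.exp_pos _).le (Finset.prod_nonneg (fun i _ => (hpos i).le))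
  · have h1 := per_le_aux α y hα hy n Y h0 hY h
    have h2 := (Real.log_le_iff_le_exp h).mp h1
    refine h2.trans (le_of_eq ?_)
    rw [Real.exp_sum]
    have h3 : ∀ i, Real.exp (psi α y (∑ j, Y i j)) = (∑ j, Y i j + α * y) * Real.exp (-(1 - 1 / (1 + α))) := by
      intro i
      unfold psi
      rw [show Real.log (∑ j, Y i j + α * y) - 1 + 1 / (1 + α) = Real.log (∑ j, Y i j + α * y) + -(1 - 1 / (1 + α)) by
        ring, Real.exp_add, Real.exp_log (hpos i)]
    simp only [h3]
    rw [Finset.prod_mul_distrib, Finset.prod_const, Finset.card_univ, Fintype.card_fin, ← Real.exp_nat_mul, mul_comm]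
    congr 2
    ring

end Pool.Agent.MP_dc7d7b
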