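import Pool.Agent.Lib.MP_dc7d7b_co.PermLower
import Pool.Agent.Lib.MP_dc7d7b_co.PermUpper

set_option autoImplicit false

/-!
# Exponential moments of random permutations with doubly stochastic weights
-/

namespace Pool.Agent.MP_dc7d7b

open Finset

open Classical in
/-- For a doubly stochastic `X` with entries at most `M / k`: the random permutation with weights
`∏ X i (σ i)` meets the set `V` of cells in a number of cells whose exponential moment is as for independent
choices, up to a factor `exp (k / (1 + α) + α e M)`. -/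
theorem moment {k : ℕ} (hk : 0 < k) (X : Fin k → Fin k → ℝ) (h0 : ∀ i j, 0 ≤ X i j) (hr : ∀ i, ∑ j, X i j = 1)
    (hc : ∀ j, ∑ i, X i j = 1) (M : ℝ) (hM : 0 < M) (hXM : ∀ i j, X i j ≤ M / k) (α : ℝ) (hα : 0 < α)
    (lam : ℝ) (hl0 : 0 ≤ lam) (hl1 : lam ≤ 1) (V : Fin k → Fin k → Prop) :
    ∑ σ : Equiv.Perm (Fin k), (∏ i, X i (σ i)) * Real.exp (lam * (univ.filter (fun i => V i (σ i))).card) ≤
      (∑ σ : Equiv.Perm (Fin k), ∏ i, X i (σ i)) *
        Real.exp (k / (1 + α) + α * Real.exp 1 * M +
          (Real.exp lam - 1) * ∑ i, ∑ j, if V i j then X i j else 0) := by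
  have hk' : (0 : ℝ) < k := by exact_mod_cast hk
  have hexp1 : Real.exp lam ≤ Real.exp 1 := Real.exp_le_exp.mpr hl1
  have hexp0 : 1 ≤ Real.exp lam := Real.one_le_exp hl0
  set Y : Fin k → Fin k → ℝ := fun i j => X i j * (if V i j then Real.exp lam else 1) with hY
  have hY0 : ∀ i j, 0 ≤ Y i j := by
    intro i j
    refine mul_nonneg (h0 i j) ?_
    split_ifs
    · exact (Real.exp_pos _).le
    · exact zero_le_one
  have hYle : ∀ i j, Y i j ≤ Real.exp 1 * M / k := by
    intro i j
    have h1 : (if V i j then Real.exp lam else 1) ≤ Real.exp 1 := by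
      split_ifs
      · exact hexp1
      · linarith
    have h2 : (0 : ℝ) ≤ (if V i j then Real.exp lam else 1) := by
      split_ifs
      · exact (Real.exp_pos _).le
      · exact zero_le_one
    calc Y i j ≤ (M / k) * Real.exp 1 := mul_le_mul (hXM i j) h1 h2 (by positivity)
      _ = _ := by ring
  have hlhs : ∑ σ : Equiv.Perm (Fin k), (∏ i, X i (σ i)) * Real.exp (lam * (univ.filter (fun i => V i (σ i))).card)
      = per Y := by
    unfold per
    refine Finset.sum_congr rfl ?_
    intro σ _
    rw [hY]
    simp only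
    rw [Finset.prod_mul_distrib]
    congr 1
    rw [Finset.prod_ite]
    simp only [Finset.prod_const, one_pow, mul_one]
    rw [← Real.exp_nat_mul]
    congr 1
    ring
  have hrow : ∀ i, ∑ j, Y i j = 1 + (Real.exp lam - 1) * ∑ j, if V i j then X i j else 0 := by
    intro i
    have e : 1 + (Real.exp lam - 1) * (∑ j, if V i j then X i j else 0) =
        ∑ j, X i j + (Real.exp lam - 1) * ∑ j, (if V i j then X i j else 0) := by rw [hr i]
    rw [e, Finset.mul_sum, ← Finset.sum_add_distrib]
    refine Finset.sum_congr rfl ?_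
    intro j _
    rw [hY]
    simp only
    split_ifs <;> ring
  have hup := per_upper Y (Real.exp 1 * M / k) α hY0 hYle hα (by positivity)
  have hlow := perm_lower X h0 hr hc
  rw [hlhs]
  refine hup.trans ?_
  have hprod : ∏ i, (∑ j, Y i j + α * (Real.exp 1 * M / k)) ≤
      Real.exp ((Real.exp lam - 1) * ∑ i, ∑ j, (if V i j then X i j else 0) + α * Real.exp 1 * M) := by
    have h1 : (Real.exp lam - 1) * ∑ i, ∑ j, (if V i j then X i j else 0) + α * Real.exp 1 * M =
        ∑ i : Fin k, ((Real.exp lam - 1) * ∑ j, (if V i j then X i j else 0) + α * (Real.exp 1 * M / k)) := by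
      rw [Finset.sum_add_distrib, ← Finset.mul_sum, Finset.sum_const, Finset.card_univ, Fintype.card_fin,
        nsmul_eq_mul]
      field_simp
    rw [h1, Real.exp_sum]
    refine Finset.prod_le_prod ?_ ?_
    · intro i _
      have : 0 ≤ ∑ j, Y i j := Finset.sum_nonneg (fun j _ => hY0 i j)
      positivity
    · intro i _
      rw [hrow i]
      have := Real.add_one_le_exp ((Real.exp lam - 1) * ∑ j, (if V i j then X i j else 0) + α * (Real.exp 1 * M / k))
      linarith
  calc Real.exp (-(k : ℝ) * (1 - 1 / (1 + α))) * ∏ i, (∑ j, Y i j + α * (Real.exp 1 * M / k))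
      ≤ Real.exp (-(k : ℝ) * (1 - 1 / (1 + α))) *
        Real.exp ((Real.exp lam - 1) * ∑ i, ∑ j, (if V i j then X i j else 0) + α * Real.exp 1 * M) :=
        mul_le_mul_of_nonneg_left hprod (Real.exp_pos _).le
    _ = Real.exp (-(k : ℝ)) * Real.exp (k / (1 + α) + α * Real.exp 1 * M +
          (Real.exp lam - 1) * ∑ i, ∑ j, if V i j then X i j else 0) := by
        rw [← Real.exp_add, ← Real.exp_add]
        congr 1
        ring
    _ ≤ _ := mul_le_mul_of_nonneg_right hlow (Real.exp_pos _).le

end Pool.Agent.MP_dc7d7b
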