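import Pool.Agent.Lib.MP_dc7d7b_co.Uniform
import Pool.Agent.Lib.MP_dc7d7b_co.Moment
import Pool.Agent.Lib.MP_dc7d7b_co.Main

set_option autoImplicit false

/-!
# The greedy procedure with exponential potentials
-/

namespace Pool.Agent.MP_dc7d7b

open Finset

/-- Averaging: some permutation of positive weight satisfies all the bounds. -/
theorem pick {k : ℕ} {V : Type*} (P : Equiv.Perm (Fin k) → ℝ) (hP0 : ∀ σ, 0 ≤ P σ) (hZ : 0 < ∑ σ, P σ)
    (Nb : Finset V) (F : V → Equiv.Perm (Fin k) → ℝ) (F0 : ∀ w σ, 0 ≤ F w σ)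
    (hE : ∀ w ∈ Nb, ∑ σ, P σ * F w σ ≤ ∑ σ, P σ) :
    ∃ σ, 0 < P σ ∧ ∀ w ∈ Nb, F w σ ≤ Nb.card := by
  by_contra hcon
  have h1 : ∀ σ, 0 < P σ → (Nb.card : ℝ) < ∑ w ∈ Nb, F w σ := by
    intro σ hσ
    by_contra h2
    push Not at h2
    refine hcon ⟨σ, hσ, ?_⟩
    intro w hw
    exact (Finset.single_le_sum (f := fun w => F w σ) (fun w _ => F0 w σ) hw).trans h2
  obtain ⟨σ₀, hσ₀⟩ : ∃ σ, 0 < P σ := by
    by_contra h2
    push Not at h2
    have := Finset.sum_nonpos (s := univ) (f := P) (fun σ _ => h2 σ)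
    linarith
  have h2 : ∑ σ, P σ * Nb.card < ∑ σ, P σ * ∑ w ∈ Nb, F w σ := by
    refine Finset.sum_lt_sum ?_ ⟨σ₀, Finset.mem_univ _, ?_⟩
    · intro σ _
      rcases (hP0 σ).eq_or_lt with h | h
      · rw [← h, zero_mul, zero_mul]
      · exact mul_le_mul_of_nonneg_left (h1 σ h).le h.le
    · exact mul_lt_mul_of_pos_left (h1 σ₀ hσ₀) hσ₀
  have h3 : ∑ σ, P σ * ∑ w ∈ Nb, F w σ = ∑ w ∈ Nb, ∑ σ, P σ * F w σ := by
    simp only [Finset.mul_sum]
    rw [Finset.sum_comm]
  have h4 : ∑ w ∈ Nb, ∑ σ, P σ * F w σ ≤ ∑ w ∈ Nb, ∑ σ, P σ := Finset.sum_le_sum hE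
  rw [h3, ← Finset.sum_mul] at h2
  rw [Finset.sum_const, nsmul_eq_mul] at h4
  linarith

/-- Descriptions of block sets with `p` types. -/
abbrev Ty (k p : ℕ) : Type := ((Fin k → Fin p) × (Fin k → Fin p)) × Finset (Fin p × Fin p)

/-- The block set with description `t`. -/
def tyset {k p : ℕ} (t : Ty k p) : Finset (Fin k × Fin k) := blk t.1.1 t.1.2 t.2

/-- The number of cells `(i, ρ (σ i))` in `W`. -/
def hit {k : ℕ} (ρ σ : Equiv.Perm (Fin k)) (W : Finset (Fin k × Fin k)) : ℕ :=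
  (univ.filter (fun i => (i, ρ (σ i)) ∈ W)).card

theorem sum_cells {k : ℕ} (X : Fin k → Fin k → ℝ) (ρ : Equiv.Perm (Fin k)) (W : Finset (Fin k × Fin k)) :
    ∑ i, ∑ j, (if (i, ρ j) ∈ W then X i j else 0) = ∑ e ∈ W, X e.1 (ρ.symm e.2) := by
  have h1 : ∀ i, ∑ j, (if (i, ρ j) ∈ W then X i j else 0) = ∑ j, (if (i, j) ∈ W then X i (ρ.symm j) else 0) := by
    intro i
    rw [← Equiv.sum_comp ρ (fun j => if (i, j) ∈ W then X i (ρ.symm j) else 0)]
    simp
  simp only [h1]
  rw [← Finset.sum_product', Finset.univ_product_univ, ← Finset.sum_filter]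
  congr 1
  ext e
  simp

theorem moment_hit {k : ℕ} (hk : 0 < k) (X : Fin k → Fin k → ℝ) (h0 : ∀ i j, 0 ≤ X i j) (hr : ∀ i, ∑ j, X i j = 1)
    (hc : ∀ j, ∑ i, X i j = 1) (M : ℝ) (hM : 0 < M) (hXM : ∀ i j, X i j ≤ M / k) (α : ℝ) (hα : 0 < α)
    (lam : ℝ) (hl0 : 0 ≤ lam) (hl1 : lam ≤ 1) (ρ : Equiv.Perm (Fin k)) (W : Finset (Fin k × Fin k)) :
    ∑ σ : Equiv.Perm (Fin k), (∏ i, X i (σ i)) * Real.exp (lam * hit ρ σ W) ≤
      (∑ σ : Equiv.Perm (Fin k), ∏ i, X i (σ i)) *
        Real.exp (k / (1 + α) + α * Real.exp 1 * M +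
          (Real.exp lam - 1) * ∑ e ∈ W, X e.1 (ρ.symm e.2)) := by
  classical
  have h1 := moment hk X h0 hr hc M hM hXM α hα lam hl0 hl1 (fun i j => (i, ρ j) ∈ W)
  have h2 : ∀ σ : Equiv.Perm (Fin k), hit ρ σ W = (@Finset.filter (Fin k) (fun i => (i, ρ (σ i)) ∈ W)
      (fun _ => Classical.propDecidable _) univ).card := by
    intro σ
    unfold hit
    congr 1
    ext i
    simp only [Finset.mem_filter]
  have h3 : ∑ i, ∑ j, (@ite ℝ ((i, ρ j) ∈ W) (Classical.propDecidable _) (X i j) 0) =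
      ∑ e ∈ W, X e.1 (ρ.symm e.2) := by
    rw [← sum_cells]
    refine Finset.sum_congr rfl ?_
    intro i _
    refine Finset.sum_congr rfl ?_
    intro j _
    by_cases h : (i, ρ j) ∈ W
    · rw [if_pos h, if_pos h]
    · rw [if_neg h, if_neg h]
  simp only [h2]
  rw [← h3]
  exact h1

theorem card_blk_comp {k p : ℕ} (a b : Fin k → Fin p) (B : Finset (Fin p × Fin p)) (ρ : Equiv.Perm (Fin k)) :
    (blk a (fun j => b (ρ j)) B).card = (blk a b B).card := by
  refine Finset.card_bij (fun e _ => (e.1, ρ e.2)) ?_ ?_ ?_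
  · intro e he
    unfold blk at he ⊢
    rw [Finset.mem_filter] at he ⊢
    exact ⟨Finset.mem_univ _, he.2⟩
  · intro e _ e' _ h
    rw [Prod.mk.injEq] at h
    exact Prod.ext h.1 (ρ.injective h.2)
  · intro e he
    refine ⟨(e.1, ρ.symm e.2), ?_, by simp⟩
    unfold blk at he ⊢
    rw [Finset.mem_filter] at he ⊢
    refine ⟨Finset.mem_univ _, ?_⟩
    simpa using he.2

theorem sum_blk_comp {k p : ℕ} (X : Fin k → Fin k → ℝ) (a b : Fin k → Fin p) (B : Finset (Fin p × Fin p))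
    (ρ : Equiv.Perm (Fin k)) :
    ∑ e ∈ blk a b B, X e.1 (ρ.symm e.2) = ∑ e ∈ blk a (fun j => b (ρ j)) B, X e.1 e.2 := by
  refine Finset.sum_bij (fun e _ => (e.1, ρ.symm e.2)) ?_ ?_ ?_ ?_
  · intro e he
    unfold blk at he ⊢
    rw [Finset.mem_filter] at he ⊢
    refine ⟨Finset.mem_univ _, ?_⟩
    simpa using he.2
  · intro e _ e' _ h
    rw [Prod.mk.injEq] at h
    exact Prod.ext h.1 (ρ.symm.injective h.2)
  · intro e he
    refine ⟨(e.1, ρ e.2), ?_, by simp⟩
    unfold blk at he ⊢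
    rw [Finset.mem_filter] at he ⊢
    exact ⟨Finset.mem_univ _, he.2⟩
  · intro e _
    rfl

/-- A block set with `p` types is a block set with `p' ≥ p` types. -/
theorem blk_mono {k p p' : ℕ} (hp : p ≤ p') (a b : Fin k → Fin p) (B : Finset (Fin p × Fin p)) :
    ∃ (a' b' : Fin k → Fin p') (B' : Finset (Fin p' × Fin p')), blk a b B = blk a' b' B' := by
  classical
  refine ⟨fun i => Fin.castLE hp (a i), fun i => Fin.castLE hp (b i),
    B.image (fun x => (Fin.castLE hp x.1, Fin.castLE hp x.2)), ?_⟩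
  ext e
  unfold blk
  rw [Finset.mem_filter, Finset.mem_filter, Finset.mem_image]
  constructor
  · rintro ⟨h1, h2⟩
    exact ⟨h1, _, h2, rfl⟩
  · rintro ⟨h1, x, hx, h2⟩
    rw [Prod.mk.injEq] at h2
    refine ⟨h1, ?_⟩
    have h3 : x = (a e.1, b e.2) :=
      Prod.ext (Fin.castLE_injective hp h2.1) (Fin.castLE_injective hp h2.2)
    rw [← h3]
    exact hx

theorem sum_le_of_stoch {k : ℕ} (X : Fin k → Fin k → ℝ) (h0 : ∀ i j, 0 ≤ X i j) (hr : ∀ i, ∑ j, X i j = 1)
    (W : Finset (Fin k × Fin k)) : ∑ e ∈ W, X e.1 e.2 ≤ k := by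
  calc ∑ e ∈ W, X e.1 e.2 ≤ ∑ e : Fin k × Fin k, X e.1 e.2 :=
        Finset.sum_le_sum_of_subset_of_nonneg (Finset.subset_univ _) (fun e _ _ => h0 _ _)
    _ = ∑ i, ∑ j, X i j := by rw [Fintype.sum_prod_type]
    _ = k := by simp [hr]

theorem exp_sub_one_le {x : ℝ} (h0 : 0 ≤ x) (h1 : x ≤ 1) : Real.exp x - 1 ≤ x + x ^ 2 := by
  have := Real.abs_exp_sub_one_sub_id_le (x := x) (by rw [abs_of_nonneg h0]; exact h1)
  have h2 := (abs_le.mp this).2
  linarith

section

variable {k : ℕ} {V : Type*} [DecidableEq V]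

/-- The potential of the vertex `w`. -/
noncomputable def pot (G : SimpleGraph V) [DecidableRel G.Adj] (p : V → ℕ) (π : V → V → Equiv.Perm (Fin k))
    (bud : V → V → ℕ → ℝ) (lam : ℝ) (w : V) (S : Finset V) (f : V → Equiv.Perm (Fin k)) : ℝ :=
  ∑ t : Ty k (p w), Real.exp (lam * ∑ u ∈ S.filter (fun u => G.Adj w u),
    ((hit (π u w) (f u) (tyset t) : ℝ) - bud u w (tyset t).card))

variable (G : SimpleGraph V) [DecidableRel G.Adj] (p : V → ℕ) (π : V → V → Equiv.Perm (Fin k))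
    (bud : V → V → ℕ → ℝ) (lam : ℝ)

omit [DecidableEq V] in
theorem pot_nonneg (w : V) (S : Finset V) (f : V → Equiv.Perm (Fin k)) : 0 ≤ pot G p π bud lam w S f :=
  Finset.sum_nonneg (fun _ _ => (Real.exp_pos _).le)

omit [DecidableEq V] in
theorem pot_pos (w : V) (hw : 0 < p w) (S : Finset V) (f : V → Equiv.Perm (Fin k)) :
    0 < pot G p π bud lam w S f := by
  have : NeZero (p w) := ⟨hw.ne'⟩
  exact Finset.sum_pos (fun _ _ => (Real.exp_pos _)) ⟨((fun _ => 0, fun _ => 0), ∅), Finset.mem_univ _⟩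

theorem pot_insert_not_adj {w u : V} (hwu : ¬ G.Adj w u) (S : Finset V) (hu : u ∉ S)
    (f : V → Equiv.Perm (Fin k)) (σ : Equiv.Perm (Fin k)) :
    pot G p π bud lam w (insert u S) (Function.update f u σ) = pot G p π bud lam w S f := by
  unfold pot
  refine Finset.sum_congr rfl ?_
  intro t _
  rw [Finset.filter_insert, if_neg hwu]
  congr 2
  refine Finset.sum_congr rfl ?_
  intro x hx
  rw [Function.update_of_ne]
  rintro rfl
  exact hu (Finset.mem_filter.mp hx).1

theorem pot_insert_adj {w u : V} (hwu : G.Adj w u) (S : Finset V) (hu : u ∉ S)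
    (f : V → Equiv.Perm (Fin k)) (σ : Equiv.Perm (Fin k)) :
    pot G p π bud lam w (insert u S) (Function.update f u σ) =
      ∑ t : Ty k (p w), Real.exp (lam * ∑ u ∈ S.filter (fun u => G.Adj w u),
        ((hit (π u w) (f u) (tyset t) : ℝ) - bud u w (tyset t).card)) *
        (Real.exp (lam * hit (π u w) σ (tyset t)) * Real.exp (- (lam * bud u w (tyset t).card))) := by
  unfold pot
  refine Finset.sum_congr rfl ?_
  intro t _
  rw [Finset.filter_insert, if_pos hwu, Finset.sum_insert, ← Real.exp_add, ← Real.exp_add]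
  · congr 1
    rw [Function.update_self]
    have h1 : ∑ x ∈ S.filter (fun u => G.Adj w u),
        ((hit (π x w) (Function.update f u σ x) (tyset t) : ℝ) - bud x w (tyset t).card) =
        ∑ x ∈ S.filter (fun u => G.Adj w u), ((hit (π x w) (f x) (tyset t) : ℝ) - bud x w (tyset t).card) := by
      refine Finset.sum_congr rfl ?_
      intro x hx
      rw [Function.update_of_ne]
      rintro rfl
      exact hu (Finset.mem_filter.mp hx).1
    rw [h1]
    ring
  · intro h
    exact hu (Finset.mem_filter.mp h).1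

/-- The expected potential does not grow. -/
theorem pot_expect {w u : V} (hwu : G.Adj w u) (S : Finset V) (hu : u ∉ S)
    (f : V → Equiv.Perm (Fin k)) (P : Equiv.Perm (Fin k) → ℝ)
    (hE : ∀ t : Ty k (p w), ∑ σ, P σ * Real.exp (lam * hit (π u w) σ (tyset t)) ≤
      (∑ σ, P σ) * Real.exp (lam * bud u w (tyset t).card)) :
    ∑ σ, P σ * pot G p π bud lam w (insert u S) (Function.update f u σ) ≤
      (∑ σ, P σ) * pot G p π bud lam w S f := by
  have h0 : ∀ σ, P σ * pot G p π bud lam w (insert u S) (Function.update f u σ) =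
      ∑ t : Ty k (p w), P σ * (Real.exp (lam * ∑ u ∈ S.filter (fun u => G.Adj w u),
        ((hit (π u w) (f u) (tyset t) : ℝ) - bud u w (tyset t).card)) *
        (Real.exp (lam * hit (π u w) σ (tyset t)) * Real.exp (- (lam * bud u w (tyset t).card)))) := by
    intro σ
    rw [pot_insert_adj G p π bud lam hwu S hu f, Finset.mul_sum]
  rw [Finset.sum_congr rfl (fun σ _ => h0 σ), Finset.sum_comm]
  unfold pot
  rw [Finset.mul_sum]
  refine Finset.sum_le_sum ?_
  intro t _
  set g := Real.exp (lam * ∑ u ∈ S.filter (fun u => G.Adj w u),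
        ((hit (π u w) (f u) (tyset t) : ℝ) - bud u w (tyset t).card)) with hg
  have hg0 : 0 < g := Real.exp_pos _
  calc ∑ σ, P σ * (g * (Real.exp (lam * hit (π u w) σ (tyset t)) * Real.exp (- (lam * bud u w (tyset t).card))))
      = g * Real.exp (- (lam * bud u w (tyset t).card)) *
        ∑ σ, P σ * Real.exp (lam * hit (π u w) σ (tyset t)) := by
        rw [Finset.mul_sum]
        refine Finset.sum_congr rfl ?_
        intro σ _
        ring
    _ ≤ g * Real.exp (- (lam * bud u w (tyset t).card)) *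
        ((∑ σ, P σ) * Real.exp (lam * bud u w (tyset t).card)) :=
        mul_le_mul_of_nonneg_left (hE t) (by positivity)
    _ = (∑ σ, P σ) * g * (Real.exp (lam * bud u w (tyset t).card) *
        Real.exp (- (lam * bud u w (tyset t).card))) := by ring
    _ = (∑ σ, P σ) * g := by
        rw [← Real.exp_add, add_neg_cancel, Real.exp_zero, mul_one]


omit [DecidableEq V] in
/-- A bound for the potential of `w` gives lower bounds for the number of available cells. -/
theorem avail_of_pot (w : V) (S : Finset V) (f : V → Equiv.Perm (Fin k)) (hlam : 0 < lam) (C : ℝ) (hC : 0 < C)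
    (hpot : pot G p π bud lam w S f ≤ C) (A : Finset (Fin k × Fin k))
    (hA : ∀ e, (∀ x ∈ S, G.Adj w x → π x w (f x e.1) ≠ e.2) → e ∈ A) (t : Ty k (p w)) :
    ((tyset t).card : ℝ) - ∑ x ∈ S.filter (fun u => G.Adj w u), bud x w (tyset t).card - Real.log C / lam ≤
      (A ∩ tyset t).card := by
  set N := S.filter (fun u => G.Adj w u) with hN
  have h1 : Real.exp (lam * ∑ u ∈ N, ((hit (π u w) (f u) (tyset t) : ℝ) - bud u w (tyset t).card)) ≤ C := by
    refine le_trans ?_ hpot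
    unfold pot
    exact Finset.single_le_sum (f := fun t : Ty k (p w) => Real.exp (lam * ∑ u ∈ N,
      ((hit (π u w) (f u) (tyset t) : ℝ) - bud u w (tyset t).card))) (fun _ _ => (Real.exp_pos _).le)
      (Finset.mem_univ t)
  have h2 : lam * ∑ u ∈ N, ((hit (π u w) (f u) (tyset t) : ℝ) - bud u w (tyset t).card) ≤ Real.log C := by
    rw [Real.le_log_iff_exp_le hC]
    exact h1
  have h3 : ∑ u ∈ N, ((hit (π u w) (f u) (tyset t) : ℝ) - bud u w (tyset t).card) ≤ Real.log C / lam := by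
    rw [le_div_iff₀ hlam]
    linarith
  rw [Finset.sum_sub_distrib] at h3
  have h4 : (tyset t).card ≤ (A ∩ tyset t).card + ∑ u ∈ N, hit (π u w) (f u) (tyset t) := by
    have h5 : tyset t ⊆ (A ∩ tyset t) ∪ N.biUnion (fun x => (univ.filter (fun i => (i, π x w (f x i)) ∈ tyset t)).image
        (fun i => (i, π x w (f x i)))) := by
      intro e he
      rw [Finset.mem_union, Finset.mem_inter, Finset.mem_biUnion]
      by_cases heA : e ∈ A
      · exact Or.inl ⟨heA, he⟩
      · right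
        have h6 : ¬ ∀ x ∈ S, G.Adj w x → π x w (f x e.1) ≠ e.2 := fun h => heA (hA e h)
        push Not at h6
        obtain ⟨x, hx, hwx, h7⟩ := h6
        refine ⟨x, ?_, ?_⟩
        · rw [hN, Finset.mem_filter]
          exact ⟨hx, hwx⟩
        · rw [Finset.mem_image]
          refine ⟨e.1, ?_, ?_⟩
          · rw [Finset.mem_filter, h7]
            exact ⟨Finset.mem_univ _, he⟩
          · rw [h7]
    refine (Finset.card_le_card h5).trans ((Finset.card_union_le _ _).trans ?_)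
    refine Nat.add_le_add_left ?_ _
    refine Finset.card_biUnion_le.trans ?_
    refine Finset.sum_le_sum ?_
    intro x _
    exact Finset.card_image_le
  have h5 : ((tyset t).card : ℝ) ≤ (A ∩ tyset t).card + ∑ u ∈ N, (hit (π u w) (f u) (tyset t) : ℝ) := by
    exact_mod_cast h4
  linarith

end

/-- The budget. -/
noncomputable def budget {V : Type*} (k : ℕ) (c : V → ℕ) (M e₂ : ℝ) (e₁ : ℕ → ℝ) (u w : V) (x : ℕ) : ℝ :=
  if c u = c w then 2 * M * x / k + e₂ * k else x / k + e₁ (c w) * k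

theorem budget_sum {V : Type*} (k : ℕ) (c : V → ℕ) (M e₂ : ℝ) (e₁ : ℕ → ℝ) (w : V) (x : ℕ) (N : Finset V)
    (he₂ : 0 ≤ e₂) (he₁ : 0 ≤ e₁ (c w)) :
    ∑ u ∈ N, budget k c M e₂ e₁ u w x ≤
      (N.filter (fun u => c u = c w)).card * (2 * M * x / k) + N.card * (x / k) + N.card * ((e₁ (c w) + e₂) * k) := by
  have h1 : ∀ u ∈ N, budget k c M e₂ e₁ u w x ≤
      (if c u = c w then 2 * M * x / k else 0) + (x / k + (e₁ (c w) + e₂) * k) := by
    intro u _
    unfold budget
    have h2 : (0 : ℝ) ≤ x / k := by positivity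
    have h3 : 0 ≤ e₁ (c w) * k := by positivity
    have h4 : 0 ≤ e₂ * k := by positivity
    split_ifs
    · linarith
    · linarith
  refine (Finset.sum_le_sum h1).trans (le_of_eq ?_)
  rw [Finset.sum_add_distrib, Finset.sum_const, nsmul_eq_mul, ← Finset.sum_filter, Finset.sum_const, nsmul_eq_mul]
  ring

end Pool.Agent.MP_dc7d7b
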