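import Mathlib

set_option autoImplicit false

/-!
# Extending a packing to one vertex and to an edge

`D : α → α → Prop` is a set of forbidden cells of a square array with `card α = 2 d`, such that every row and
every column contains at most `d` forbidden cells.

* `exists_perm` : there is a permutation avoiding `D`.
* `exists_pair` : for two such sets `D₁, D₂` (and `d ≥ 3`) there are two permutations `σ, τ` with `σ` avoiding `D₁`,
  `τ` avoiding `D₂` and `σ i ≠ τ i` for all `i`.
-/

namespace Pool.Agent.MP_dc7d7b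

open Finset

variable {α : Type*} [Fintype α] [DecidableEq α]

open Classical in
/-- Every row and every column of `D` has at most `d` elements. -/
def Deg (d : ℕ) (D : α → α → Prop) : Prop :=
  (∀ i, (univ.filter (fun c => D i c)).card ≤ d) ∧ (∀ c, (univ.filter (fun i => D i c)).card ≤ d)

open Classical in
/-- Hall's theorem for permutations avoiding `D`. -/
theorem hall (D : α → α → Prop)
    (h : ¬ ∃ σ : Equiv.Perm α, ∀ i, ¬ D i (σ i)) :
    ∃ R C : Finset α, R.card + C.card = Fintype.card α + 1 ∧ ∀ i ∈ R, ∀ c ∈ C, D i c := by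
  classical
  have h1 : ¬ ∀ s : Finset α, s.card ≤ (s.biUnion (fun i => univ.filter (fun c => ¬ D i c))).card := by
    intro hs
    obtain ⟨f, hf, hf2⟩ := (Finset.all_card_le_biUnion_card_iff_exists_injective _).mp hs
    refine h ⟨Equiv.ofBijective f ((Fintype.bijective_iff_injective_and_card f).mpr ⟨hf, rfl⟩), ?_⟩
    intro i
    have := hf2 i
    simpa using this
  push Not at h1
  obtain ⟨s, hs⟩ := h1
  set T := s.biUnion (fun i => univ.filter (fun c => ¬ D i c)) with hT
  have hTc : T.card + Tᶜ.card = Fintype.card α := Finset.card_add_card_compl T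
  have hs1 : 0 < s.card := by omega
  have hle : Fintype.card α + 1 - s.card ≤ Tᶜ.card := by omega
  obtain ⟨C, hC, hCc⟩ := Finset.exists_subset_card_eq hle
  refine ⟨s, C, ?_, ?_⟩
  · have : s.card ≤ Fintype.card α := Finset.card_le_univ s
    omega
  · intro i hi c hc
    by_contra hn
    have h2 : c ∈ T := by
      rw [hT, Finset.mem_biUnion]
      exact ⟨i, hi, by simpa using hn⟩
    exact (Finset.mem_compl.mp (hC hc)) h2

open Classical in
theorem exists_perm {d : ℕ} (hα : Fintype.card α = 2 * d) {D : α → α → Prop} (hD : Deg d D) :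
    ∃ σ : Equiv.Perm α, ∀ i, ¬ D i (σ i) := by
  by_contra h
  obtain ⟨R, C, hRC, hb⟩ := hall D h
  have h1 : R.card ≤ Fintype.card α := Finset.card_le_univ R
  have h2 : C.card ≤ Fintype.card α := Finset.card_le_univ C
  obtain ⟨r, hr⟩ : R.Nonempty := by
    rw [← Finset.card_pos]; omega
  obtain ⟨c, hc⟩ : C.Nonempty := by
    rw [← Finset.card_pos]; omega
  have h3 : C.card ≤ d := by
    refine le_trans (Finset.card_le_card ?_) (hD.1 r)
    intro x hx
    simpa using hb r hr x hx
  have h4 : R.card ≤ d := by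
    refine le_trans (Finset.card_le_card ?_) (hD.2 c)
    intro x hx
    simpa using hb x hx c hc
  omega

/-- The cells of `D` and of the permutation `σ` fill a block with `card R + card C = 2 d + 1`. -/
def Bad (D : α → α → Prop) (σ : Equiv.Perm α) (R C : Finset α) : Prop :=
  R.card + C.card = Fintype.card α + 1 ∧ ∀ i ∈ R, ∀ c ∈ C, D i c ∨ σ i = c

/-- A bad block with `d` rows and `d + 1` columns. -/
structure RowBad (d : ℕ) (D : α → α → Prop) (σ : Equiv.Perm α) (R C : Finset α) : Prop where
  cR : R.card = d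
  cC : C.card = d + 1
  mem : ∀ r ∈ R, σ r ∈ C
  iff : ∀ r ∈ R, ∀ c, D r c ↔ (c ∈ C ∧ c ≠ σ r)

/-- The transposed array. -/
def tr (D : α → α → Prop) : α → α → Prop := fun i c => D c i

omit [DecidableEq α] in
theorem Deg.tr {d : ℕ} {D : α → α → Prop} (h : Deg d D) : Deg d (tr D) := ⟨h.2, h.1⟩

open Classical in
theorem rowBad_of_bad {d : ℕ} {D : α → α → Prop} (hD : Deg d D) {σ : Equiv.Perm α} {R C : Finset α}
    (hR : R.card = d) (hC : C.card = d + 1) (hb : ∀ i ∈ R, ∀ c ∈ C, D i c ∨ σ i = c) :
    RowBad d D σ R C := by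
  refine ⟨hR, hC, ?_, ?_⟩
  · intro r hr
    by_contra hn
    have h1 : C ⊆ univ.filter (fun c => D r c) := by
      intro c hc
      rcases hb r hr c hc with h | h
      · simpa using h
      · exact absurd (h ▸ hc) hn
    have := (Finset.card_le_card h1).trans (hD.1 r)
    omega
  · intro r hr
    have h1 : C ⊆ insert (σ r) (univ.filter (fun c => D r c)) := by
      intro c hc
      rcases hb r hr c hc with h | h
      · simp [h]
      · simp [h]
    have h2 : (insert (σ r) (univ.filter (fun c => D r c))).card ≤ d + 1 :=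
      (Finset.card_insert_le _ _).trans (Nat.add_le_add_right (hD.1 r) 1)
    have h3 : C = insert (σ r) (univ.filter (fun c => D r c)) :=
      Finset.eq_of_subset_of_card_le h1 (by omega)
    have h4 : ¬ D r (σ r) := by
      intro h
      have h5 : insert (σ r) (univ.filter (fun c => D r c)) = univ.filter (fun c => D r c) := by
        apply Finset.insert_eq_of_mem
        simpa using h
      rw [h5] at h3
      have := hD.1 r
      rw [← h3] at this
      omega
    intro c
    constructor
    · intro h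
      refine ⟨?_, ?_⟩
      · rw [h3]; simp [h]
      · rintro rfl
        exact h4 h
    · rintro ⟨h, h'⟩
      rw [h3] at h
      simpa [h'] using h

open Classical in
/-- Every bad block has one of the two shapes. -/
theorem bad_cases {d : ℕ} (hα : Fintype.card α = 2 * d) {D : α → α → Prop} (hD : Deg d D)
    {σ : Equiv.Perm α} {R C : Finset α} (hb : Bad D σ R C) :
    RowBad d D σ R C ∨ RowBad d (tr D) σ.symm C R := by
  obtain ⟨hc, hb⟩ := hb
  have h1 : R.card ≤ Fintype.card α := Finset.card_le_univ R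
  have h2 : C.card ≤ Fintype.card α := Finset.card_le_univ C
  obtain ⟨r, hr⟩ : R.Nonempty := by
    rw [← Finset.card_pos]; omega
  obtain ⟨c, hc'⟩ : C.Nonempty := by
    rw [← Finset.card_pos]; omega
  have h3 : C.card ≤ d + 1 := by
    have h5 : C ⊆ insert (σ r) (univ.filter (fun c => D r c)) := by
      intro x hx
      rcases hb r hr x hx with h | h
      · simp [h]
      · simp [h]
    have := (Finset.card_le_card h5).trans (Finset.card_insert_le _ _)
    have := hD.1 r
    omega
  have h4 : R.card ≤ d + 1 := by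
    have h5 : R ⊆ insert (σ.symm c) (univ.filter (fun i => D i c)) := by
      intro x hx
      rcases hb x hx c hc' with h | h
      · simp [h]
      · simp [← h]
    have := (Finset.card_le_card h5).trans (Finset.card_insert_le _ _)
    have := hD.2 c
    omega
  rcases (show R.card = d ∨ R.card = d + 1 by omega) with h | h
  · exact Or.inl (rowBad_of_bad hD h (by omega) hb)
  · refine Or.inr (rowBad_of_bad hD.tr (by omega) h ?_)
    intro c hc i hi
    rcases hb i hi c hc with h | h
    · exact Or.inl h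
    · exact Or.inr (by rw [← h]; simp)

open Classical in
theorem RowBad.col {d : ℕ} {D : α → α → Prop} {σ : Equiv.Perm α} {R C : Finset α} (h : RowBad d D σ R C)
    {c : α} (hc : c ∈ C) : R.erase (σ.symm c) ⊆ univ.filter (fun i => D i c) := by
  intro r hr
  rw [Finset.mem_erase] at hr
  simp only [Finset.mem_filter, Finset.mem_univ, true_and]
  rw [h.iff r hr.2]
  refine ⟨hc, ?_⟩
  rintro rfl
  simp at hr

open Classical in
theorem rr {d : ℕ} (hα : Fintype.card α = 2 * d) (hd : 3 ≤ d) {D : α → α → Prop} (hD : Deg d D)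
    {σ σ' : Equiv.Perm α} {R C R' C' : Finset α} (h : RowBad d D σ R C) (h' : RowBad d D σ' R' C')
    {i j : α} (hi : i ∈ R) (hj : j ∈ R) (hij : i ≠ j) : σ' i = σ i ∨ σ' j = σ j := by
  -- a common column
  obtain ⟨c, hc⟩ : (C ∩ C').Nonempty := by
    rw [← Finset.card_pos]
    have h1 := Finset.card_union_add_card_inter C C'
    have h2 : (C ∪ C').card ≤ Fintype.card α := Finset.card_le_univ _
    have := h.cC
    have := h'.cC
    omega
  rw [Finset.mem_inter] at hc
  -- common rows
  have hRR : ∀ c, c ∈ C → c ∈ C' → d ≤ (R ∩ R').card + 2 := by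
    intro c hc1 hc2
    have h1 : R.erase (σ.symm c) ∪ R'.erase (σ'.symm c) ⊆ univ.filter (fun i => D i c) :=
      Finset.union_subset (h.col hc1) (h'.col hc2)
    have h2 := (Finset.card_le_card h1).trans (hD.2 c)
    have h3 : R ∪ R' ⊆ insert (σ.symm c) (insert (σ'.symm c) (R.erase (σ.symm c) ∪ R'.erase (σ'.symm c))) := by
      intro x hx
      simp only [Finset.mem_insert, Finset.mem_union, Finset.mem_erase] at *
      tauto
    have h4 := (Finset.card_le_card h3).trans (Finset.card_insert_le _ _)
    have h5 := Finset.card_insert_le (σ'.symm c) (R.erase (σ.symm c) ∪ R'.erase (σ'.symm c))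
    have h6 := Finset.card_union_add_card_inter R R'
    have := h.cR
    have := h'.cR
    omega
  obtain ⟨r0, hr0⟩ : (R ∩ R').Nonempty := by
    rw [← Finset.card_pos]
    have := hRR c hc.1 hc.2
    omega
  -- elements of C outside C' are `σ r` for every common row
  have hout : ∀ r ∈ R ∩ R', ∀ x ∈ C, x ∉ C' → x = σ r := by
    intro r hr x hx hx'
    rw [Finset.mem_inter] at hr
    by_contra hne
    have h1 : D r x := (h.iff r hr.1 x).mpr ⟨hx, hne⟩
    exact hx' ((h'.iff r hr.2 x).mp h1).1
  -- the column of C not met by σ(R)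
  obtain ⟨c0, hc0, hc0'⟩ : ∃ c0 ∈ C, c0 ∉ R.image σ := by
    have h1 : (R.image σ).card < C.card := by
      rw [Finset.card_image_of_injective _ σ.injective, h.cR, h.cC]; omega
    obtain ⟨x, hx, hx'⟩ := Finset.exists_mem_notMem_of_card_lt_card h1
    exact ⟨x, hx, hx'⟩
  have hc0C' : c0 ∈ C' := by
    by_contra hn
    have h1 := hout r0 hr0 c0 hc0 hn
    exact hc0' (h1 ▸ Finset.mem_image_of_mem σ (Finset.mem_inter.mp hr0).1)
  have hcol : univ.filter (fun i => D i c0) = R := by
    symm
    apply Finset.eq_of_subset_of_card_le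
    · intro r hr
      simp only [Finset.mem_filter, Finset.mem_univ, true_and]
      rw [h.iff r hr]
      refine ⟨hc0, ?_⟩
      rintro rfl
      exact hc0' (Finset.mem_image_of_mem σ hr)
    · rw [h.cR]; exact hD.2 c0
  have hsub : R'.erase (σ'.symm c0) ⊆ R ∩ R' := by
    intro x hx
    have h1 := h'.col hc0C' hx
    rw [hcol] at h1
    exact Finset.mem_inter.mpr ⟨h1, Finset.mem_of_mem_erase hx⟩
  have hcard : d ≤ (R ∩ R').card + 1 := by
    have h1 := Finset.card_le_card hsub
    have h2 : R'.card ≤ (R'.erase (σ'.symm c0)).card + 1 := by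
      have := Finset.pred_card_le_card_erase (s := R') (a := σ'.symm c0)
      omega
    have := h'.cR
    omega
  -- C ⊆ C'
  have hCC : C ⊆ C' := by
    intro x hx
    by_contra hn
    have h1 : 1 < (R ∩ R').card := by omega
    obtain ⟨a, ha, b, hb, hab⟩ := Finset.one_lt_card.mp h1
    exact hab (σ.injective ((hout a ha x hx hn).symm.trans (hout b hb x hx hn)))
  have hEq : C = C' := Finset.eq_of_subset_of_card_le hCC (by rw [h.cC, h'.cC])
  -- one of i, j is in R'
  have hmem : i ∈ R' ∨ j ∈ R' := by
    by_contra hn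
    push Not at hn
    have h1 : insert i (insert j (R ∩ R')) ⊆ R := by
      intro x hx
      simp only [Finset.mem_insert, Finset.mem_inter] at hx
      rcases hx with rfl | rfl | hx
      · exact hi
      · exact hj
      · exact hx.1
    have h2 := Finset.card_le_card h1
    rw [Finset.card_insert_of_notMem, Finset.card_insert_of_notMem, h.cR] at h2
    · omega
    · simp [hn.2]
    · simp [hn.1, hij]
  have key : ∀ x, x ∈ R → x ∈ R' → σ' x = σ x := by
    intro x hx hx'
    by_contra hne
    have h1 : D x (σ x) := by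
      rw [h'.iff x hx']
      exact ⟨hEq ▸ h.mem x hx, fun h => hne h.symm⟩
    exact ((h.iff x hx _).mp h1).2 rfl
  rcases hmem with h1 | h1
  · exact Or.inl (key i hi h1)
  · exact Or.inr (key j hj h1)

open Classical in
theorem rc_sub {d : ℕ} (hα : Fintype.card α = 2 * d) (hd : 3 ≤ d) {D : α → α → Prop}
    {σ σ' : Equiv.Perm α} {R C R' C' : Finset α} (h : RowBad d D σ R C)
    (h' : RowBad d (tr D) σ'.symm C' R') : C' ⊆ C ∧ R ⊆ R' := by
  have hcolsub : ∀ c ∈ C', ∀ i, D i c → i ∈ R' := fun c hc i hi => ((h'.iff c hc i).mp hi).1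
  have h1 : C' ⊆ C := by
    intro c hc
    by_contra hn
    have hdis : ∀ r ∈ R, ¬ D r c := fun r hr hD' => hn ((h.iff r hr c).mp hD').1
    -- R ∩ R' ⊆ {σ'.symm c}
    have h2 : R ∩ R' ⊆ {σ'.symm c} := by
      intro x hx
      rw [Finset.mem_inter] at hx
      by_contra hne
      rw [Finset.mem_singleton] at hne
      exact hdis x hx.1 ((h'.iff c hc x).mpr ⟨hx.2, hne⟩)
    have h3 := Finset.card_le_card h2
    rw [Finset.card_singleton] at h3
    obtain ⟨c', hc'⟩ : (C ∩ C').Nonempty := by
      rw [← Finset.card_pos]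
      have h1 := Finset.card_union_add_card_inter C C'
      have h2 : (C ∪ C').card ≤ Fintype.card α := Finset.card_le_univ _
      have := h.cC
      have := h'.cR
      omega
    rw [Finset.mem_inter] at hc'
    have h4 : R.erase (σ.symm c') ⊆ R ∩ R' := by
      intro x hx
      have h5 := h.col hc'.1 hx
      simp only [Finset.mem_filter, Finset.mem_univ, true_and] at h5
      exact Finset.mem_inter.mpr ⟨Finset.mem_of_mem_erase hx, hcolsub c' hc'.2 x h5⟩
    have h5 := Finset.card_le_card h4
    have h6 := Finset.pred_card_le_card_erase (s := R) (a := σ.symm c')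
    have := h.cR
    omega
  refine ⟨h1, ?_⟩
  intro r hr
  by_contra hn
  have h2 : C' ⊆ {σ r} := by
    intro c hc
    by_contra hne
    rw [Finset.mem_singleton] at hne
    exact hn (hcolsub c hc r ((h.iff r hr c).mpr ⟨h1 hc, hne⟩))
  have h3 := Finset.card_le_card h2
  rw [Finset.card_singleton, h'.cR] at h3
  omega

open Classical in
theorem rc {d : ℕ} (hα : Fintype.card α = 2 * d) (hd : 3 ≤ d) {D : α → α → Prop}
    {σ σ' : Equiv.Perm α} {R C R' C' : Finset α} (h : RowBad d D σ R C)
    (h' : RowBad d (tr D) σ'.symm C' R')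
    {i j : α} (hi : i ∈ R) (hj : j ∈ R) (hij : i ≠ j) : σ' i = σ i ∨ σ' j = σ j := by
  obtain ⟨hC, hR⟩ := rc_sub hα hd h h'
  have hmem : σ i ∈ C' ∨ σ j ∈ C' := by
    by_contra hn
    push Not at hn
    have h1 : insert (σ i) (insert (σ j) C') ⊆ C := by
      intro x hx
      simp only [Finset.mem_insert] at hx
      rcases hx with rfl | rfl | hx
      · exact h.mem i hi
      · exact h.mem j hj
      · exact hC hx
    have h2 := Finset.card_le_card h1
    rw [Finset.card_insert_of_notMem, Finset.card_insert_of_notMem, h.cC, h'.cR] at h2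
    · omega
    · exact hn.2
    · simp [hn.1, hij]
  have key : ∀ x, x ∈ R → σ x ∈ C' → σ' x = σ x := by
    intro x hx hx'
    by_contra hne
    have h1 : D x (σ x) := by
      have := (h'.iff (σ x) hx' x).mpr ⟨hR hx, ?_⟩
      · exact this
      · intro h2
        exact hne ((Equiv.eq_symm_apply σ').mp h2)
    exact ((h.iff x hx _).mp h1).2 rfl
  rcases hmem with h1 | h1
  · exact Or.inl (key i hi h1)
  · exact Or.inr (key j hj h1)

/-- Two bad permutations agree on one of any two cells of the first one. -/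
theorem bad_bad {d : ℕ} (hα : Fintype.card α = 2 * d) (hd : 3 ≤ d) {D : α → α → Prop} (hD : Deg d D)
    {σ σ' : Equiv.Perm α} {R C R' C' : Finset α} (h : Bad D σ R C) (h' : Bad D σ' R' C')
    {i j : α} (hi : i ∈ R) (hi2 : σ i ∈ C) (hj : j ∈ R) (hj2 : σ j ∈ C) (hij : i ≠ j) :
    σ' i = σ i ∨ σ' j = σ j := by
  have key : ∀ x, σ'.symm (σ x) = σ.symm (σ x) → σ' x = σ x := by
    intro x hx
    have h1 : σ'.symm (σ x) = x := by simpa using hx
    exact ((Equiv.symm_apply_eq σ').mp h1).symm
  rcases bad_cases hα hD h with h1 | h1 <;> rcases bad_cases hα hD h' with h2 | h2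
  · exact rr hα hd hD h1 h2 hi hj hij
  · exact rc hα hd h1 h2 hi hj hij
  · have := rc (D := tr D) (σ := σ.symm) (σ' := σ'.symm) hα hd h1 (show RowBad d (tr (tr D)) σ'.symm.symm R' C' from h2) hi2 hj2
      (fun h => hij (σ.injective h))
    rcases this with h3 | h3
    · exact Or.inl (key i h3)
    · exact Or.inr (key j h3)
  · have := rr (D := tr D) (σ := σ.symm) (σ' := σ'.symm) hα hd hD.tr h1 h2 hi2 hj2
      (fun h => hij (σ.injective h))
    rcases this with h3 | h3
    · exact Or.inl (key i h3)
    · exact Or.inr (key j h3)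

open Classical in
/-- A permutation avoiding `D` and two further cells in different rows and columns. -/
theorem exists_perm_two {d : ℕ} (hα : Fintype.card α = 2 * d) (hd : 3 ≤ d) {D : α → α → Prop} (hD : Deg d D)
    {i j a b : α} (hij : i ≠ j) (hab : a ≠ b) :
    ∃ σ : Equiv.Perm α, (∀ x, ¬ D x (σ x)) ∧ σ i ≠ a ∧ σ j ≠ b := by
  by_contra hcon
  obtain ⟨R, C, hRC, hb⟩ := hall (fun x y => D x y ∨ (x = i ∧ y = a) ∨ (x = j ∧ y = b)) (by
    rintro ⟨σ, hσ⟩
    refine hcon ⟨σ, fun x h => hσ x (Or.inl h), fun h => hσ i (Or.inr (Or.inl ⟨rfl, h⟩)),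
      fun h => hσ j (Or.inr (Or.inr ⟨rfl, h⟩))⟩)
  have h1 : R.card ≤ Fintype.card α := Finset.card_le_univ R
  have h2 : C.card ≤ Fintype.card α := Finset.card_le_univ C
  -- rows different from i, j
  have hrow : ∀ r ∈ R, r ≠ i → r ≠ j → C.card ≤ d := by
    intro r hr hri hrj
    refine le_trans (Finset.card_le_card ?_) (hD.1 r)
    intro x hx
    rcases hb r hr x hx with h | h | h
    · simpa using h
    · exact absurd h.1 hri
    · exact absurd h.1 hrj
  have hcol : ∀ c ∈ C, c ≠ a → c ≠ b → R.card ≤ d := by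
    intro c hc hca hcb
    refine le_trans (Finset.card_le_card ?_) (hD.2 c)
    intro x hx
    rcases hb x hx c hc with h | h | h
    · simpa using h
    · exact absurd h.2 hca
    · exact absurd h.2 hcb
  have hrow' : ∀ r ∈ R, C.card ≤ d + 1 := by
    intro r hr
    have h5 : C ⊆ insert (if r = i then a else b) (univ.filter (fun c => D r c)) := by
      intro x hx
      rcases hb r hr x hx with h | h | h
      · simp [h]
      · simp [h.1, h.2]
      · have : ¬ j = i := fun h => hij h.symm
        simp [h.1, h.2, this]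
    have := (Finset.card_le_card h5).trans (Finset.card_insert_le _ _)
    have := hD.1 r
    omega
  have hcol' : ∀ c ∈ C, R.card ≤ d + 1 := by
    intro c hc
    have h5 : R ⊆ insert (if c = a then i else j) (univ.filter (fun r => D r c)) := by
      intro x hx
      rcases hb x hx c hc with h | h | h
      · simp [h]
      · simp [h.1, h.2]
      · have : ¬ b = a := fun h => hab h.symm
        simp [h.1, h.2, this]
    have := (Finset.card_le_card h5).trans (Finset.card_insert_le _ _)
    have := hD.2 c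
    omega
  obtain ⟨r, hr⟩ : R.Nonempty := by
    rw [← Finset.card_pos]; omega
  obtain ⟨c, hc⟩ : C.Nonempty := by
    rw [← Finset.card_pos]; omega
  have h3 := hrow' r hr
  have h4 := hcol' c hc
  have h5 : 2 < R.card := by omega
  have h6 : 2 < C.card := by omega
  obtain ⟨r', hr', hr2⟩ : ∃ r' ∈ R, r' ∉ ({i, j} : Finset α) := by
    apply Finset.exists_mem_notMem_of_card_lt_card
    exact lt_of_le_of_lt Finset.card_le_two h5
  obtain ⟨c', hc', hc2⟩ : ∃ c' ∈ C, c' ∉ ({a, b} : Finset α) := by
    apply Finset.exists_mem_notMem_of_card_lt_card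
    exact lt_of_le_of_lt Finset.card_le_two h6
  simp only [Finset.mem_insert, Finset.mem_singleton, not_or] at hr2 hc2
  have h7 := hrow r' hr' hr2.1 hr2.2
  have h8 := hcol c' hc' hc2.1 hc2.2
  omega

open Classical in
/-- Two permutations avoiding `D₁`, `D₂` and each other. -/
theorem exists_pair {d : ℕ} (hα : Fintype.card α = 2 * d) (hd : 3 ≤ d) {D₁ D₂ : α → α → Prop}
    (hD₁ : Deg d D₁) (hD₂ : Deg d D₂) :
    ∃ σ τ : Equiv.Perm α, (∀ x, ¬ D₁ x (σ x)) ∧ (∀ x, ¬ D₂ x (τ x)) ∧ ∀ x, σ x ≠ τ x := by
  by_contra hcon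
  have hbad : ∀ σ : Equiv.Perm α, (∀ x, ¬ D₁ x (σ x)) → ∃ R C, Bad D₂ σ R C := by
    intro σ hσ
    obtain ⟨R, C, h1, h2⟩ := hall (fun x y => D₂ x y ∨ σ x = y) (by
      rintro ⟨τ, hτ⟩
      exact hcon ⟨σ, τ, hσ, fun x h => hτ x (Or.inl h), fun x h => hτ x (Or.inr h)⟩)
    exact ⟨R, C, h1, h2⟩
  obtain ⟨σ, hσ⟩ := exists_perm hα hD₁
  obtain ⟨R, C, hb⟩ := hbad σ hσ
  -- two cells of the bad set
  obtain ⟨i, hi, hi2, j, hj, hj2, hij⟩ : ∃ i, i ∈ R ∧ σ i ∈ C ∧ ∃ j, j ∈ R ∧ σ j ∈ C ∧ i ≠ j := by
    rcases bad_cases hα hD₂ hb with h | h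
    · have h1 : 1 < R.card := by rw [h.cR]; omega
      obtain ⟨i, hi, j, hj, hij⟩ := Finset.one_lt_card.mp h1
      exact ⟨i, hi, h.mem i hi, j, hj, h.mem j hj, hij⟩
    · have h1 : 1 < C.card := by rw [h.cR]; omega
      obtain ⟨i, hi, j, hj, hij⟩ := Finset.one_lt_card.mp h1
      refine ⟨σ.symm i, h.mem i hi, by simpa using hi, σ.symm j, h.mem j hj, by simpa using hj, ?_⟩
      exact fun h => hij (σ.symm.injective h)
  obtain ⟨σ', hσ', h1, h2⟩ := exists_perm_two hα hd hD₁ (i := i) (j := j) (a := σ i) (b := σ j) hij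
    (fun h => hij (σ.injective h))
  obtain ⟨R', C', hb'⟩ := hbad σ' hσ'
  rcases bad_bad hα hd hD₂ hb hb' hi hi2 hj hj2 hij with h | h
  · exact h1 h
  · exact h2 h

end Pool.Agent.MP_dc7d7b
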