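import Mathlib

set_option autoImplicit false

/-!
# The permanent of a doubly stochastic `n × n` matrix is at least `exp (-n)`

The proof follows Gurvits: strictly stable homogeneous polynomials and their capacity.
-/

namespace Pool.Agent.MP_dc7d7b

open MvPolynomial Finset

/-! ### One variable -/

/-- If all roots of `R` have negative real part, `R 0 ≠ 0` and `R` is not constant, then the coefficient of
`X` does not vanish. -/
theorem coeff_one_ne_zero (R : Polynomial ℂ) (h0 : R.eval 0 ≠ 0) (hroot : ∀ z ∈ R.roots, z.re < 0)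
    (hne : R.roots ≠ 0) : R.coeff 1 ≠ 0 := by
  have hs := (IsAlgClosed.splits R).eval_derivative_eq_eval_mul_sum h0
  have h1 : (Polynomial.derivative R).eval 0 = R.coeff 1 := by
    rw [← Polynomial.coeff_zero_eq_eval_zero, Polynomial.coeff_derivative]
    simp
  rw [h1] at hs
  rw [hs]
  refine mul_ne_zero h0 ?_
  intro hsum
  have hre : 0 < (R.roots.map (fun z => 1 / (0 - z))).sum.re := by
    have : ∀ s : Multiset ℂ, (∀ z ∈ s, z.re < 0) → s ≠ 0 → 0 < (s.map (fun z => 1 / (0 - z))).sum.re := by
      intro s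
      induction s using Multiset.induction with
      | empty => intro _ h; exact absurd rfl h
      | cons a s ih =>
        intro hs _
        have ha : 0 < (1 / (0 - a)).re := by
          have ha' := hs a (Multiset.mem_cons_self a s)
          rw [one_div, zero_sub, Complex.inv_re]
          refine div_pos ?_ ?_
          · simpa using ha'
          · rw [Complex.normSq_pos]
            intro h
            have : a = 0 := by simpa using h
            rw [this] at ha'
            simp at ha'
        rw [Multiset.map_cons, Multiset.sum_cons, Complex.add_re]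
        by_cases hse : s = 0
        · subst hse
          simpa using ha
        · exact add_pos ha (ih (fun z hz => hs z (Multiset.mem_cons_of_mem hz)) hse)
    exact this _ hroot hne
  rw [hsum] at hre
  simp at hre

/-- If all roots of `R` are negative real numbers then `‖R t‖ ≤ ‖R 0‖ * exp (t * (‖coeff R 1‖ / ‖R 0‖))`
for `t ≥ 0`. -/
theorem norm_eval_le (R : Polynomial ℂ) (h0 : R.eval 0 ≠ 0) (hroot : ∀ z ∈ R.roots, z.re < 0 ∧ z.im = 0)
    (t : ℝ) (ht : 0 ≤ t) :
    ‖R.eval (t : ℂ)‖ ≤ ‖R.eval 0‖ * Real.exp (t * (‖R.coeff 1‖ / ‖R.eval 0‖)) := by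
  have hs := (IsAlgClosed.splits R).eval_derivative_eq_eval_mul_sum h0
  have h1 : (Polynomial.derivative R).eval 0 = R.coeff 1 := by
    rw [← Polynomial.coeff_zero_eq_eval_zero, Polynomial.coeff_derivative]
    simp
  rw [h1] at hs
  have hn0 : 0 < ‖R.eval 0‖ := norm_pos_iff.mpr h0
  -- the sum is a positive real number
  have key : ∀ s : Multiset ℂ, (∀ z ∈ s, z.re < 0 ∧ z.im = 0) →
      (s.map (fun z => 1 / (0 - z))).sum = (((s.map (fun z => 1 / (-z.re))).sum : ℝ) : ℂ) ∧
      0 ≤ (s.map (fun z => 1 / (-z.re))).sum ∧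
      ‖(s.map (fun z => (t : ℂ) - z)).prod‖ ≤ ‖(s.map (fun z => (0 : ℂ) - z)).prod‖ *
        Real.exp (t * (s.map (fun z => 1 / (-z.re))).sum) := by
    intro s
    induction s using Multiset.induction with
    | empty => intro _; simp
    | cons a s ih =>
      intro hs
      obtain ⟨i1, i2, i3⟩ := ih (fun z hz => hs z (Multiset.mem_cons_of_mem hz))
      obtain ⟨ha, ha'⟩ := hs a (Multiset.mem_cons_self a s)
      have haa : a = ((a.re : ℝ) : ℂ) := by
        apply Complex.ext <;> simp [ha']
      refine ⟨?_, ?_, ?_⟩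
      · simp only [Multiset.map_cons, Multiset.sum_cons]
        rw [i1, haa]
        push_cast
        simp
      · simp only [Multiset.map_cons, Multiset.sum_cons]
        have : 0 ≤ 1 / (-a.re) := by
          apply div_nonneg zero_le_one; linarith
        linarith
      · simp only [Multiset.map_cons, Multiset.sum_cons, Multiset.prod_cons, norm_mul]
        have e1 : ‖(t : ℂ) - a‖ = t - a.re := by
          rw [haa, ← Complex.ofReal_sub, Complex.norm_real]
          simp only [Complex.ofReal_re]
          rw [Real.norm_of_nonneg]; linarith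
        have e2 : ‖(0 : ℂ) - a‖ = - a.re := by
          rw [haa, zero_sub, norm_neg, Complex.norm_real]
          simp only [Complex.ofReal_re]
          rw [Real.norm_of_nonpos]; linarith
        rw [e1, e2, mul_add, Real.exp_add]
        have e3 : t - a.re ≤ (-a.re) * Real.exp (t * (1 / (-a.re))) := by
          have h2 := Real.add_one_le_exp (t * (1 / (-a.re)))
          have hne : a.re ≠ 0 := ha.ne
          have h3 : (-a.re) * (t * (1 / (-a.re)) + 1) = t - a.re := by
            field_simp
            ring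
          rw [← h3]
          apply mul_le_mul_of_nonneg_left h2
          linarith
        calc (t - a.re) * ‖(s.map (fun z => (t : ℂ) - z)).prod‖
            ≤ ((-a.re) * Real.exp (t * (1 / (-a.re)))) * (‖(s.map (fun z => (0 : ℂ) - z)).prod‖ *
              Real.exp (t * (s.map (fun z => 1 / (-z.re))).sum)) := by
              apply mul_le_mul e3 i3 (norm_nonneg _)
              have := Real.exp_pos (t * (1 / (-a.re)))
              nlinarith
          _ = _ := by ring
  obtain ⟨k1, k2, k3⟩ := key R.roots hroot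
  have h2 : ‖R.coeff 1‖ / ‖R.eval 0‖ = (R.roots.map (fun z => 1 / (-z.re))).sum := by
    rw [hs, norm_mul, k1, Complex.norm_real, Real.norm_of_nonneg k2]
    field_simp
  rw [h2, (IsAlgClosed.splits R).eval_eq_prod_roots, (IsAlgClosed.splits R).eval_eq_prod_roots, norm_mul,
    norm_mul, mul_assoc]
  exact mul_le_mul_of_nonneg_left k3 (norm_nonneg _)

/-! ### Stable polynomials -/

/-- Strictly stable homogeneous polynomials of degree `n` in `n` variables. -/
structure St {n : ℕ} (p : MvPolynomial (Fin n) ℂ) : Prop where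
  hom : p.IsHomogeneous n
  st : ∀ z : Fin n → ℂ, (∀ i, 0 ≤ (z i).re) → (∃ i, 0 < (z i).re) → eval z p ≠ 0

/-- Capacity at least `κ`. -/
def Cap {n : ℕ} (κ : ℝ) (p : MvPolynomial (Fin n) ℂ) : Prop :=
  ∀ x : Fin n → ℝ, (∀ i, 0 < x i) → κ * ∏ i, x i ≤ ‖eval (fun i => ((x i : ℝ) : ℂ)) p‖

theorem eval_smul_hom {n m : ℕ} {p : MvPolynomial (Fin n) ℂ} (hp : p.IsHomogeneous m) (ω : ℂ) (z : Fin n → ℂ) :
    eval (fun i => ω * z i) p = ω ^ m * eval z p := by
  rw [eval_eq', eval_eq', Finset.mul_sum]
  refine Finset.sum_congr rfl ?_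
  intro d hd
  have h1 : ∑ i, d i = m := by
    have h2 := hp.degree_eq_sum_deg_support hd
    rw [h2]
    refine (Finset.sum_subset (Finset.subset_univ _) ?_).symm
    intro i _ hi
    simpa using hi
  rw [show (∏ i, (ω * z i) ^ d i) = ω ^ m * ∏ i, z i ^ d i by
    simp only [mul_pow]
    rw [Finset.prod_mul_distrib, Finset.prod_pow_eq_pow_sum, h1]]
  ring

/-- The restriction of `p` to the line through `(0, z)` in direction `x₀`. -/
noncomputable def line {n : ℕ} (p : MvPolynomial (Fin (n + 1)) ℂ) (z : Fin n → ℂ) : Polynomial ℂ :=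
  Polynomial.map (eval z) (finSuccEquiv ℂ n p)

theorem line_eval {n : ℕ} (p : MvPolynomial (Fin (n + 1)) ℂ) (z : Fin n → ℂ) (t : ℂ) :
    (line p z).eval t = eval (Fin.cons t z : Fin (n + 1) → ℂ) p :=
  (eval_eq_eval_mv_eval' z t p).symm

/-- The coefficient of `x₀`. -/
noncomputable def D {n : ℕ} (p : MvPolynomial (Fin (n + 1)) ℂ) : MvPolynomial (Fin n) ℂ :=
  (finSuccEquiv ℂ n p).coeff 1

theorem line_coeff {n : ℕ} (p : MvPolynomial (Fin (n + 1)) ℂ) (z : Fin n → ℂ) :
    (line p z).coeff 1 = eval z (D p) := by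
  rw [line, Polynomial.coeff_map]
  rfl

theorem line_root {n : ℕ} {p : MvPolynomial (Fin (n + 1)) ℂ} (hp : St p) (z : Fin n → ℂ)
    (hz : ∀ i, 0 ≤ (z i).re) (hz' : ∃ i, 0 < (z i).re) (t : ℂ) (ht : 0 ≤ t.re) : (line p z).eval t ≠ 0 := by
  rw [line_eval]
  refine hp.st _ ?_ ?_
  · intro i
    refine Fin.cases ?_ (fun j => ?_) i
    · simpa using ht
    · simpa using hz j
  · obtain ⟨i, hi⟩ := hz'
    exact ⟨i.succ, by simpa using hi⟩

theorem line_roots_ne {n : ℕ} {p : MvPolynomial (Fin (n + 1)) ℂ} (hp : St p) (z : Fin n → ℂ) :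
    (line p z).roots ≠ 0 := by
  intro h
  -- `line p z` is constant
  have hdeg : (line p z).natDegree = 0 := by
    have := (IsAlgClosed.splits (line p z)).natDegree_eq_card_roots
    rw [this, h]; simp
  obtain ⟨c, hc⟩ : ∃ c, line p z = Polynomial.C c := ⟨_, Polynomial.eq_C_of_natDegree_eq_zero hdeg⟩
  have hev : ∀ t : ℂ, eval (Fin.cons t z : Fin (n + 1) → ℂ) p = c := by
    intro t
    rw [← line_eval, hc, Polynomial.eval_C]
  -- scaling
  have h1 : ∀ s : ℂ, eval (Fin.cons 1 (fun i => s * z i) : Fin (n + 1) → ℂ) p * 1 = s ^ (n + 1) * c := by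
    intro s
    by_cases hs : s = 0
    · subst hs
      -- handled by continuity below; here use polynomial identity
      have h2 : ∀ s : ℂ, s ≠ 0 → eval (Fin.cons 1 (fun i => s * z i) : Fin (n + 1) → ℂ) p = s ^ (n + 1) * c := by
        intro s hs
        have h3 := eval_smul_hom hp.hom s (Fin.cons s⁻¹ z : Fin (n + 1) → ℂ)
        rw [hev] at h3
        rw [← h3]
        refine congrArg (fun v => eval v p) ?_
        funext i
        refine Fin.cases ?_ (fun j => ?_) i
        · simp [hs]
        · simp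
      have hcont : Continuous (fun s : ℂ => eval (Fin.cons 1 (fun i => s * z i) : Fin (n + 1) → ℂ) p) := by
        have : Continuous (fun s : ℂ => (Fin.cons 1 (fun i => s * z i) : Fin (n + 1) → ℂ)) := by
          refine continuous_pi ?_
          intro i
          refine Fin.cases ?_ (fun j => ?_) i
          · simp only [Fin.cons_zero]
            fun_prop
          · simp only [Fin.cons_succ]
            fun_prop
        exact (MvPolynomial.continuous_eval p).comp this
      have hcont2 : Continuous (fun s : ℂ => s ^ (n + 1) * c) := by fun_prop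
      have h4 := Continuous.ext_on (dense_compl_singleton (0 : ℂ)) hcont hcont2
        (fun s hs => h2 s hs)
      have := congrFun h4 0
      simpa using this
    · have h3 := eval_smul_hom hp.hom s (Fin.cons s⁻¹ z : Fin (n + 1) → ℂ)
      rw [hev] at h3
      rw [← h3, mul_one]
      refine congrArg (fun v => eval v p) ?_
      funext i
      refine Fin.cases ?_ (fun j => ?_) i
      · simp [hs]
      · simp
  have h2 := h1 0
  rw [zero_pow (by omega), zero_mul, mul_one] at h2
  refine hp.st _ ?_ ?_ h2
  · intro i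
    refine Fin.cases ?_ (fun j => ?_) i <;> simp
  · exact ⟨0, by simp⟩

theorem St.D {n : ℕ} {p : MvPolynomial (Fin (n + 1)) ℂ} (hp : St p) : St (D p) := by
  refine ⟨hp.hom.finSuccEquiv_coeff_isHomogeneous 1 n (by omega), ?_⟩
  intro z hz hz'
  rw [← line_coeff]
  refine coeff_one_ne_zero _ (line_root hp z hz hz' 0 (by simp)) ?_ (line_roots_ne hp z)
  intro w hw
  by_contra hcon
  push Not at hcon
  have hw' := (Polynomial.mem_roots'.mp hw).2
  exact line_root hp z hz hz' w hcon hw'

theorem Cap.D {n : ℕ} {p : MvPolynomial (Fin (n + 1)) ℂ} (hp : St p) {κ : ℝ} (hκ : 0 < κ) (hc : Cap κ p) :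
    Cap (κ * Real.exp (-1)) (D p) := by
  intro x hx
  set z : Fin n → ℂ := fun i => ((x i : ℝ) : ℂ) with hz
  rw [← line_coeff]
  have hcap : ∀ t : ℝ, 0 < t → κ * (t * ∏ i, x i) ≤ ‖(line p z).eval (t : ℂ)‖ := by
    intro t ht
    have h1 := hc (Fin.cons t x) (by
      intro i
      refine Fin.cases ?_ (fun j => ?_) i
      · simpa using ht
      · simpa using hx j)
    rw [Fin.prod_univ_succ] at h1
    simp only [Fin.cons_zero, Fin.cons_succ] at h1
    rw [line_eval]
    refine h1.trans (le_of_eq ?_)
    congr 2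
    congr 1
    funext i
    refine Fin.cases ?_ (fun j => ?_) i <;> simp [hz]
  have hprod : 0 < ∏ i, x i := Finset.prod_pos (fun i _ => hx i)
  by_cases hn : n = 0
  · subst hn
    -- `p` is a multiple of `x₀`
    have h1 : ∀ t : ℂ, (line p z).eval t = t * (line p z).eval 1 := by
      intro t
      rw [line_eval, line_eval]
      have h := eval_smul_hom hp.hom t (Fin.cons 1 z : Fin (0 + 1) → ℂ)
      have h' : t ^ (0 + 1) = t := by simp
      rw [h'] at h
      rw [← h]
      refine congrArg (fun v => eval v p) ?_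
      funext i
      fin_cases i
      simp
    have h2 : line p z = Polynomial.C ((line p z).eval 1) * Polynomial.X := by
      apply Polynomial.funext
      intro t
      rw [h1 t, Polynomial.eval_mul, Polynomial.eval_C, Polynomial.eval_X, mul_comm]
    have h3' : ∀ (q : Polynomial ℂ) (c : ℂ), q = Polynomial.C c * Polynomial.X → q.coeff 1 = c := by
      rintro q c rfl
      simp
    have h3 : (line p z).coeff 1 = (line p z).eval 1 := h3' _ _ h2
    rw [h3]
    have h4 := hcap 1 one_pos
    rw [one_mul, Complex.ofReal_one] at h4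
    refine le_trans ?_ h4
    have h5 : Real.exp (-1) ≤ 1 := by
      rw [Real.exp_le_one_iff]; norm_num
    have h6 : 0 ≤ κ * ∏ i, x i := by positivity
    nlinarith
  · have hpos : ∃ i, 0 < (z i).re := ⟨⟨0, by omega⟩, by simp [hz, hx]⟩
    have hnn : ∀ i, 0 ≤ (z i).re := fun i => by simp [hz, (hx i).le]
    have h0 : (line p z).eval 0 ≠ 0 := line_root hp z hnn hpos 0 (by simp)
    have hn0 : 0 < ‖(line p z).eval 0‖ := norm_pos_iff.mpr h0
    have hreal : ∀ w ∈ (line p z).roots, w.re < 0 ∧ w.im = 0 := by
      intro w hw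
      have hw' : (line p z).eval w = 0 := (Polynomial.mem_roots'.mp hw).2
      have hre : w.re < 0 := by
        by_contra hcon
        push Not at hcon
        exact line_root hp z hnn hpos w hcon hw'
      refine ⟨hre, ?_⟩
      by_contra him
      -- multiply by a suitable complex number
      have hex : ∃ ω : ℂ, 0 < ω.re ∧ 0 ≤ (ω * w).re := by
        rcases lt_or_gt_of_ne him with h | h
        · refine ⟨-(Complex.I * (starRingEnd ℂ) w), ?_, ?_⟩
          · simp; linarith
          · simp [Complex.mul_re, Complex.mul_im]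
            nlinarith
        · refine ⟨Complex.I * (starRingEnd ℂ) w, ?_, ?_⟩
          · simp; linarith
          · simp [Complex.mul_re, Complex.mul_im]
            nlinarith
      obtain ⟨ω, hω, hωw⟩ := hex
      rw [line_eval] at hw'
      have h1 := eval_smul_hom hp.hom ω (Fin.cons w z : Fin (n + 1) → ℂ)
      rw [hw', mul_zero] at h1
      refine hp.st _ ?_ ?_ h1
      · intro i
        refine Fin.cases ?_ (fun j => ?_) i
        · simpa using hωw
        · have : 0 ≤ ω.re * x j := mul_nonneg hω.le (hx j).le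
          simpa [hz] using this
      · refine ⟨Fin.succ ⟨0, by omega⟩, ?_⟩
        have : 0 < ω.re * x ⟨0, by omega⟩ := mul_pos hω (hx _)
        show 0 < (ω * (Fin.cons w z : Fin (n + 1) → ℂ) (Fin.succ ⟨0, by omega⟩)).re
        rw [Fin.cons_succ]
        simpa [hz] using this
    have hb := norm_eval_le (line p z) h0 hreal
    have hc1 : 0 < ‖(line p z).coeff 1‖ := by
      rw [norm_pos_iff]
      refine coeff_one_ne_zero _ h0 (fun w hw => (hreal w hw).1) (line_roots_ne hp z)
    set a := ‖(line p z).eval 0‖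
    set b := ‖(line p z).coeff 1‖
    have ht : 0 < a / b := div_pos hn0 hc1
    have h1 := hcap (a / b) ht
    have h2 := hb (a / b) ht.le
    have h3 : a / b * (b / a) = 1 := by field_simp
    rw [h3] at h2
    have h4 := h1.trans h2
    have h5 : κ * ∏ i, x i ≤ b * Real.exp 1 := by
      have h6 : κ * (a / b * ∏ i, x i) = (κ * ∏ i, x i) * (a / b) := by ring
      have h7 : a * Real.exp 1 = (b * Real.exp 1) * (a / b) := by field_simp
      rw [h6, h7] at h4
      exact le_of_mul_le_mul_right h4 ht
    have h8 : Real.exp (-1) * Real.exp 1 = 1 := by rw [← Real.exp_add]; simp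
    have h9 : 0 < Real.exp (-1) := Real.exp_pos _
    calc κ * Real.exp (-1) * ∏ i, x i = (κ * ∏ i, x i) * Real.exp (-1) := by ring
      _ ≤ (b * Real.exp 1) * Real.exp (-1) := mul_le_mul_of_nonneg_right h5 h9.le
      _ = b := by rw [mul_assoc, mul_comm (Real.exp 1), h8, mul_one]

/-- The coefficient of the product of all variables. -/
noncomputable def top {n : ℕ} (p : MvPolynomial (Fin n) ℂ) : ℂ :=
  coeff (Finsupp.equivFunOnFinite.symm (fun _ => 1)) p

theorem top_D {n : ℕ} (p : MvPolynomial (Fin (n + 1)) ℂ) : top (D p) = top p := by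
  unfold top D
  rw [finSuccEquiv_coeff_coeff]
  congr 1
  ext i
  refine Fin.cases ?_ (fun j => ?_) i <;> simp

theorem cap_le_top : ∀ (n : ℕ) (p : MvPolynomial (Fin n) ℂ) (κ : ℝ), 0 < κ → St p → Cap κ p →
    κ * Real.exp (-(n : ℝ)) ≤ ‖top p‖ := by
  intro n
  induction n with
  | zero =>
    intro p κ hκ _ hc
    have h1 := hc (fun i => i.elim0) (fun i => i.elim0)
    simp only [Finset.univ_eq_empty, Finset.prod_empty, mul_one] at h1
    have h2 : eval (fun i : Fin 0 => (((fun i : Fin 0 => (i.elim0 : ℝ)) i : ℝ) : ℂ)) p = top p := by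
      unfold top
      rw [MvPolynomial.eq_C_of_isEmpty p]
      simp only [eval_C, coeff_C]
      rw [if_pos]
      ext i
      exact i.elim0
    rw [h2] at h1
    simpa using h1
  | succ n ih =>
    intro p κ hκ hs hc
    have h1 := ih (D p) (κ * Real.exp (-1)) (by positivity) hs.D (hc.D hs hκ)
    rw [top_D] at h1
    refine le_trans (le_of_eq ?_) h1
    rw [mul_assoc, ← Real.exp_add]
    congr 2
    push_cast
    ring

/-! ### The permanent -/

/-- The product of the linear forms of the rows of `X`. -/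
noncomputable def form {n : ℕ} (X : Fin n → Fin n → ℝ) : MvPolynomial (Fin n) ℂ :=
  ∏ i, ∑ j, C ((X i j : ℝ) : ℂ) * MvPolynomial.X j

theorem eval_form {n : ℕ} (X : Fin n → Fin n → ℝ) (z : Fin n → ℂ) :
    eval z (form X) = ∏ i, ∑ j, ((X i j : ℝ) : ℂ) * z j := by
  simp [form, map_prod, map_sum]

theorem st_form {n : ℕ} (X : Fin n → Fin n → ℝ) (hX : ∀ i j, 0 < X i j) : St (form X) := by
  constructor
  · have h1 : (form X).IsHomogeneous (∑ _i : Fin n, 1) := by
      refine IsHomogeneous.prod _ _ _ ?_
      intro i _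
      refine IsHomogeneous.sum _ _ _ ?_
      intro j _
      exact isHomogeneous_C_mul_X _ _
    simpa using h1
  · intro z hz hz'
    rw [eval_form]
    refine Finset.prod_ne_zero_iff.mpr ?_
    intro i _ h
    obtain ⟨j0, hj0⟩ := hz'
    have h1 : (∑ j, ((X i j : ℝ) : ℂ) * z j).re = ∑ j, X i j * (z j).re := by
      rw [Complex.re_sum]
      refine Finset.sum_congr rfl ?_
      intro j _
      simp
    have h2 : 0 < ∑ j, X i j * (z j).re := by
      refine Finset.sum_pos' ?_ ⟨j0, Finset.mem_univ _, mul_pos (hX i j0) hj0⟩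
      intro j _
      exact mul_nonneg (hX i j).le (hz j)
    rw [h] at h1
    simp only [Complex.zero_re] at h1
    linarith

theorem cap_form {n : ℕ} (X : Fin n → Fin n → ℝ) (hX : ∀ i j, 0 ≤ X i j) (hr : ∀ i, ∑ j, X i j = 1)
    (hc : ∀ j, ∑ i, X i j = 1) : Cap 1 (form X) := by
  intro x hx
  rw [eval_form, one_mul, norm_prod]
  have h1 : ∀ i, ‖∑ j, ((X i j : ℝ) : ℂ) * ((x j : ℝ) : ℂ)‖ = ∑ j, X i j * x j := by
    intro i
    have : (∑ j, ((X i j : ℝ) : ℂ) * ((x j : ℝ) : ℂ)) = ((∑ j, X i j * x j : ℝ) : ℂ) := by push_cast; rfl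
    rw [this, Complex.norm_real, Real.norm_of_nonneg]
    exact Finset.sum_nonneg (fun j _ => mul_nonneg (hX i j) (hx j).le)
  simp only [h1]
  have h2 : ∏ j, x j = ∏ i, ∏ j, x j ^ (X i j) := by
    rw [Finset.prod_comm]
    refine Finset.prod_congr rfl ?_
    intro j _
    rw [← Real.rpow_sum_of_pos (hx j), hc j, Real.rpow_one]
  rw [h2]
  refine Finset.prod_le_prod ?_ ?_
  · intro i _
    exact Finset.prod_nonneg (fun j _ => Real.rpow_nonneg (hx j).le _)
  · intro i _
    exact Real.geom_mean_le_arith_mean_weighted univ (fun j => X i j) x (fun j _ => hX i j) (hr i)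
      (fun j _ => (hx j).le)

theorem top_form {n : ℕ} (X : Fin n → Fin n → ℝ) :
    top (form X) = ((∑ σ : Equiv.Perm (Fin n), ∏ i, X i (σ i) : ℝ) : ℂ) := by
  classical
  have h1 : form X = ∑ f : Fin n → Fin n, C ((∏ i, X i (f i) : ℝ) : ℂ) * monomial (∑ i, Finsupp.single (f i) 1) 1 := by
    unfold form
    rw [Finset.prod_univ_sum]
    simp only [Fintype.piFinset_univ]
    refine Finset.sum_congr rfl ?_
    intro f _
    rw [Finset.prod_mul_distrib]
    congr 1
    · push_cast
      rw [map_prod]
    · rw [MvPolynomial.monomial_sum_one]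
      rfl
  unfold top
  rw [h1, MvPolynomial.coeff_sum]
  simp only [coeff_C_mul, coeff_monomial]
  have h2 : ∀ f : Fin n → Fin n, (∑ i, Finsupp.single (f i) 1 = (Finsupp.equivFunOnFinite.symm (fun _ => 1) : Fin n →₀ ℕ))
      ↔ Function.Bijective f := by
    intro f
    constructor
    · intro h
      rw [← Finite.surjective_iff_bijective]
      intro j
      have h3 := DFunLike.congr_fun h j
      rw [Finsupp.finsetSum_apply] at h3
      simp only [Finsupp.equivFunOnFinite_symm_apply_apply] at h3
      by_contra hcon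
      push Not at hcon
      have h4 : ∑ i, (Finsupp.single (f i) 1 : Fin n →₀ ℕ) j = 0 := by
        refine Finset.sum_eq_zero ?_
        intro i _
        rw [Finsupp.single_apply, if_neg (hcon i)]
      omega
    · intro h
      ext j
      rw [Finsupp.finsetSum_apply]
      simp only [Finsupp.equivFunOnFinite_symm_apply_apply]
      obtain ⟨i, rfl⟩ := h.2 j
      rw [Finset.sum_eq_single i]
      · simp
      · intro i' _ hi'
        rw [Finsupp.single_apply, if_neg]
        intro h'
        exact hi' (h.1 h')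
      · intro h'
        exact absurd (Finset.mem_univ _) h'
  simp only [h2]
  push_cast
  rw [← Finset.sum_filter_add_sum_filter_not univ (fun f : Fin n → Fin n => Function.Bijective f)]
  rw [Finset.sum_eq_zero (s := univ.filter (fun f : Fin n → Fin n => ¬ Function.Bijective f)), add_zero]
  · symm
    refine Finset.sum_bij (fun σ _ => (σ : Fin n → Fin n)) ?_ ?_ ?_ ?_
    · intro σ _
      simp only [Finset.mem_filter, Finset.mem_univ, true_and]
      exact σ.bijective
    · intro σ _ τ _ h
      exact DFunLike.coe_injective h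
    · intro f hf
      exact ⟨Equiv.ofBijective f (Finset.mem_filter.mp hf).2, Finset.mem_univ _, rfl⟩
    · intro σ _
      rw [if_pos σ.bijective, mul_one]
  · intro f hf
    rw [if_neg (Finset.mem_filter.mp hf).2, mul_zero]

theorem perm_lower_pos {n : ℕ} (X : Fin n → Fin n → ℝ) (h0 : ∀ i j, 0 < X i j) (hr : ∀ i, ∑ j, X i j = 1)
    (hc : ∀ j, ∑ i, X i j = 1) : Real.exp (-(n : ℝ)) ≤ ∑ σ : Equiv.Perm (Fin n), ∏ i, X i (σ i) := by
  have h1 := cap_le_top n (form X) 1 one_pos (st_form X h0) (cap_form X (fun i j => (h0 i j).le) hr hc)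
  rw [one_mul, top_form, Complex.norm_real, Real.norm_of_nonneg] at h1
  · exact h1
  · exact Finset.sum_nonneg (fun σ _ => Finset.prod_nonneg (fun i _ => (h0 _ _).le))

/-- A weak form of the van der Waerden conjecture (Bang, Friedland): the permanent of a doubly stochastic
`n × n` matrix is at least `exp (-n)`. -/
theorem perm_lower {n : ℕ} (X : Fin n → Fin n → ℝ) (h0 : ∀ i j, 0 ≤ X i j) (hr : ∀ i, ∑ j, X i j = 1)
    (hc : ∀ j, ∑ i, X i j = 1) : Real.exp (-(n : ℝ)) ≤ ∑ σ : Equiv.Perm (Fin n), ∏ i, X i (σ i) := by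
  rcases Nat.eq_zero_or_pos n with hn | hn
  · subst hn
    simp
  have hn' : (0 : ℝ) < n := by exact_mod_cast hn
  have hlim : Filter.Tendsto (fun ε : ℝ => ∑ σ : Equiv.Perm (Fin n), ∏ i, ((1 - ε) * X i (σ i) + ε / n))
      (nhdsWithin 0 (Set.Ioi 0)) (nhds (∑ σ : Equiv.Perm (Fin n), ∏ i, ((1 - 0) * X i (σ i) + 0 / n))) := by
    have : Continuous (fun ε : ℝ => ∑ σ : Equiv.Perm (Fin n), ∏ i, ((1 - ε) * X i (σ i) + ε / n)) := by
      fun_prop
    exact (this.tendsto 0).mono_left nhdsWithin_le_nhds
  have h1 : (∑ σ : Equiv.Perm (Fin n), ∏ i, ((1 - 0) * X i (σ i) + 0 / n)) =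
      ∑ σ : Equiv.Perm (Fin n), ∏ i, X i (σ i) := by
    simp
  rw [h1] at hlim
  refine ge_of_tendsto hlim ?_
  have h2 : ∀ᶠ ε : ℝ in nhdsWithin 0 (Set.Ioi 0), ε < 1 :=
    (Filter.Eventually.filter_mono nhdsWithin_le_nhds (eventually_lt_nhds one_pos))
  filter_upwards [self_mem_nhdsWithin, h2] with ε hε hε1
  have hε0 : 0 < ε := hε
  refine perm_lower_pos (fun i j => (1 - ε) * X i j + ε / n) ?_ ?_ ?_
  · intro i j
    have h3 : 0 ≤ (1 - ε) * X i j := mul_nonneg (by linarith) (h0 i j)
    have h4 : 0 < ε / n := div_pos hε0 hn'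
    linarith
  · intro i
    rw [Finset.sum_add_distrib, ← Finset.mul_sum, hr i]
    simp only [Finset.sum_const, Finset.card_univ, Fintype.card_fin, nsmul_eq_mul]
    field_simp
    ring
  · intro j
    rw [Finset.sum_add_distrib, ← Finset.mul_sum, hc j]
    simp only [Finset.sum_const, Finset.card_univ, Fintype.card_fin, nsmul_eq_mul]
    field_simp
    ring

end Pool.Agent.MP_dc7d7b
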