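import Pool.Agent.Lib.MP_dc7d7b_co.Farkas

set_option autoImplicit false

/-!
# Uniformly distributed weights on a good set of cells
-/

namespace Pool.Agent.MP_dc7d7b

open Finset

/-- Maurey's empirical method: a convex combination of functions of absolute value at most `1` is close in `L²` to
the average of `T` of them. -/
theorem maurey {E Ω : Type*} [Fintype E] [Fintype Ω] (Y : Ω → E → ℝ) (hY : ∀ x e, |Y x e| ≤ 1) (ω : Ω → ℝ)
    (hω : ∀ x, 0 ≤ ω x) (hω1 : ∑ x, ω x = 1) (T : ℕ) :
    ∃ t : Fin T → Ω, ∑ e, (∑ j, (Y (t j) e - ∑ x, ω x * Y x e)) ^ 2 ≤ 4 * T * Fintype.card E := by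
  have hbar : ∀ e, |∑ x, ω x * Y x e| ≤ 1 := by
    intro e
    calc |∑ x, ω x * Y x e| ≤ ∑ x, |ω x * Y x e| := Finset.abs_sum_le_sum_abs _ _
      _ ≤ ∑ x, ω x := by
          refine Finset.sum_le_sum ?_
          intro x _
          rw [abs_mul, abs_of_nonneg (hω x)]
          exact mul_le_of_le_one_right (hω x) (hY x e)
      _ = 1 := hω1
  induction T with
  | zero => exact ⟨fun j => j.elim0, by simp⟩
  | succ T ih =>
    obtain ⟨t, ht⟩ := ih
    set S : E → ℝ := fun e => ∑ j, (Y (t j) e - ∑ x, ω x * Y x e) with hS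
    -- choose the next index
    obtain ⟨x, hx⟩ : ∃ x, ∑ e, S e * (Y x e - ∑ x', ω x' * Y x' e) ≤ 0 := by
      by_contra hcon
      push Not at hcon
      have h1 : ∑ x, ω x * ∑ e, S e * (Y x e - ∑ x', ω x' * Y x' e) = 0 := by
        simp only [Finset.mul_sum]
        rw [Finset.sum_comm]
        refine Finset.sum_eq_zero ?_
        intro e _
        have h2 : ∀ x, ω x * (S e * (Y x e - ∑ x', ω x' * Y x' e)) =
            S e * (ω x * Y x e) - S e * (∑ x', ω x' * Y x' e) * ω x := by
          intro x; ring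
        simp only [h2, Finset.sum_sub_distrib, ← Finset.mul_sum, hω1]
        ring
      obtain ⟨x0, hx0⟩ : ∃ x, 0 < ω x := by
        by_contra hcon2
        push Not at hcon2
        have : ∑ x, ω x ≤ 0 := Finset.sum_nonpos (fun x _ => hcon2 x)
        linarith
      have h3 : 0 < ∑ x, ω x * ∑ e, S e * (Y x e - ∑ x', ω x' * Y x' e) := by
        refine Finset.sum_pos' ?_ ⟨x0, Finset.mem_univ _, mul_pos hx0 (hcon x0)⟩
        intro x _
        exact mul_nonneg (hω x) (hcon x).le
      linarith
    refine ⟨Fin.snoc t x, ?_⟩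
    have h4 : ∀ e, ∑ j : Fin (T + 1), (Y ((Fin.snoc t x : Fin (T + 1) → Ω) j) e - ∑ x, ω x * Y x e) =
        S e + (Y x e - ∑ x, ω x * Y x e) := by
      intro e
      rw [Fin.sum_univ_castSucc]
      simp [hS]
    simp only [h4]
    have h5 : ∀ e, (S e + (Y x e - ∑ x, ω x * Y x e)) ^ 2 ≤
        S e ^ 2 + 2 * (S e * (Y x e - ∑ x, ω x * Y x e)) + 4 := by
      intro e
      have h6 : |Y x e - ∑ x, ω x * Y x e| ≤ 2 := by
        calc |Y x e - ∑ x, ω x * Y x e| ≤ |Y x e| + |∑ x, ω x * Y x e| := abs_sub _ _
          _ ≤ 1 + 1 := add_le_add (hY x e) (hbar e)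
          _ = 2 := by norm_num
      have h7 : (Y x e - ∑ x, ω x * Y x e) ^ 2 ≤ 4 := by
        have := sq_le_sq' (by linarith [abs_le.mp h6]) (abs_le.mp h6).2
        linarith
      nlinarith
    calc ∑ e, (S e + (Y x e - ∑ x, ω x * Y x e)) ^ 2
        ≤ ∑ e, (S e ^ 2 + 2 * (S e * (Y x e - ∑ x, ω x * Y x e)) + 4) := Finset.sum_le_sum (fun e _ => h5 e)
      _ = ∑ e, S e ^ 2 + 2 * ∑ e, S e * (Y x e - ∑ x, ω x * Y x e) + 4 * Fintype.card E := by
          rw [Finset.sum_add_distrib, Finset.sum_add_distrib, ← Finset.mul_sum]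
          simp [mul_comm]
      _ ≤ 4 * (T + 1 : ℕ) * Fintype.card E := by
          push_cast
          linarith

/-- If every level set `{Z < -t}`, `0 < t < 1`, meets `A` in proportion `η` up to `D`, then so does the integral. -/
theorem level_sum {E : Type*} [Fintype E] [DecidableEq E] (A : Finset E) (Z : E → ℝ) (hZ : ∀ e, |Z e| ≤ 1)
    (η D : ℝ) (hD : 0 ≤ D)
    (h : ∀ t : ℝ, 0 < t → t < 1 → η * (univ.filter (fun e => Z e < -t)).card - D ≤
      (A ∩ univ.filter (fun e => Z e < -t)).card) :
    η * ∑ e, max 0 (- Z e) - D ≤ ∑ e ∈ A, max 0 (- Z e) := by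
  have hpt : ∀ t : ℝ, η * ∑ e, (if 0 < t ∧ t < - Z e then (1 : ℝ) else 0) - D * (if 0 < t ∧ t < 1 then (1 : ℝ) else 0)
      ≤ ∑ e ∈ A, (if 0 < t ∧ t < - Z e then (1 : ℝ) else 0) := by
    intro t
    by_cases ht : 0 < t ∧ t < 1
    · have h1 := h t ht.1 ht.2
      rw [if_pos ht, mul_one]
      have e1 : (univ.filter (fun e => Z e < -t)).card = ∑ e, (if 0 < t ∧ t < - Z e then (1 : ℝ) else 0) := by
        rw [Finset.sum_boole]
        congr 2
        ext e
        simp only [Finset.mem_filter, Finset.mem_univ, true_and]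
        constructor
        · intro h; exact ⟨ht.1, by linarith⟩
        · intro h; linarith [h.2]
      have e2 : (A ∩ univ.filter (fun e => Z e < -t)).card = ∑ e ∈ A, (if 0 < t ∧ t < - Z e then (1 : ℝ) else 0) := by
        rw [Finset.sum_boole]
        congr 2
        ext e
        simp only [Finset.mem_filter, Finset.mem_univ, true_and, Finset.mem_inter]
        constructor
        · intro h; exact ⟨h.1, ht.1, by linarith [h.2]⟩
        · intro h; exact ⟨h.1, by linarith [h.2.2]⟩
      rw [e1, e2] at h1
      exact h1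
    · rw [if_neg ht, mul_zero, sub_zero]
      have e1 : ∀ e, (if 0 < t ∧ t < - Z e then (1 : ℝ) else 0) = 0 := by
        intro e
        rw [if_neg]
        rintro ⟨h1, h2⟩
        have h3 : - Z e ≤ 1 := by linarith [(abs_le.mp (hZ e)).1]
        exact ht ⟨h1, by linarith⟩
      simp [e1]
  have hint := intervalIntegral.integral_mono_on (a := -1) (b := 1) (μ := MeasureTheory.volume)
    (f := fun t : ℝ => η * ∑ e, (if 0 < t ∧ t < - Z e then (1 : ℝ) else 0) - D * (if 0 < t ∧ t < 1 then (1 : ℝ) else 0))
    (g := fun t : ℝ => ∑ e ∈ A, (if 0 < t ∧ t < - Z e then (1 : ℝ) else 0))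
    (by norm_num)
    (by
      refine IntervalIntegrable.sub ?_ ?_
      · refine IntervalIntegrable.const_mul ?_ η
        refine intervalIntegrable_sum' _ _ _ _ ?_
        intro e _
        exact integrable_step 0 (- Z e) 1
      · exact (integrable_step 0 1 1).const_mul D)
    (by
      refine intervalIntegrable_sum' _ _ _ _ ?_
      intro e _
      exact integrable_step 0 (- Z e) 1)
    (fun t _ => hpt t)
  have hstep : ∀ e, ∫ t in (-1)..1, (if 0 < t ∧ t < - Z e then (1 : ℝ) else 0) = max 0 (- Z e) := by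
    intro e
    have := integral_step 0 (- Z e) 1 (by norm_num) (by norm_num) (by linarith [(abs_le.mp (hZ e)).1])
    rwa [sub_zero] at this
  have h01 : ∫ t in (-1)..1, (if 0 < t ∧ t < 1 then (1 : ℝ) else 0) = 1 := by
    have := integral_step 0 1 1 (by norm_num) (by norm_num) (by norm_num)
    rw [this]
    norm_num
  rw [intervalIntegral.integral_sub, intervalIntegral.integral_const_mul, intervalIntegral.integral_const_mul,
    intervalIntegral.integral_finsetSum, intervalIntegral.integral_finsetSum, h01] at hint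
  · simp only [hstep, mul_one] at hint
    exact hint
  · intro e _
    exact integrable_step 0 (- Z e) 1
  · intro e _
    exact integrable_step 0 (- Z e) 1
  · refine IntervalIntegrable.const_mul ?_ η
    refine intervalIntegrable_sum' _ _ _ _ ?_
    intro e _
    exact integrable_step 0 (- Z e) 1
  · exact (integrable_step 0 1 1).const_mul D

/-- The set of cells determined by types `a` of the rows, types `b` of the columns and a set `B` of pairs of
types. -/
def blk {k P : ℕ} (a b : Fin k → Fin P) (B : Finset (Fin P × Fin P)) : Finset (Fin k × Fin k) :=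
  univ.filter (fun e => (a e.1, b e.2) ∈ B)

/-- `A` contains the proportion `η` of every block set with `P` types, up to an error `d k²`. -/
def GoodSet {k : ℕ} (P : ℕ) (η d : ℝ) (A : Finset (Fin k × Fin k)) : Prop :=
  ∀ (a b : Fin k → Fin P) (B : Finset (Fin P × Fin P)),
    η * (blk a b B).card - d * (k : ℝ) ^ 2 ≤ (A ∩ blk a b B).card

/-- Test functions with values in `{-1, 0, 1}`. -/
def tst {k P : ℕ} (x : ((Fin k → Fin P) × (Fin k → Fin P)) × (Finset (Fin P × Fin P) × Finset (Fin P × Fin P)))
    (e : Fin k × Fin k) : ℝ :=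
  (if (x.1.1 e.1, x.1.2 e.2) ∈ x.2.1 then 1 else 0) - (if (x.1.1 e.1, x.1.2 e.2) ∈ x.2.2 then 1 else 0)

theorem tst_abs {k P : ℕ} (x : ((Fin k → Fin P) × (Fin k → Fin P)) × (Finset (Fin P × Fin P) × Finset (Fin P × Fin P)))
    (e : Fin k × Fin k) : |tst x e| ≤ 1 := by
  unfold tst
  split_ifs <;> norm_num

/-- The level sets of averages of `T` test functions with `q` types are block sets with `q ^ T` types. -/
theorem level_blk {k q T : ℕ}
    (t : Fin T → ((Fin k → Fin q) × (Fin k → Fin q)) × (Finset (Fin q × Fin q) × Finset (Fin q × Fin q))) (s : ℝ) :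
    ∃ (a b : Fin k → Fin (q ^ T)) (B : Finset (Fin (q ^ T) × Fin (q ^ T))),
      univ.filter (fun e => (∑ j, tst (t j) e) / T < -s) = blk a b B := by
  classical
  refine ⟨fun i => finFunctionFinEquiv (fun j => (t j).1.1 i), fun c => finFunctionFinEquiv (fun j => (t j).1.2 c),
    univ.filter (fun xy => (∑ j, ((if (finFunctionFinEquiv.symm xy.1 j, finFunctionFinEquiv.symm xy.2 j) ∈ (t j).2.1
      then (1 : ℝ) else 0) - (if (finFunctionFinEquiv.symm xy.1 j, finFunctionFinEquiv.symm xy.2 j) ∈ (t j).2.2
      then 1 else 0))) / T < -s), ?_⟩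
  ext e
  unfold blk
  rw [Finset.mem_filter, Finset.mem_filter, Finset.mem_filter]
  simp only [tst, Finset.mem_univ, true_and, Equiv.symm_apply_apply]

/-- On a good set there are weights with small entries which are uniformly distributed with respect to all test
functions. -/
theorem uniform {k q T : ℕ} (hk : 0 < k) (hT : 0 < T) (A : Finset (Fin k × Fin k)) (η d : ℝ) (hη : 0 < η)
    (hd : 0 ≤ d) (hA : GoodSet (q ^ T) η d A) :
    ∃ X : Fin k × Fin k → ℝ, (∀ e, 0 ≤ X e) ∧ (∀ e ∈ A, X e ≤ 1 / (η * k)) ∧ (∀ e ∉ A, X e = 0) ∧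
      ∀ x : ((Fin k → Fin q) × (Fin k → Fin q)) × (Finset (Fin q × Fin q) × Finset (Fin q × Fin q)),
        ∑ e, tst x e * X e ≤ (∑ e, tst x e) / k + (d / η + 2 * (1 / η + 1) / Real.sqrt T) * k := by
  classical
  have hk' : (0 : ℝ) < k := by exact_mod_cast hk
  have hT' : (0 : ℝ) < T := by exact_mod_cast hT
  have hsT : 0 < Real.sqrt T := Real.sqrt_pos.mpr hT'
  set δ : ℝ := d / η + 2 * (1 / η + 1) / Real.sqrt T with hδ
  have hδ0 : 0 ≤ δ := by positivity
  set κ : ℝ := 1 / (η * k) with hκd
  have hκ : 0 < κ := by positivity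
  have hcardE : (Fintype.card (Fin k × Fin k) : ℝ) = (k : ℝ) ^ 2 := by
    rw [Fintype.card_prod, Fintype.card_fin]; push_cast; ring
  obtain ⟨X, hX0, hXκ, hX⟩ := box_farkas
    (fun (x : ((Fin k → Fin q) × (Fin k → Fin q)) × (Finset (Fin q × Fin q) × Finset (Fin q × Fin q))) e => tst x e)
    (fun x => (∑ e, tst x e) / k + δ * k) (fun e => if e ∈ A then κ else 0)
    (fun e => by split_ifs <;> simp [hκ.le]) (by
      intro ω hω
      set W := ∑ x, ω x with hW
      have hW0 : 0 ≤ W := Finset.sum_nonneg (fun x _ => hω x)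
      rcases hW0.eq_or_lt with hW1 | hW1
      · have h0 : ∀ x, ω x = 0 := by
          intro x
          exact (Finset.sum_eq_zero_iff_of_nonneg (fun x _ => hω x)).mp hW1.symm x (Finset.mem_univ _)
        simp [h0]
      -- normalisation
      set ω' : _ → ℝ := fun x => ω x / W with hω'
      have hω'0 : ∀ x, 0 ≤ ω' x := fun x => div_nonneg (hω x) hW1.le
      have hω'1 : ∑ x, ω' x = 1 := by
        rw [hω', ← Finset.sum_div, ← hW, div_self hW1.ne']
      obtain ⟨t, ht⟩ := maurey (fun x e => tst x e) (fun x e => tst_abs x e) ω' hω'0 hω'1 T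
      set Ybar : Fin k × Fin k → ℝ := fun e => ∑ x, ω' x * tst x e with hYbar
      set Z : Fin k × Fin k → ℝ := fun e => (∑ j, tst (t j) e) / T with hZ
      have hZabs : ∀ e, |Z e| ≤ 1 := by
        intro e
        rw [hZ]
        simp only
        rw [abs_div, abs_of_pos hT', div_le_one hT']
        calc |∑ j, tst (t j) e| ≤ ∑ j, |tst (t j) e| := Finset.abs_sum_le_sum_abs _ _
          _ ≤ ∑ _j : Fin T, (1 : ℝ) := Finset.sum_le_sum (fun j _ => tst_abs _ _)
          _ = T := by simp
      -- L1 distance
      have hdist : ∑ e, |Z e - Ybar e| ≤ 2 * (k : ℝ) ^ 2 / Real.sqrt T := by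
        have h1 : ∑ e, (Z e - Ybar e) ^ 2 ≤ 4 * (k : ℝ) ^ 2 / T := by
          have h2 : ∀ e, ∑ j, (tst (t j) e - ∑ x, ω' x * tst x e) = T * (Z e - Ybar e) := by
            intro e
            rw [Finset.sum_sub_distrib, Finset.sum_const, Finset.card_univ, Fintype.card_fin, nsmul_eq_mul, hZ, hYbar]
            simp only
            field_simp
          simp only [h2, mul_pow, ← Finset.mul_sum, hcardE] at ht
          rw [le_div_iff₀ hT']
          have h3 : (T : ℝ) ^ 2 * ∑ e, (Z e - Ybar e) ^ 2 = T * (T * ∑ e, (Z e - Ybar e) ^ 2) := by ring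
          rw [h3] at ht
          have h4 : 4 * (T : ℝ) * (k : ℝ) ^ 2 = T * (4 * (k : ℝ) ^ 2) := by ring
          rw [h4] at ht
          have h5 := le_of_mul_le_mul_left ht hT'
          linarith
        have h2 : (∑ e, |Z e - Ybar e|) ^ 2 ≤ (k : ℝ) ^ 2 * (4 * (k : ℝ) ^ 2 / T) := by
          have h3 := sq_sum_le_card_mul_sum_sq (s := (univ : Finset (Fin k × Fin k))) (f := fun e => |Z e - Ybar e|)
          rw [Finset.card_univ, hcardE] at h3
          simp only [sq_abs] at h3
          refine h3.trans ?_
          exact mul_le_mul_of_nonneg_left h1 (by positivity)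
        have h3 : (k : ℝ) ^ 2 * (4 * (k : ℝ) ^ 2 / T) = (2 * (k : ℝ) ^ 2 / Real.sqrt T) ^ 2 := by
          rw [div_pow, Real.sq_sqrt hT'.le]
          ring
        rw [h3] at h2
        exact (abs_le_of_sq_le_sq' h2 (by positivity)).2
      have hlevel := level_sum A Z hZabs η (d * (k : ℝ) ^ 2) (by positivity) (by
        intro s _ _
        obtain ⟨a, b, B, hB⟩ := level_blk t s
        have := hA a b B
        rw [← hB] at this
        exact this)
      -- the claim for the normalised weights
      have hmain : ∑ e ∈ A, κ * min 0 (Ybar e) ≤ (∑ e, Ybar e) / k + δ * k := by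
        have h1 : ∀ e, min 0 (Ybar e) ≤ - max 0 (- Z e) + |Z e - Ybar e| := by
          intro e
          have h2 : - max 0 (- Z e) = min 0 (Z e) := by
            have := min_neg_neg (0 : ℝ) (- Z e)
            rw [neg_zero, neg_neg] at this
            exact this.symm
          rw [h2]
          rcases le_total 0 (Z e) with h | h
          · rw [min_eq_left h]
            have := min_le_left (0 : ℝ) (Ybar e)
            have := abs_nonneg (Z e - Ybar e)
            linarith
          · rw [min_eq_right h]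
            have h3 := min_le_right (0 : ℝ) (Ybar e)
            have h4 := neg_abs_le (Z e - Ybar e)
            linarith
        have h2 : ∑ e ∈ A, κ * min 0 (Ybar e) ≤ - κ * ∑ e ∈ A, max 0 (- Z e) + κ * (2 * (k : ℝ) ^ 2 / Real.sqrt T) := by
          calc ∑ e ∈ A, κ * min 0 (Ybar e) ≤ ∑ e ∈ A, κ * (- max 0 (- Z e) + |Z e - Ybar e|) :=
                Finset.sum_le_sum (fun e _ => mul_le_mul_of_nonneg_left (h1 e) hκ.le)
            _ = - κ * ∑ e ∈ A, max 0 (- Z e) + κ * ∑ e ∈ A, |Z e - Ybar e| := by
                rw [← Finset.mul_sum, Finset.sum_add_distrib, Finset.sum_neg_distrib]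
                ring
            _ ≤ _ := by
                have h3 : ∑ e ∈ A, |Z e - Ybar e| ≤ ∑ e, |Z e - Ybar e| :=
                  Finset.sum_le_sum_of_subset_of_nonneg (Finset.subset_univ _) (fun e _ _ => abs_nonneg _)
                have h4 := mul_le_mul_of_nonneg_left (h3.trans hdist) hκ.le
                linarith
        have h3 : ∑ e, Ybar e ≥ - ∑ e, max 0 (- Z e) - 2 * (k : ℝ) ^ 2 / Real.sqrt T := by
          have h4 : ∀ e, Ybar e ≥ - max 0 (- Z e) - |Z e - Ybar e| := by
            intro e
            have h5 := le_max_right (0 : ℝ) (- Z e)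
            have h6 := le_abs_self (Z e - Ybar e)
            linarith
          have h7 := Finset.sum_le_sum (fun e (_ : e ∈ (univ : Finset (Fin k × Fin k))) => h4 e)
          rw [Finset.sum_sub_distrib, Finset.sum_neg_distrib] at h7
          linarith
        have h4 : κ * (η * ∑ e, max 0 (- Z e)) = (∑ e, max 0 (- Z e)) / k := by
          rw [hκd]
          field_simp
        have h5 := mul_le_mul_of_nonneg_left hlevel hκ.le
        rw [mul_sub, h4] at h5
        have h6 : κ * (d * (k : ℝ) ^ 2) = (d / η) * k := by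
          rw [hκd]
          field_simp
        have h7 : κ * (2 * (k : ℝ) ^ 2 / Real.sqrt T) = (2 * (1 / η) / Real.sqrt T) * k := by
          rw [hκd]
          field_simp
        have h8 : (- ∑ e, max 0 (- Z e) - 2 * (k : ℝ) ^ 2 / Real.sqrt T) / k =
            - (∑ e, max 0 (- Z e)) / k - (2 / Real.sqrt T) * k := by
          field_simp
        have h9 : (- ∑ e, max 0 (- Z e) - 2 * (k : ℝ) ^ 2 / Real.sqrt T) / k ≤ (∑ e, Ybar e) / k := by
          rw [div_le_div_iff_of_pos_right hk']
          exact h3
        rw [h8] at h9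
        have h10 : δ * k = (d / η) * k + (2 * (1 / η) / Real.sqrt T) * k + (2 / Real.sqrt T) * k := by
          rw [hδ]; ring
        rw [h6] at h5
        rw [h7] at h2
        rw [h10]
        have h11 : - (∑ e, max 0 (- Z e)) / k = -((∑ e, max 0 (- Z e)) / k) := by ring
        rw [h11] at h9
        linarith
      -- scale back
      have hsc : ∀ e, ∑ x, ω x * tst x e = W * Ybar e := by
        intro e
        rw [hYbar]
        simp only
        rw [Finset.mul_sum]
        refine Finset.sum_congr rfl ?_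
        intro x _
        rw [hω']
        simp only
        field_simp
      have hmin : ∀ e, min 0 (W * Ybar e) = W * min 0 (Ybar e) := by
        intro e
        have h1 := mul_min_of_nonneg (0 : ℝ) (Ybar e) hW1.le
        rw [mul_zero] at h1
        exact h1.symm
      simp only [hsc, hmin]
      have hl : ∑ e : Fin k × Fin k, (if e ∈ A then κ else 0) * (W * min 0 (Ybar e)) =
          W * ∑ e ∈ A, κ * min 0 (Ybar e) := by
        rw [Finset.mul_sum, ← Finset.sum_subset (Finset.subset_univ A)]
        · refine Finset.sum_congr rfl ?_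
          intro e he
          rw [if_pos he]
          ring
        · intro e _ he
          rw [if_neg he, zero_mul]
      have hr : ∑ x, ω x * ((∑ e, tst x e) / k + δ * k) = W * ((∑ e, Ybar e) / k + δ * k) := by
        have h1 : ∀ x, ω x * ((∑ e, tst x e) / k + δ * k) = (∑ e, ω x * tst x e) / k + δ * k * ω x := by
          intro x
          rw [← Finset.mul_sum]
          ring
        simp only [h1]
        rw [Finset.sum_add_distrib, ← Finset.sum_div, Finset.sum_comm, ← Finset.mul_sum, ← hW]
        simp only [hsc]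
        rw [← Finset.mul_sum]
        ring
      rw [hl, hr]
      exact mul_le_mul_of_nonneg_left hmain hW1.le)
  refine ⟨X, hX0, ?_, ?_, hX⟩
  · intro e he
    have := hXκ e
    simpa [he] using this
  · intro e he
    have := hXκ e
    simp only [he, if_false] at this
    exact le_antisymm this (hX0 e)

end Pool.Agent.MP_dc7d7b
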